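import Pool.Agent.R811.Abc.List

set_option autoImplicit false

/-!
Tangles of bounded size: finiteness of the set of their polynomials, rows of crossings.
-/

namespace Pool.Agent.R811.Abc

open Finset LaurentPolynomial Pool.Agent.H891R2.Jones Pool.Agent.H891R2.MT Pool.Agent.H891R2.RF
open Pool.Agent.H891R2.MT.T4b (SIn SIn_d)
open Pool.Agent.H891R2.RF.R1 (K Zc Zc_eq ind_and sum_ind_eq sum4)

/-- the size of a tangle: the number of its crossings and marked points -/
def size (T : Outer4) : ℕ := T.crossings.length + Fintype.card T.P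

/-- `T` behaves like a row of crossings -/
def IsRow (T : Outer4) : Prop := ∃ q : ℤ, JonesRow q T

/-- `T` behaves like two vertical strands: up to one unit `± A^m`, the bracket of every diagram which
contains `T` does not change if `T` is replaced by two vertical strands -/
def JonesCut (S : Outer4) : Prop :=
  ∃ m ε : ℤ, (ε = 1 ∨ ε = -1) ∧ ∀ W : Outer4, ((put W S).close false).std.bracket =
    C ε * T m * (W.close true).std.bracket

/-! ### finiteness -/

theorem finite_sums {M : Type} [AddCommMonoid M] (A : Set M) (hA : A.Finite) (m : ℕ) :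
    {x : M | ∃ (ι : Type) (_ : Fintype ι) (f : ι → M), Fintype.card ι ≤ m ∧ (∀ i, f i ∈ A) ∧
      x = ∑ i, f i}.Finite := by
  have : Finite A := hA.to_subtype
  have h1 : (⋃ n ∈ Set.Iic m, Set.range (fun g : Fin n → A => ∑ i, (g i : M))).Finite :=
    Set.Finite.biUnion (Set.finite_Iic m) fun n _ => Set.finite_range _
  refine h1.subset ?_
  rintro x ⟨ι, _, f, hc, hf, rfl⟩
  rw [Set.mem_iUnion₂]
  refine ⟨Fintype.card ι, hc, fun i => ⟨f ((Fintype.equivFin ι).symm i), hf _⟩, ?_⟩
  exact Equiv.sum_comp (Fintype.equivFin ι).symm f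

/-- the possible summands -/
def terms (s : ℕ) : Set ℤ[T;T⁻¹] :=
  insert 0 ((fun z : ℤ × ℕ => T z.1 * dd ^ z.2) '' (Set.Icc (-(s : ℤ)) s ×ˢ Set.Iic s))

theorem terms_finite (s : ℕ) : (terms s).Finite :=
  (((Set.finite_Icc _ _).prod (Set.finite_Iic _)).image _).insert _

theorem term_mem {s : ℕ} {w : ℤ} {n : ℕ} (h1 : -(s : ℤ) ≤ w) (h2 : w ≤ s) (h3 : n ≤ s) :
    T w * dd ^ n ∈ terms s :=
  Set.mem_insert_of_mem _ ⟨(w, n), ⟨⟨h1, h2⟩, h3⟩, rfl⟩

theorem fin_bracket (s : ℕ) : {f : ℤ[T;T⁻¹] | ∃ (P : Type) (_ : Fintype P) (D : Diagram P),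
    D.crossings.length ≤ s ∧ Fintype.card P ≤ s ∧ f = D.bracket}.Finite := by
  refine (finite_sums (terms s) (terms_finite s) (2 ^ s)).subset ?_
  rintro f ⟨P, _, D, h1, h2, rfl⟩
  refine ⟨Fin D.crossings.length → Bool, inferInstance,
    fun t => T (Diagram.weight t) * (-T 2 - T (-2)) ^ (D.loops t - 1), ?_, ?_, rfl⟩
  · rw [Fintype.card_fun, Fintype.card_bool, Fintype.card_fin]
    exact Nat.pow_le_pow_right (by norm_num) h1
  · intro t
    have h3 := weight_le t
    have h4 := loops_le D t
    exact term_mem (by omega) (by omega) (by omega)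

theorem len_opn (S : Outer4) : (opn S).crossings.length = S.crossings.length := by
  simp [opn, UDiagram.std]

theorem fin_alpha (s : ℕ) : {f : ℤ[T;T⁻¹] | ∃ S : Outer4, size S ≤ s ∧ f = alpha S}.Finite := by
  classical
  refine (finite_sums (terms s) (terms_finite s) (2 ^ s)).subset ?_
  rintro f ⟨S, h1, rfl⟩
  unfold size at h1
  refine ⟨Fin (opn S).crossings.length → Bool, inferInstance,
    fun t => if Hor S t then T (Diagram.weight t) * dd ^ ((opn S).loops t - 2) else 0, ?_, ?_, ?_⟩
  · rw [Fintype.card_fun, Fintype.card_bool, Fintype.card_fin, len_opn]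
    exact Nat.pow_le_pow_right (by norm_num) (by omega)
  · intro t
    have h3 := weight_le t
    have h4 := loops_le (opn S) t
    have h5 := len_opn S
    dsimp only
    split_ifs
    · exact term_mem (by omega) (by omega) (by omega)
    · exact Set.mem_insert _ _
  · unfold alpha
    refine Finset.sum_congr rfl fun t _ => ?_
    dsimp only

theorem len_close (W : Outer4) (v : Bool) : (W.close v).std.crossings.length = W.crossings.length := by
  simp [Outer4.close, UDiagram.std]

theorem fin_pairs (s : ℕ) : {z : ℤ[T;T⁻¹] × ℤ[T;T⁻¹] | ∃ S : Outer4, size S ≤ s ∧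
    z = (brV S, alpha S)}.Finite := by
  refine ((fin_bracket s).prod (fin_alpha s)).subset ?_
  rintro z ⟨S, h1, rfl⟩
  refine ⟨⟨S.P, inferInstance, (S.close true).std, ?_, ?_, rfl⟩, ⟨S, h1, rfl⟩⟩
  · rw [len_close]
    unfold size at h1
    omega
  · unfold size at h1
    omega

/-! ### supports -/

theorem SIn_brV {s : ℕ} {W : Outer4} (h : size W ≤ s) : SIn (brV W) (-(2 * s)) (2 * s) := by
  have hp1 : 1 ≤ Fintype.card W.P := Fintype.card_pos_iff.2 ⟨W.corner false false⟩
  have h1 := SIn_bracket (W.close true).std (c := W.crossings.length) (p := Fintype.card W.P)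
    (by rw [len_close]) le_rfl (by omega)
  unfold size at h
  exact h1.mono (by omega) (by omega)

theorem SIn_brH {s : ℕ} {W : Outer4} (h : size W ≤ s) :
    SIn (brH W) (-(2 * s - 2)) (2 * s - 2) := by
  have hp1 : 1 ≤ Fintype.card W.P := Fintype.card_pos_iff.2 ⟨W.corner false false⟩
  have h1 := SIn_bracket (W.close false).std (c := W.crossings.length) (p := Fintype.card W.P)
    (by rw [len_close]) le_rfl (by omega)
  unfold size at h
  exact h1.mono (by omega) (by omega)

theorem SIn_yy {s : ℕ} {W : Outer4} (h : size W ≤ s) : SIn (yy W) (-(2 * s)) (2 * s) := by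
  unfold yy
  rw [sub_eq_add_neg]
  refine SIn.add ?_ (SIn_brV h).neg
  exact ((SIn_d).mul (SIn_brH h)).mono (by linarith) (by linarith)

theorem SIn_alpha {s : ℕ} {S : Outer4} (h : size S ≤ s) : SIn (alpha S) (-(2 * s)) (2 * s) := by
  classical
  unfold size at h
  unfold alpha
  refine SIn.sum _ _ fun t _ => ?_
  split_ifs
  · have h1 := weight_le t
    have h2 := loops_le (opn S) t
    have h5 := len_opn S
    have h3 := (SIn.T (Diagram.weight t)).mul (SIn_d.pow ((opn S).loops t - 2))
    refine h3.mono ?_ ?_ <;> omega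
  · exact SIn.zero

theorem SIn.list_prod {m : ℤ} (L : List ℤ[T;T⁻¹]) (h : ∀ f ∈ L, SIn f (-m) m) :
    SIn L.prod (-(m * L.length)) (m * L.length) := by
  induction L with
  | nil => simpa using SIn.one
  | cons f L ih =>
    rw [List.prod_cons, List.length_cons]
    refine ((h f List.mem_cons_self).mul (ih fun g hg => h g (List.mem_cons_of_mem _ hg))).mono
      ?_ ?_ <;> push_cast <;> linarith

/-! ### rows -/

theorem K_triv (A : ℂ) {N : ℕ} (u : Outer4.triv.P → Fin N) :
    K A Outer4.triv u = ind (u (false, false) = u (true, false)) *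
      ind (u (false, true) = u (true, true)) := by
  unfold K Outer4.triv
  simp [arcW]

theorem Zc_triv (A : ℂ) (N : ℕ) :
    Zc A N Outer4.triv false = N ∧ Zc A N Outer4.triv true = N * N := by
  constructor
  · rw [Zc_eq]
    have h1 : ∀ u : Outer4.triv.P → Fin N, K A Outer4.triv u *
        (if false = true then ind (u (Outer4.triv.corner false false) =
            u (Outer4.triv.corner true false)) *
          ind (u (Outer4.triv.corner false true) = u (Outer4.triv.corner true true))
        else ind (u (Outer4.triv.corner false false) = u (Outer4.triv.corner false true)) *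
          ind (u (Outer4.triv.corner true false) = u (Outer4.triv.corner true true))) =
        ind (u (false, false) = u (false, true)) * (ind (u (false, false) = u (true, false)) *
          (ind (u (true, false) = u (true, true)) *
            ind (u (false, true) = u (true, true)))) := by
      intro u
      rw [K_triv]
      simp only [Outer4.triv, Bool.false_eq_true, if_false]
      ring
    rw [Finset.sum_congr rfl fun u _ => h1 u]
    have h2 := sum4 (S := Fin N) (fun a b c d => ind (a = b) * (ind (a = c) * (ind (c = d) *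
      ind (b = d))))
    refine h2.trans ?_
    simp only [← Finset.mul_sum, sum_ind_eq]
    simp [ind]
  · rw [Zc_eq]
    have h1 : ∀ u : Outer4.triv.P → Fin N, K A Outer4.triv u *
        (if true = true then ind (u (Outer4.triv.corner false false) =
            u (Outer4.triv.corner true false)) *
          ind (u (Outer4.triv.corner false true) = u (Outer4.triv.corner true true))
        else ind (u (Outer4.triv.corner false false) = u (Outer4.triv.corner false true)) *
          ind (u (Outer4.triv.corner true false) = u (Outer4.triv.corner true true))) =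
        ind (u (false, false) = u (true, false)) * ind (u (false, true) = u (true, true)) := by
      intro u
      rw [K_triv]
      simp only [Outer4.triv, if_true]
      rw [mul_mul_mul_comm, ind_sq, ind_sq]
    rw [Finset.sum_congr rfl fun u _ => h1 u]
    have h2 := sum4 (S := Fin N) (fun a b c d => ind (a = c) * ind (b = d))
    refine h2.trans ?_
    simp only [← Finset.mul_sum, sum_ind_one, mul_one, Finset.sum_const, Finset.card_univ,
      Fintype.card_fin, nsmul_eq_mul]

theorem brH_triv : brH Outer4.triv = 1 := by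
  refine T6.eq_of_ev _ _ (fun N hN => ?_)
  apply mul_left_cancel₀ (castN N hN)
  rw [ev_brH, (Zc_triv _ _).1, map_one, mul_one]

theorem brV_triv : brV Outer4.triv = dd := by
  refine T6.eq_of_ev _ _ (fun N hN => ?_)
  apply mul_left_cancel₀ (castN N hN)
  rw [ev_brV, (Zc_triv _ _).2, ev_dd]

theorem of_row {S : Outer4} (hS : IsTangle S) {q : ℤ} (h : JonesRow q S) :
    ∃ m e : ℤ, (e = 1 ∨ e = -1) ∧ alpha S = C e * T m ∧
      brV S = C (e * (-1) ^ q.natAbs) * T (m - 4 * q) := by
  obtain ⟨m, e, he, h1⟩ := h
  have h2 : ∀ W : Outer4, alpha S * brH W + beta S * brV W = C e * T m *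
      ((vec (List.replicate q.natAbs (true, decide (0 ≤ q))) false).1 * brH W +
        (vec (List.replicate q.natAbs (true, decide (0 ≤ q))) false).2 * brV W) := by
    intro W
    have h3 := R2.R2 @R1.R1 W (List.replicate q.natAbs (true, decide (0 ≤ q))) false
    have h4 : (W.fill (List.replicate q.natAbs (true, decide (0 ≤ q)), false)).std.bracket =
      W.br (List.replicate q.natAbs (true, decide (0 ≤ q)), false) := rfl
    have h5 : ((put W S).close false).std.bracket = brH (put W S) := rfl
    have h6 := h1 W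
    rw [h4, h3, h5, brH_put W S hS, brH_eq, brV_eq] at h6
    exact h6
  obtain ⟨v1, v2⟩ := vec_row q.natAbs (decide (0 ≤ q))
  rw [sgn_row] at v1
  rw [sgn_row3] at v2
  obtain ⟨v, hv⟩ : ∃ v, v = vec (List.replicate q.natAbs (true, decide (0 ≤ q))) false := ⟨_, rfl⟩
  rw [← hv] at v1 v2 h2
  have e1 := h2 plain
  have e2 := h2 Outer4.triv
  rw [brH_plain, brV_plain] at e1
  rw [brH_triv, brV_triv] at e2
  have hd : (1 - dd * dd : ℤ[T;T⁻¹]) ≠ 0 := by
    intro h0
    have := congrArg ez h0
    rw [map_sub, map_one, map_mul, ez_dd, map_zero] at this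
    norm_num at this
  have ha : alpha S = C e * T m * v.1 := by
    have h3 : (1 - dd * dd) * (alpha S - C e * T m * v.1) = 0 := by
      linear_combination e2 - dd * e1
    rcases mul_eq_zero.1 h3 with h4 | h4
    · exact absurd h4 hd
    · exact sub_eq_zero.1 h4
  have hb : beta S = C e * T m * v.2 := by
    rw [ha] at e1
    linear_combination e1
  refine ⟨m + q, e, he, ?_, ?_⟩
  · rw [ha, v1, mul_assoc, ← T_add]
  · rw [brV_self S hS, ha, hb]
    have : C e * T m * v.1 + dd * (C e * T m * v.2) = C e * T m * (v.1 + dd * v.2) := by ring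
    rw [this, v2, map_mul, map_pow, map_neg, map_one, show m + q - 4 * q = m + -3 * q by ring, T_add]
    ring

/-- the rows of the ring give only units -/
theorem split_rows [∀ S : Outer4, Decidable (¬ IsRow S)] (q : Outer4 → ℤ) (l : List Outer4)
    (hT : ∀ S ∈ l, IsTangle S) (hq : ∀ S ∈ l, JonesRow (q S) S ∨ (¬ IsRow S ∧ q S = 0)) :
    ∃ (L : List Outer4) (e e' M : ℤ), (e = 1 ∨ e = -1) ∧ (e' = 1 ∨ e' = -1) ∧
      (∀ S ∈ L, S ∈ l ∧ ¬ IsRow S) ∧ L.length = l.countP (fun S => ¬ IsRow S) ∧
      (l.map brV).prod = C e' * T (M - 4 * (l.map q).sum) * (L.map brV).prod ∧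
      (l.map alpha).prod = C e * T M * (L.map alpha).prod := by
  induction l with
  | nil => exact ⟨[], 1, 1, 0, Or.inl rfl, Or.inl rfl, by simp, by simp, by simp, by simp⟩
  | cons S l ih =>
    obtain ⟨L, e, e', M, he, he', h1, h2, h3, h4⟩ := ih
      (fun T' h => hT T' (List.mem_cons_of_mem _ h)) (fun T' h => hq T' (List.mem_cons_of_mem _ h))
    rcases hq S List.mem_cons_self with hr | ⟨hr, hq0⟩
    · obtain ⟨m, c, hc, ha, hb⟩ := of_row (hT S List.mem_cons_self) hr
      have hrow : ¬ ¬ IsRow S := not_not.2 ⟨q S, hr⟩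
      refine ⟨L, e * c, e' * (c * (-1) ^ (q S).natAbs), M + m, ?_, ?_,
        fun T' h => ⟨List.mem_cons_of_mem _ (h1 T' h).1, (h1 T' h).2⟩, ?_, ?_, ?_⟩
      · rcases he with h | h <;> rcases hc with h' | h' <;> rw [h, h'] <;> norm_num
      · rcases neg_one_pow_eq_or ℤ (q S).natAbs with h'' | h'' <;> rw [h''] <;>
          rcases he' with h | h <;> rcases hc with h' | h' <;> rw [h, h'] <;> norm_num
      · rw [h2, List.countP_cons_of_neg (by simpa using hrow)]
      · rw [List.map_cons, List.prod_cons, h3, hb, List.map_cons, List.sum_cons, map_mul C e']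
        have : (T (M + m - 4 * (q S + (l.map q).sum)) : ℤ[T;T⁻¹]) =
            T (m - 4 * q S) * T (M - 4 * (l.map q).sum) := by
          rw [← T_add]; congr 1; ring
        rw [this]
        ring
      · rw [List.map_cons, List.prod_cons, h4, ha, map_mul, T_add]
        ring
    · refine ⟨S :: L, e, e', M, he, he', ?_, ?_, ?_, ?_⟩
      · intro T' hT'
        rcases List.mem_cons.1 hT' with rfl | h
        · exact ⟨List.mem_cons_self, hr⟩
        · exact ⟨List.mem_cons_of_mem _ (h1 T' h).1, (h1 T' h).2⟩
      · rw [List.length_cons, h2, List.countP_cons_of_pos (by simpa using hr)]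
      · rw [List.map_cons, List.prod_cons, h3, List.map_cons, List.sum_cons, hq0, zero_add,
          List.map_cons, List.prod_cons]
        ring
      · rw [List.map_cons, List.prod_cons, h4, List.map_cons, List.prod_cons]
        ring

end Pool.Agent.R811.Abc
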