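import Pool.Agent.R811.Abc.Laur

set_option autoImplicit false

namespace Pool.Agent.R811.Abc

open Finset LaurentPolynomial Pool.Agent.H891R2.Jones Pool.Agent.H891R2.MT Pool.Agent.H891R2.RF
open Pool.Agent.H891R2.MT.T4b (SIn)
open Polynomial (toLaurent)

/-- a primitive eighth root of unity -/
noncomputable def zt : ℂ := Complex.exp (2 * Real.pi * Complex.I / (8 : ℕ))

theorem zt_prim : IsPrimitiveRoot zt 8 := Complex.isPrimitiveRoot_exp 8 (by norm_num)

theorem zt_ne : zt ≠ 0 := zt_prim.ne_zero (by norm_num)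

theorem zt4 : zt ^ 4 = -1 := by
  have h1 : (zt ^ 4 - 1) * (zt ^ 4 + 1) = 0 := by
    have := zt_prim.pow_eq_one
    ring_nf
    rw [this]
    ring
  rcases mul_eq_zero.1 h1 with h | h
  · exact absurd (sub_eq_zero.1 h) (zt_prim.pow_ne_one_of_pos_of_lt (by norm_num) (by norm_num))
  · exact eq_neg_of_add_eq_zero_left h

/-- evaluation at `A = ζ₈` -/
noncomputable def ez : ℤ[T;T⁻¹] →+* ℂ :=
  LaurentPolynomial.eval₂ (Int.castRingHom ℂ) (Units.mk0 zt zt_ne)

theorem ez_T (k : ℤ) : ez (T k) = zt ^ k := by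
  unfold ez
  rw [LaurentPolynomial.eval₂_T]
  simp

theorem ez_C (c : ℤ) : ez (C c) = c := by
  unfold ez
  rw [LaurentPolynomial.eval₂_C]
  simp

theorem ez_dd : ez dd = 0 := by
  unfold dd
  rw [map_sub, map_neg, ez_T, ez_T]
  have h := zt4
  have h1 : zt ^ (2 : ℤ) = zt ^ 2 := by norm_cast
  have h2 : zt ^ (-2 : ℤ) = (zt ^ 2)⁻¹ := by
    rw [zpow_neg]; norm_cast
  rw [h1, h2]
  have h3 : zt ^ 2 ≠ 0 := pow_ne_zero _ zt_ne
  have h4 : (zt ^ 2)⁻¹ * zt ^ 2 = 1 := inv_mul_cancel₀ h3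
  apply mul_right_cancel₀ h3
  linear_combination -h - h4

variable {r : ℕ}

theorem not_dvd (x α β : Fin r → ℤ[T;T⁻¹]) (hx : ∀ i, x i = α i + dd * β i) (k : Fin r → ℕ)
    (hk : ∀ i, 2 ≤ k i) (X Y : ℤ[T;T⁻¹]) (ε j : ℤ) (hε : ε ≠ 0)
    (h : (∏ i, x i ^ k i) * X + (∏ i, α i ^ k i) * Y = C ε * T j * dd) (i : Fin r) :
    ¬ dd ∣ α i := by
  intro h1
  have h2 : dd ∣ x i := by
    rw [hx]
    exact dvd_add h1 (dvd_mul_right _ _)
  have h3 : dd * dd ∣ ∏ i, x i ^ k i := by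
    refine dvd_trans ?_ (Finset.dvd_prod_of_mem _ (Finset.mem_univ i))
    refine dvd_trans ?_ (pow_dvd_pow _ (hk i))
    rw [pow_two]
    exact mul_dvd_mul h2 h2
  have h4 : dd * dd ∣ ∏ i, α i ^ k i := by
    refine dvd_trans ?_ (Finset.dvd_prod_of_mem _ (Finset.mem_univ i))
    refine dvd_trans ?_ (pow_dvd_pow _ (hk i))
    rw [pow_two]
    exact mul_dvd_mul h1 h1
  have h5 : dd * dd ∣ C ε * T j * dd := by
    rw [← h]
    exact dvd_add (dvd_mul_of_dvd_left h3 _) (dvd_mul_of_dvd_left h4 _)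
  have h6 : dd ∣ C ε * T j := (mul_dvd_mul_iff_right dd_ne).1 h5
  obtain ⟨z, hz⟩ := h6
  have h7 := congrArg ez hz
  rw [map_mul, map_mul, ez_dd, zero_mul, ez_C, ez_T] at h7
  rcases mul_eq_zero.1 h7 with h8 | h8
  · exact hε (by exact_mod_cast h8)
  · exact zpow_ne_zero _ zt_ne h8

theorem laur_core (x α β : Fin r → ℤ[T;T⁻¹]) (hx : ∀ i, x i = α i + dd * β i) (k : Fin r → ℕ)
    (K : ℕ) (hK : 2 ≤ K) (hk : ∀ i, K ≤ k i) (X Y : ℤ[T;T⁻¹]) (hX : X ≠ 0) (hY : Y ≠ 0)
    (a a' b b' : ℤ) (hXs : SIn X a a') (hYs : SIn Y b b') (n : Fin r → ℤ)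
    (hpx : ∀ i, Par (n i) (x i)) (hpα : ∀ i, Par (n i) (α i))
    (hKb : (a' - a) + (b' - b) + 8 < 2 * ((K : ℤ) - 2)) (ε j : ℤ) (hε : ε ≠ 0)
    (h : (∏ i, x i ^ k i) * X + (∏ i, α i ^ k i) * Y = C ε * T j * dd) (i : Fin r) :
    ∃ c c' m m' : ℤ, x i = C c * T m ∧ α i = C c' * T m' := by
  classical
  have hnd := not_dvd x α β hx k (fun i => le_trans hK (hk i)) X Y ε j hε h
  have hα0 : ∀ i, α i ≠ 0 := fun i h0 => hnd i (by rw [h0]; exact dvd_zero _)
  have hx0 : ∀ i, x i ≠ 0 := by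
    intro i h0
    apply hnd i
    refine ⟨-β i, ?_⟩
    have := hx i
    rw [h0] at this
    linear_combination -this
  choose mx F hF0 hF using fun i => norm_form (x i) (hx0 i)
  choose ma G hG0 hG using fun i => norm_form (α i) (hα0 i)
  obtain ⟨mX, U, hU0, hU⟩ := norm_form X hX
  obtain ⟨mY, V, hV0, hV⟩ := norm_form Y hY
  have hprod : ∀ (m : Fin r → ℤ) (F : Fin r → Polynomial ℤ),
      ∏ i, (T (m i) * toLaurent (F i) : ℤ[T;T⁻¹]) ^ k i =
      T (∑ i, k i * m i) * toLaurent (∏ i, F i ^ k i) := by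
    intro m F
    rw [map_prod]
    have h1 : ∀ i, (T (m i) * toLaurent (F i) : ℤ[T;T⁻¹]) ^ k i =
        T (k i * m i) * toLaurent (F i ^ k i) := by
      intro i
      rw [mul_pow, T_pow, map_pow]
    rw [Finset.prod_congr rfl fun i _ => h1 i, Finset.prod_mul_distrib]
    congr 1
    have : ∀ s : Finset (Fin r), ∏ i ∈ s, (T (k i * m i) : ℤ[T;T⁻¹]) = T (∑ i ∈ s, k i * m i) := by
      intro s
      induction s using Finset.induction_on with
      | empty => simp
      | insert a s ha ih => rw [Finset.prod_insert ha, Finset.sum_insert ha, ih, T_add]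
    exact this _
  have hPx : ∏ i, x i ^ k i = T (∑ i, k i * mx i) * toLaurent (∏ i, F i ^ k i) := by
    rw [← hprod]
    exact Finset.prod_congr rfl fun i _ => by rw [hF i]
  have hPa : ∏ i, α i ^ k i = T (∑ i, k i * ma i) * toLaurent (∏ i, G i ^ k i) := by
    rw [← hprod]
    exact Finset.prod_congr rfl fun i _ => by rw [hG i]
  obtain ⟨E1, hE1⟩ : ∃ E : ℤ, E = ∑ i, k i * mx i + mX := ⟨_, rfl⟩
  obtain ⟨E2, hE2⟩ : ∃ E : ℤ, E = ∑ i, k i * ma i + mY := ⟨_, rfl⟩
  obtain ⟨E3, hE3⟩ : ∃ E : ℤ, E = j - 2 := ⟨_, rfl⟩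
  have heq : (T E1 : ℤ[T;T⁻¹]) * toLaurent ((∏ i, F i ^ k i) * U) +
      T E2 * toLaurent ((∏ i, G i ^ k i) * V) +
      T E3 * toLaurent (Polynomial.C ε * (Polynomial.X ^ 4 + 1)) = 0 := by
    rw [hPx, hPa, hU, hV, dd_eq] at h
    rw [hE1, hE2, hE3, T_add, T_add, sub_eq_add_neg j 2, T_add, map_mul, map_mul, map_mul,
      Polynomial.toLaurent_C]
    linear_combination h
  obtain ⟨M, hM1, hM2, hM3, hM⟩ : ∃ M : ℤ, M ≤ E1 ∧ M ≤ E2 ∧ M ≤ E3 ∧
      (M = E1 ∨ M = E2 ∨ M = E3) := by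
    refine ⟨min E1 (min E2 E3), min_le_left _ _, (min_le_right _ _).trans (min_le_left _ _),
      (min_le_right _ _).trans (min_le_right _ _), ?_⟩
    rcases le_total E1 (min E2 E3) with h1 | h1
    · exact Or.inl (min_eq_left h1)
    · rw [min_eq_right h1]
      rcases le_total E2 E3 with h2 | h2
      · exact Or.inr (Or.inl (min_eq_left h2))
      · exact Or.inr (Or.inr (min_eq_right h2))
  obtain ⟨e1, he1⟩ := Int.eq_ofNat_of_zero_le (by omega : 0 ≤ E1 - M)
  obtain ⟨e2, he2⟩ := Int.eq_ofNat_of_zero_le (by omega : 0 ≤ E2 - M)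
  obtain ⟨e3, he3⟩ := Int.eq_ofNat_of_zero_le (by omega : 0 ≤ E3 - M)
  have he : e1 = 0 ∨ e2 = 0 ∨ e3 = 0 := by omega
  have hpoly : Polynomial.X ^ e1 * (∏ i, F i ^ k i) * U + Polynomial.X ^ e2 * (∏ i, G i ^ k i) * V +
      Polynomial.C ε * Polynomial.X ^ e3 * (Polynomial.X ^ 4 + 1) = 0 := by
    apply Polynomial.toLaurent_injective
    have e1' : (T (e1 : ℤ) : ℤ[T;T⁻¹]) = T (-M) * T E1 := by rw [← he1, ← T_add]; congr 1; ring
    have e2' : (T (e2 : ℤ) : ℤ[T;T⁻¹]) = T (-M) * T E2 := by rw [← he2, ← T_add]; congr 1; ring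
    have e3' : (T (e3 : ℤ) : ℤ[T;T⁻¹]) = T (-M) * T E3 := by rw [← he3, ← T_add]; congr 1; ring
    simp only [map_add, map_mul, map_zero, Polynomial.toLaurent_X_pow, Polynomial.toLaurent_C,
      map_one] at heq ⊢
    rw [e1', e2', e3']
    linear_combination (T (-M) : ℤ[T;T⁻¹]) * heq
  -- over the rational numbers
  let φ := Int.castRingHom ℚ
  have hφ : Function.Injective φ := Int.cast_injective
  have hpolyQ := congrArg (Polynomial.map φ) hpoly
  simp only [Polynomial.map_add, Polynomial.map_mul, Polynomial.map_pow, Polynomial.map_X,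
    Polynomial.map_C, Polynomial.map_one, Polynomial.map_zero, Polynomial.map_prod] at hpolyQ
  have hc0 : ∀ P : Polynomial ℤ, P.coeff 0 ≠ 0 → (P.map φ).coeff 0 ≠ 0 := by
    intro P hP
    rw [Polynomial.coeff_map]
    intro h0
    apply hP
    have : φ (P.coeff 0) = φ 0 := by rw [h0, map_zero]
    exact hφ this
  have hFG : ∀ i (p : Polynomial ℚ), p ∣ Polynomial.X ^ 4 + 1 →
      (p ∣ (F i).map φ ↔ p ∣ (G i).map φ) := by
    intro i p hp
    obtain ⟨s, t, B, hB⟩ := transfer (hx i) (hF i) (hG i)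
    have hBQ := congrArg (Polynomial.map φ) hB
    simp only [Polynomial.map_add, Polynomial.map_mul, Polynomial.map_pow, Polynomial.map_X,
      Polynomial.map_one] at hBQ
    have hcop : IsCoprime p (Polynomial.X : Polynomial ℚ) := by
      obtain ⟨q, hq⟩ := hp
      refine ⟨q, -Polynomial.X ^ 3, ?_⟩
      linear_combination -hq
    constructor
    · intro h1
      have h2 : p ∣ Polynomial.X ^ t * (G i).map φ := by
        have : Polynomial.X ^ t * (G i).map φ = Polynomial.X ^ s * (F i).map φ -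
            (Polynomial.X ^ 4 + 1) * B.map φ := by
          rw [hBQ]; ring
        rw [this]
        exact dvd_sub (dvd_mul_of_dvd_right h1 _) (dvd_mul_of_dvd_left hp _)
      exact (hcop.pow_right).dvd_of_dvd_mul_left h2
    · intro h1
      have h2 : p ∣ Polynomial.X ^ s * (F i).map φ := by
        rw [hBQ]
        exact dvd_add (dvd_mul_of_dvd_right h1 _) (dvd_mul_of_dvd_left hp _)
      exact (hcop.pow_right).dvd_of_dvd_mul_left h2
  have main := poly_core (fun i => (F i).map φ) (fun i => (G i).map φ) k K hK hk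
    (fun i => hc0 _ (hF0 i)) (fun i => hc0 _ (hG0 i)) hFG (U.map φ) (V.map φ) (hc0 _ hU0)
    (hc0 _ hV0) e1 e2 e3 he (φ ε) (by
      intro h0
      apply hε
      have : φ ε = φ 0 := by rw [h0, map_zero]
      exact hφ this) hpolyQ
  simp only [Polynomial.natDegree_map_eq_of_injective hφ] at main
  obtain ⟨m1, m2⟩ := main
  have hdU := deg_le hU0 hU hXs
  have hdV := deg_le hV0 hV hYs
  have hev : Even (∑ i, (F i).natDegree + ∑ i, (G i).natDegree) := by
    refine Even.add ?_ ?_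
    · exact Finset.even_sum _ fun i _ => deg_even (hF0 i) (hF i) (hpx i)
    · exact Finset.even_sum _ fun i _ => deg_even (hG0 i) (hG i) (hpα i)
  obtain ⟨S, hS⟩ := hev
  have hS0 : S = 0 := by
    by_contra hne
    have h1 : 1 ≤ S := Nat.one_le_iff_ne_zero.2 hne
    have h2 : K * (S + S) ≤ 2 * (S + S) + U.natDegree + V.natDegree + 8 := by
      rw [← hS, mul_add]
      omega
    obtain ⟨K', rfl⟩ := Nat.exists_eq_add_of_le hK
    have h3 : K' * 2 ≤ K' * (S + S) := Nat.mul_le_mul_left _ (by omega)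
    have h4 : (2 + K') * (S + S) = 2 * (S + S) + K' * (S + S) := by ring
    push_cast at hKb
    omega
  have hFs : ∀ i, (F i).natDegree = 0 := by
    intro i
    have h1 : (F i).natDegree ≤ ∑ i, (F i).natDegree :=
      Finset.single_le_sum (f := fun i => (F i).natDegree) (fun _ _ => Nat.zero_le _)
        (Finset.mem_univ i)
    omega
  have hGs : ∀ i, (G i).natDegree = 0 := by
    intro i
    have h1 : (G i).natDegree ≤ ∑ i, (G i).natDegree :=
      Finset.single_le_sum (f := fun i => (G i).natDegree) (fun _ _ => Nat.zero_le _)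
        (Finset.mem_univ i)
    omega
  refine ⟨(F i).coeff 0, (G i).coeff 0, mx i, ma i, ?_, ?_⟩
  · have h1 := Polynomial.eq_C_of_natDegree_eq_zero (hFs i)
    conv_lhs => rw [hF i, h1]
    rw [Polynomial.toLaurent_C, mul_comm]
  · have h1 := Polynomial.eq_C_of_natDegree_eq_zero (hGs i)
    conv_lhs => rw [hG i, h1]
    rw [Polynomial.toLaurent_C, mul_comm]

theorem zt_pow {n : ℤ} (h : zt ^ n = 1 ∨ zt ^ n = -1) : ∃ q : ℤ, n = 4 * q := by
  have h1 : zt ^ (2 * n) = 1 := by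
    rw [mul_comm, zpow_mul]
    rcases h with h | h <;> rw [h] <;> norm_num
  have h2 := (zt_prim.zpow_eq_one_iff_dvd _).1 h1
  obtain ⟨q, hq⟩ := h2
  exact ⟨q, by push_cast at hq; omega⟩

theorem zt_4q (q : ℤ) : zt ^ (4 * q) = (-1) ^ q := by
  rw [zpow_mul]
  congr 1
  have := zt4
  exact_mod_cast this

/-- the constants are `± 1` -/
theorem units (x α β : Fin r → ℤ[T;T⁻¹]) (hx : ∀ i, x i = α i + dd * β i) (k : Fin r → ℕ)
    (hk : ∀ i, 2 ≤ k i) (X Y : ℤ[T;T⁻¹]) (ε j : ℤ) (hε : ε = 1 ∨ ε = -1)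
    (h : (∏ i, x i ^ k i) * X + (∏ i, α i ^ k i) * Y = C ε * T j * dd) (i : Fin r)
    {c c' m m' : ℤ} (h1 : x i = C c * T m) (h2 : α i = C c' * T m') :
    (c' = 1 ∨ c' = -1) ∧ ∃ q : ℤ, m' - m = 4 * q ∧ c = c' * (-1) ^ q.natAbs := by
  have hnd := not_dvd x α β hx k hk X Y ε j (by omega) h i
  have he : (c : ℂ) * zt ^ m = c' * zt ^ m' := by
    have := congrArg ez (hx i)
    rw [h1, h2, map_add, map_mul, map_mul, map_mul, ez_dd, zero_mul, add_zero, ez_C, ez_C,
      ez_T, ez_T] at this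
    exact this
  have habs : |c| = |c'| := by
    have h3 := congrArg (fun z : ℂ => ‖z‖) he
    have h4 : ∀ k : ℤ, ‖zt ^ k‖ = 1 := by
      intro k
      rw [norm_zpow, zt_prim.norm'_eq_one (by norm_num), one_zpow]
    simp only [norm_mul, h4, mul_one, Complex.norm_intCast] at h3
    exact_mod_cast h3
  have hc' : c' = 1 ∨ c' = -1 := by
    by_contra hne
    have h3 : c'.natAbs ≠ 1 := by omega
    obtain ⟨p, hp, hpc'⟩ := Nat.exists_prime_and_dvd h3
    have hpc'' : (p : ℤ) ∣ c' := Int.natCast_dvd.2 hpc'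
    have hpc : (p : ℤ) ∣ c := by
      rw [← dvd_abs, habs, dvd_abs]
      exact hpc''
    have d1 : C (p : ℤ) ∣ x i := by
      obtain ⟨z, hz⟩ := hpc
      rw [h1, hz, map_mul, mul_assoc]
      exact dvd_mul_right _ _
    have d2 : C (p : ℤ) ∣ α i := by
      obtain ⟨z, hz⟩ := hpc''
      rw [h2, hz, map_mul, mul_assoc]
      exact dvd_mul_right _ _
    have d3 : C (p : ℤ) ∣ C ε * T j * dd := by
      rw [← h]
      refine dvd_add (dvd_mul_of_dvd_left ?_ _) (dvd_mul_of_dvd_left ?_ _)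
      · refine dvd_trans ?_ (Finset.dvd_prod_of_mem _ (Finset.mem_univ i))
        exact dvd_trans d1 (dvd_pow_self _ (by have := hk i; omega))
      · refine dvd_trans ?_ (Finset.dvd_prod_of_mem _ (Finset.mem_univ i))
        exact dvd_trans d2 (dvd_pow_self _ (by have := hk i; omega))
    have d4 : C (p : ℤ) ∣ dd := by
      have e1 : dd = C ε * T (-j) * (C ε * T j * dd) := by
        have e2 : (C ε * C ε : ℤ[T;T⁻¹]) = 1 := by
          rw [← map_mul]
          rcases hε with h | h <;> rw [h] <;> simp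
        have e3 : (T (-j) * T j : ℤ[T;T⁻¹]) = 1 := by
          rw [← T_add, neg_add_cancel, T_zero]
        calc dd = (C ε * C ε) * (T (-j) * T j) * dd := by rw [e2, e3]; ring
          _ = _ := by ring
      rw [e1]
      exact dvd_mul_of_dvd_right d3 _
    obtain ⟨z, hz⟩ := d4
    have h5 := congrArg (fun f : ℤ[T;T⁻¹] => f.coeff 2) hz
    have h6 : dd.coeff 2 = -1 := by
      unfold dd
      rw [sub_eq_add_neg, AddMonoidAlgebra.coeff_add, Finsupp.add_apply,
        AddMonoidAlgebra.coeff_neg, AddMonoidAlgebra.coeff_neg, Finsupp.neg_apply,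
        Finsupp.neg_apply, T_apply, T_apply]
      norm_num
    have h7 : (C (p : ℤ) * z).coeff 2 = p * z.coeff 2 := by
      rw [← LaurentPolynomial.smul_eq_C_mul, AddMonoidAlgebra.coeff_smul, Finsupp.smul_apply,
        smul_eq_mul]
    change dd.coeff 2 = (C (p : ℤ) * z).coeff 2 at h5
    rw [h6, h7] at h5
    have h8 : (p : ℤ) ∣ 1 := ⟨-z.coeff 2, by linarith⟩
    have h9 : p ∣ 1 := by exact_mod_cast h8
    exact hp.one_lt.ne' (Nat.dvd_one.1 h9)
  refine ⟨hc', ?_⟩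
  have hcc : c = c' ∨ c = -c' := abs_eq_abs.1 habs
  have hc'C : (c' : ℂ) ≠ 0 := by
    rcases hc' with h | h <;> rw [h] <;> norm_num
  have hz : zt ^ (m' - m) = 1 ∨ zt ^ (m' - m) = -1 := by
    rw [zpow_sub₀ zt_ne]
    have h3 : zt ^ m ≠ 0 := zpow_ne_zero _ zt_ne
    rcases hcc with h4 | h4
    · left
      rw [h4] at he
      have := mul_left_cancel₀ hc'C he
      rw [← this, div_self h3]
    · right
      rw [h4] at he
      push_cast at he
      have : zt ^ m' = - zt ^ m := by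
        apply mul_left_cancel₀ hc'C
        linear_combination -he
      rw [this, neg_div, div_self h3]
  obtain ⟨q, hq⟩ := zt_pow hz
  refine ⟨q, hq, ?_⟩
  have h3 : zt ^ m' = zt ^ m * (-1) ^ q := by
    rw [← zt_4q, ← zpow_add₀ zt_ne]
    congr 1
    omega
  rw [h3] at he
  have h4 : zt ^ m ≠ 0 := zpow_ne_zero _ zt_ne
  have h5 : (c : ℂ) = c' * (-1) ^ q := by
    apply mul_right_cancel₀ h4
    rw [he]
    ring
  have h6 : ((-1 : ℂ)) ^ q = (-1) ^ q.natAbs := by
    rcases Int.natAbs_eq q with h7 | h7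
    · conv_lhs => rw [h7]
      rw [zpow_natCast]
    · conv_lhs => rw [h7]
      rw [zpow_neg, zpow_natCast, ← inv_pow]
      norm_num
  rw [h6] at h5
  exact_mod_cast h5

end Pool.Agent.R811.Abc
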