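import Pool.Agent.H891R2.RF.Defs

set_option autoImplicit false

/-!
Rings of 2-tangles: tangles with four ends put side by side in the box of an outside.
-/

namespace Pool.Agent.R811.Abc

open Finset LaurentPolynomial Pool.Agent.H891R2.Jones Pool.Agent.H891R2.MT Pool.Agent.H891R2.RF

/-- the tangle as an open diagram (the directions of the pieces are irrelevant) -/
def opn (T : Outer4) : Diagram T.P := (⟨T.arcs, T.crossings⟩ : UDiagram T.P).std

/-- the connected component of the corner `c t r` in the state `s` -/
def comp (T : Outer4) (s : Fin (opn T).crossings.length → Bool) (t r : Bool) :
    Quot ((opn T).Joined s) := Quot.mk _ (T.corner t r)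

/-- in the state `s` the lower corners are joined and the upper corners are joined, by two different
curves -/
def Hor (T : Outer4) (s : Fin (opn T).crossings.length → Bool) : Prop :=
  comp T s false false = comp T s false true ∧ comp T s true false = comp T s true true ∧
    comp T s false false ≠ comp T s true false

/-- in the state `s` the left corners are joined and the right corners are joined, by two different
curves -/
def Ver (T : Outer4) (s : Fin (opn T).crossings.length → Bool) : Prop :=
  comp T s false false = comp T s true false ∧ comp T s false true = comp T s true true ∧
    comp T s false false ≠ comp T s false true

/-- a 2-tangle (a tangle with four ends, the corners of a box): in every state two curves join the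
corners in pairs, horizontally or vertically, never diagonally. Every tangle diagram drawn in a
rectangle has this property. -/
def IsTangle (T : Outer4) : Prop := ∀ s, Hor T s ∨ Ver T s

/-- put the tangle `T` into the box of the outside `W`, at the right side; the rest of the box, at
the left of `T`, is the new box -/
def put (W T : Outer4) : Outer4 where
  P := W.P ⊕ T.P
  arcs := (W.arcs.map (Prod.map .inl .inl) ++ T.arcs.map (Prod.map .inr .inr)) ++
    [(.inl (W.corner false true), .inr (T.corner false true)),
      (.inl (W.corner true true), .inr (T.corner true true))]
  crossings := W.crossings.map (Prod.map .inl (Prod.map .inl (Prod.map .inl .inl))) ++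
    T.crossings.map (Prod.map .inr (Prod.map .inr (Prod.map .inr .inr)))
  corner := fun t r => if r then .inr (T.corner t false) else .inl (W.corner t false)

/-- put several tangles side by side into the box of `W` -/
def puts (W : Outer4) (l : List Outer4) : Outer4 := l.foldl put W

/-- the box of `W` is filled with the tangles of the list `l`, side by side, from the right to the
left; two horizontal strands join the last one with the left side of the box. -/
def ring (W : Outer4) (l : List Outer4) : UDiagram (puts W l).P := (puts W l).close false

/-- the bracket of the diagram obtained from `W` by filling the box with two horizontal strands -/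
noncomputable def brH (W : Outer4) : ℤ[T;T⁻¹] := (W.close false).std.bracket

/-- the bracket of the diagram obtained from `W` by filling the box with two vertical strands -/
noncomputable def brV (W : Outer4) : ℤ[T;T⁻¹] := (W.close true).std.bracket

/-- the outside of the box consists of two horizontal strands -/
def plain : Outer4 where
  P := Bool × Bool
  arcs := [((false, false), (false, true)), ((true, false), (true, true))]
  crossings := []
  corner := fun t r => (t, r)

open Classical in
/-- coefficient of the two horizontal strands -/
noncomputable def alpha (W : Outer4) : ℤ[T;T⁻¹] :=
  ∑ s : Fin (opn W).crossings.length → Bool,
    if Hor W s then T (Diagram.weight s) * dd ^ ((opn W).loops s - 2) else 0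

open Classical in
/-- coefficient of the two vertical strands -/
noncomputable def beta (W : Outer4) : ℤ[T;T⁻¹] :=
  ∑ s : Fin (opn W).crossings.length → Bool,
    if Ver W s then T (Diagram.weight s) * dd ^ ((opn W).loops s - 2) else 0

end Pool.Agent.R811.Abc
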