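import Pool.Agent.R811.Abc.Core

set_option autoImplicit false

namespace Pool.Agent.R811.Abc

open Finset LaurentPolynomial Pool.Agent.H891R2.Jones Pool.Agent.H891R2.MT Pool.Agent.H891R2.RF
open Pool.Agent.H891R2.MT.T4b (SIn SIn_d)

/-- `T` behaves like a row of `q` crossings (`|q|` crossings of the kind given by the sign of `q`): up
to one unit, the bracket of every diagram which contains `T` does not change if `T` is replaced by
this row. -/
def JonesRow (q : ℤ) (S : Outer4) : Prop :=
  ∃ m ε : ℤ, (ε = 1 ∨ ε = -1) ∧ ∀ W : Outer4, ((put W S).close false).std.bracket =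
    C ε * T m * (W.fill (List.replicate q.natAbs (true, decide (0 ≤ q)), false)).std.bracket

/-! ### supports and nonvanishing -/

theorem loops_le {P : Type} [Fintype P] (D : Diagram P) (s : Fin D.crossings.length → Bool) :
    D.loops s ≤ Fintype.card P := by
  unfold Diagram.loops
  rw [← Nat.card_eq_fintype_card]
  exact Nat.card_le_card_of_surjective _ Quot.mk_surjective

theorem weight_le {n : ℕ} (s : Fin n → Bool) :
    -(n : ℤ) ≤ Diagram.weight s ∧ Diagram.weight s ≤ n := by
  unfold Diagram.weight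
  constructor
  · have : ∑ _i : Fin n, (-1 : ℤ) ≤ ∑ i, if s i then (1 : ℤ) else -1 :=
      Finset.sum_le_sum fun i _ => by split_ifs <;> norm_num
    simpa using this
  · have : ∑ i, (if s i then (1 : ℤ) else -1) ≤ ∑ _i : Fin n, (1 : ℤ) :=
      Finset.sum_le_sum fun i _ => by split_ifs <;> norm_num
    simpa using this

theorem SIn_bracket {P : Type} [Fintype P] (D : Diagram P) {c p : ℤ}
    (hc : (D.crossings.length : ℤ) ≤ c) (hp : (Fintype.card P : ℤ) ≤ p) (hp1 : 1 ≤ p) :
    SIn D.bracket (-(c + 2 * (p - 1))) (c + 2 * (p - 1)) := by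
  unfold Diagram.bracket
  refine SIn.sum _ _ fun s _ => ?_
  have h1 := weight_le s
  have h2 := loops_le D s
  have h3 := (SIn.T (Diagram.weight s)).mul (SIn_d.pow (D.loops s - 1))
  have h4 : ((D.loops s - 1 : ℕ) : ℤ) ≤ p - 1 := by omega
  have h5 : (0 : ℤ) ≤ ((D.loops s - 1 : ℕ) : ℤ) := Nat.cast_nonneg _
  refine h3.mono ?_ ?_
  · linarith [h1.1]
  · linarith [h1.2]

/-- a primitive third root of unity -/
noncomputable def wt : ℂ := Complex.exp (2 * Real.pi * Complex.I / (3 : ℕ))

theorem wt_prim : IsPrimitiveRoot wt 3 := Complex.isPrimitiveRoot_exp 3 (by norm_num)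

theorem wt_ne : wt ≠ 0 := wt_prim.ne_zero (by norm_num)

theorem wt_sum : 1 + wt + wt ^ 2 = 0 := by
  have h := wt_prim.geom_sum_eq_zero (by norm_num)
  simpa [Finset.sum_range_succ] using h

noncomputable def ew : ℤ[T;T⁻¹] →+* ℂ :=
  LaurentPolynomial.eval₂ (Int.castRingHom ℂ) (Units.mk0 wt wt_ne)

theorem ew_T (k : ℤ) : ew (T k) = wt ^ k := by
  unfold ew
  rw [LaurentPolynomial.eval₂_T]
  simp

theorem wt_inv : wt⁻¹ = wt ^ 2 := by
  have h := wt_prim.pow_eq_one
  apply mul_left_cancel₀ wt_ne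
  rw [mul_inv_cancel₀ wt_ne, ← h]
  ring

theorem ew_d : ew (-T 2 - T (-2)) = 1 := by
  rw [map_sub, map_neg, ew_T, ew_T]
  have h1 : wt ^ (2 : ℤ) = wt ^ 2 := by norm_cast
  have h2 : wt ^ (-2 : ℤ) = wt := by
    have h3 : wt ^ (-2 : ℤ) = (wt⁻¹) ^ 2 := by
      rw [zpow_neg, ← inv_zpow]; norm_cast
    rw [h3, wt_inv]
    have := wt_prim.pow_eq_one
    calc (wt ^ 2) ^ 2 = wt ^ 3 * wt := by ring
      _ = wt := by rw [this, one_mul]
  rw [h1, h2]
  linear_combination -wt_sum

theorem bracket_ne {P : Type} (D : Diagram P) : D.bracket ≠ 0 := by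
  intro h
  have h1 := congrArg ew h
  unfold Diagram.bracket at h1
  rw [map_sum, map_zero] at h1
  have h2 : ∀ s : Fin D.crossings.length → Bool,
      ew (T (Diagram.weight s) * (-T 2 - T (-2)) ^ (D.loops s - 1)) =
      ∏ i, wt ^ (if s i then 1 else -1 : ℤ) := by
    intro s
    rw [map_mul, map_pow, ew_d, one_pow, mul_one, ew_T, Diagram.weight, zpow_sum _ wt_ne]
  rw [Finset.sum_congr rfl fun s _ => h2 s] at h1
  have h3 := Finset.prod_univ_sum (fun _ : Fin D.crossings.length => (Finset.univ : Finset Bool))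
    (fun _ b => wt ^ (if b then 1 else -1 : ℤ))
  rw [Fintype.piFinset_univ] at h3
  rw [← h3] at h1
  have h4 : ∑ b : Bool, wt ^ (if b then 1 else -1 : ℤ) = -1 := by
    rw [Fintype.sum_bool]
    simp only [if_true, Bool.false_eq_true, if_false, zpow_one, zpow_neg, wt_inv]
    linear_combination wt_sum
  rw [Finset.prod_congr rfl fun i _ => h4, Finset.prod_const] at h1
  exact pow_ne_zero _ (by norm_num) h1

/-! ### rows of crossings -/

theorem brH_eq (W : Outer4) : W.br ([], false) = brH W := rfl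

theorem brV_eq (W : Outer4) : W.br ([], true) = brV W := rfl

theorem vec_row (n : ℕ) (s : Bool) :
    (vec (List.replicate n (true, s)) false).1 = T (if s then (n : ℤ) else -n) ∧
    (vec (List.replicate n (true, s)) false).1 + dd * (vec (List.replicate n (true, s)) false).2 =
      (-1) ^ n * T (if s then -(3 * n : ℤ) else 3 * n) := by
  induction n with
  | zero => cases s <;> simp [vec]
  | succ n ih =>
    obtain ⟨h1, h2⟩ := ih
    rw [List.replicate_succ, vec]
    obtain ⟨v, hv⟩ : ∃ v, v = vec (List.replicate n (true, s)) false := ⟨_, rfl⟩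
    rw [← hv] at h1 h2 ⊢
    have e1 : dd * T (-1) + T 1 = -T (-3) := by
      rw [mul_comm, add_comm]
      unfold dd
      rw [mul_sub, mul_neg, ← T_add, ← T_add]
      norm_num
      ring
    cases s
    · simp only [act, if_true, Bool.false_eq_true, if_false] at h1 h2 ⊢
      constructor
      · rw [h1, ← T_add]
        congr 1
        push_cast
        ring
      · have e2 : (T (-1) + dd * T 1 : ℤ[T;T⁻¹]) = -T 3 := by
          unfold dd
          rw [sub_mul, neg_mul, ← T_add, ← T_add]
          norm_num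
        have : T (-1) * v.1 + dd * (T 1 * v.1 - T 3 * v.2) = -T 3 * (v.1 + dd * v.2) := by
          linear_combination v.1 * e2
        rw [this, h2, pow_succ]
        have e3 : (T (3 * ((n + 1 : ℕ) : ℤ)) : ℤ[T;T⁻¹]) = T 3 * T (3 * n) := by
          rw [← T_add]; congr 1; push_cast; ring
        rw [e3]
        ring
    · simp only [act, if_true] at h1 h2 ⊢
      constructor
      · rw [h1, ← T_add]
        congr 1
        push_cast
        ring
      · have e2 : (T 1 + dd * T (-1) : ℤ[T;T⁻¹]) = -T (-3) := by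
          rw [add_comm]; exact e1
        have : T 1 * v.1 + dd * (T (-1) * v.1 - T (-3) * v.2) = -T (-3) * (v.1 + dd * v.2) := by
          linear_combination v.1 * e2
        rw [this, h2, pow_succ]
        have e3 : (T (-(3 * ((n + 1 : ℕ) : ℤ))) : ℤ[T;T⁻¹]) = T (-3) * T (-(3 * n)) := by
          rw [← T_add]; congr 1; push_cast; ring
        rw [e3]
        ring

theorem sgn_row (q : ℤ) : (if decide (0 ≤ q) = true then (q.natAbs : ℤ) else -q.natAbs) = q := by
  by_cases h : 0 ≤ q
  · rw [if_pos (by simpa using h)]; omega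
  · rw [if_neg (by simpa using h)]; omega

theorem sgn_row3 (q : ℤ) :
    (if decide (0 ≤ q) = true then -(3 * q.natAbs : ℤ) else 3 * q.natAbs) = -3 * q := by
  by_cases h : 0 ≤ q
  · rw [if_pos (by simpa using h)]; omega
  · rw [if_neg (by simpa using h)]; omega

theorem row_of (S : Outer4) (hS : IsTangle S) {c c' m m' q : ℤ}
    (h1 : brV S = C c * T m) (h2 : alpha S = C c' * T m') (hc' : c' = 1 ∨ c' = -1)
    (hq : m' - m = 4 * q) (hc : c = c' * (-1) ^ q.natAbs) : JonesRow q S := by
  refine ⟨m' - q, c', hc', fun W => ?_⟩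
  have h3 := R2.R2 @R1.R1 W (List.replicate q.natAbs (true, decide (0 ≤ q))) false
  have h4 : (W.fill (List.replicate q.natAbs (true, decide (0 ≤ q)), false)).std.bracket =
      W.br (List.replicate q.natAbs (true, decide (0 ≤ q)), false) := rfl
  rw [h4, h3]
  have h5 : ((put W S).close false).std.bracket = brH (put W S) := rfl
  rw [h5, brH_put W S hS, brH_eq, brV_eq]
  obtain ⟨v1, v2⟩ := vec_row q.natAbs (decide (0 ≤ q))
  rw [sgn_row] at v1
  rw [sgn_row3] at v2
  obtain ⟨v, hv⟩ : ∃ v, v = vec (List.replicate q.natAbs (true, decide (0 ≤ q))) false := ⟨_, rfl⟩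
  rw [← hv] at v1 v2 ⊢
  have hα : alpha S = C c' * T (m' - q) * v.1 := by
    rw [h2, v1, mul_assoc, ← T_add]
    congr 2
    ring
  have hx : alpha S + dd * beta S = C c' * T (m' - q) * (v.1 + dd * v.2) := by
    rw [← brV_self S hS, h1, v2, hc, map_mul, map_pow, map_neg, map_one]
    have : (T m : ℤ[T;T⁻¹]) = T (m' - q) * T (-3 * q) := by
      rw [← T_add]; congr 1; omega
    rw [this]
    ring
  have hβ : beta S = C c' * T (m' - q) * v.2 := by
    apply mul_left_cancel₀ dd_ne
    linear_combination hx - hα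
  rw [hα, hβ]
  ring

/-! ### the equation -/

theorem IsU.bracket {P : Type} [Fintype P] [DecidableEq P] [Nonempty P] (D : Diagram P)
    (U : UDiagram P) (h : Orients D U) (hf : IsU D.fPoly) : IsU U.std.bracket := by
  obtain ⟨m, ε, hε, hm⟩ := hf
  rw [← T6.bracket_orients D U h]
  have h1 : (T (3 * D.writhe) : ℤ[T;T⁻¹]) * T (-3 * D.writhe) = 1 := by
    rw [← T_add]
    have : 3 * D.writhe + -3 * D.writhe = 0 := by ring
    rw [this, T_zero]
  unfold Diagram.fPoly at hm
  by_cases hw : Even D.writhe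
  · rw [if_pos hw] at hm
    refine ⟨3 * D.writhe + m, ε, hε, ?_⟩
    rw [T_add]
    calc D.bracket = (T (3 * D.writhe) * T (-3 * D.writhe)) * D.bracket := by rw [h1, one_mul]
      _ = T (3 * D.writhe) * (1 * T (-3 * D.writhe) * D.bracket) := by ring
      _ = _ := by rw [hm]; ring
  · rw [if_neg hw] at hm
    refine ⟨3 * D.writhe + m, -ε, by omega, ?_⟩
    rw [T_add, map_neg]
    calc D.bracket = (T (3 * D.writhe) * T (-3 * D.writhe)) * D.bracket := by rw [h1, one_mul]
      _ = -(T (3 * D.writhe) * (-1 * T (-3 * D.writhe) * D.bracket)) := by ring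
      _ = _ := by rw [hm]; ring

theorem prod_map {r : ℕ} (S : Fin r → Outer4) (c : List (Fin r)) (hc : ∀ i, 1 ≤ c.count i)
    (f : Outer4 → ℤ[T;T⁻¹]) :
    ((c.map S).map f).prod = ∏ i, f (S i) ^ c.count i := by
  rw [List.map_map, Finset.prod_list_map_count]
  have : c.toFinset = Finset.univ := by
    ext i
    simp only [List.mem_toFinset, mem_univ, iff_true]
    exact List.count_pos_iff.1 (hc i)
  rw [this]
  rfl

theorem equation {r : ℕ} (W : Outer4) (S : Fin r → Outer4) (hS : ∀ i, IsTangle (S i))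
    (c : List (Fin r)) (hc : ∀ i, 1 ≤ c.count i) (h : IsU (brH (puts W (c.map S)))) :
    ∃ ε j : ℤ, (ε = 1 ∨ ε = -1) ∧
      (∏ i, brV (S i) ^ c.count i) * brV W + (∏ i, alpha (S i) ^ c.count i) * yy W =
        C ε * T j * dd := by
  obtain ⟨j, ε, hε, hj⟩ := h
  refine ⟨ε, j, hε, ?_⟩
  obtain ⟨h1, h2⟩ := ring_formula (c.map S) (by
    intro T' hT'
    rw [List.mem_map] at hT'
    obtain ⟨i, _, rfl⟩ := hT'
    exact hS i) W
  rw [prod_map S c hc] at h1 h2
  rw [← h1, ← h2, ← hj]
  unfold yy
  ring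

/-- the main step -/
theorem main_step {r : ℕ} (W : Outer4) (S : Fin r → Outer4) (hS : ∀ i, IsTangle (S i))
    (c : List (Fin r)) (K : ℕ) (hK : 2 ≤ K) (hc : ∀ i, K ≤ c.count i)
    (h : IsU (brH (puts W (c.map S)))) (hy : yy W ≠ 0) (a a' b b' : ℤ)
    (hX : SIn (brV W) a a') (hY : SIn (yy W) b b')
    (hKb : (a' - a) + (b' - b) + 8 < 2 * ((K : ℤ) - 2)) :
    ∃ (ε j : ℤ) (c' m' q : Fin r → ℤ), (ε = 1 ∨ ε = -1) ∧ (∀ i, c' i = 1 ∨ c' i = -1) ∧
      (∀ i, alpha (S i) = C (c' i) * T (m' i)) ∧
      (∀ i, brV (S i) = C (c' i * (-1) ^ (q i).natAbs) * T (m' i - 4 * q i)) ∧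
      (∀ i, JonesRow (q i) (S i)) ∧
      (∏ i, brV (S i) ^ c.count i) * brV W + (∏ i, alpha (S i) ^ c.count i) * yy W =
        C ε * T j * dd := by
  obtain ⟨ε, j, hε, he⟩ := equation W S hS c (fun i => by have := hc i; omega) h
  have hx : ∀ i, brV (S i) = alpha (S i) + dd * beta (S i) := fun i => brV_self _ (hS i)
  have hp : ∀ i, Par ((opn (S i)).crossings.length : ℤ) (alpha (S i)) := fun i => par_alpha _
  have hpx : ∀ i, Par ((opn (S i)).crossings.length : ℤ) (brV (S i)) := by
    intro i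
    rw [hx]
    refine (par_alpha _).add ?_
    have := Par.dd.mul (par_beta (S i))
    rwa [zero_add] at this
  have h1 := fun i => laur_core (fun i => brV (S i)) (fun i => alpha (S i)) (fun i => beta (S i)) hx
    (fun i => c.count i) K hK hc (brV W) (yy W) (bracket_ne _) hy a a' b b' hX hY
    (fun i => ((opn (S i)).crossings.length : ℤ)) hpx hp hKb ε j (by omega) he i
  choose d d' m m' hd hd' using h1
  have h2 := fun i => units (fun i => brV (S i)) (fun i => alpha (S i)) (fun i => beta (S i)) hx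
    (fun i => c.count i) (fun i => le_trans hK (hc i)) (brV W) (yy W) ε j hε he i (hd i) (hd' i)
  choose h3 q hq hcq using h2
  refine ⟨ε, j, d', m', q, hε, h3, hd', ?_, ?_, he⟩
  · intro i
    rw [hd i, ← hcq i]
    congr 2
    have := hq i
    omega
  · intro i
    exact row_of (S i) (hS i) (hd i) (hd' i) (h3 i) (hq i) (hcq i)

end Pool.Agent.R811.Abc
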