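import Pool.Agent.R811.Abc.Plain

set_option autoImplicit false

namespace Pool.Agent.R811.Abc

open Finset LaurentPolynomial Pool.Agent.H891R2.Jones Pool.Agent.H891R2.MT Pool.Agent.H891R2.RF
open Pool.Agent.H891R2.MT.T4b (SIn SIn_d)
open Polynomial (toLaurent)

/-- a factor of a unit is `± A^m` -/
theorem IsU.factor {f g : ℤ[T;T⁻¹]} (h : IsU (f * g)) : IsU f := by
  obtain ⟨j, ε, hε, hj⟩ := h
  have hne : f * g ≠ 0 := by
    rw [hj]
    refine mul_ne_zero ?_ (T_ne _)
    intro h0
    have := congrArg (fun f : ℤ[T;T⁻¹] => f.coeff 0) h0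
    rw [show (C ε : ℤ[T;T⁻¹]) = C ε * T 0 by rw [T_zero, mul_one]] at this
    simp only [coeffC, T_apply] at this
    norm_num at this
    omega
  obtain ⟨m, F, hF0, hF⟩ := norm_form f (left_ne_zero_of_mul hne)
  obtain ⟨m', G, hG0, hG⟩ := norm_form g (right_ne_zero_of_mul hne)
  have h1 : toLaurent (F * G) = C ε * T (j - m - m') := by
    rw [map_mul, sub_sub, sub_eq_add_neg, T_add]
    have e1 : (T m * T m' * T (-(m + m')) : ℤ[T;T⁻¹]) = 1 := by
      rw [← T_add, ← T_add, add_neg_cancel, T_zero]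
    rw [hF, hG] at hj
    linear_combination (T (-(m + m')) : ℤ[T;T⁻¹]) * hj - toLaurent F * toLaurent G * e1
  have h2 : (F * G).coeff 0 ≠ 0 := by
    rw [Polynomial.mul_coeff_zero]
    exact mul_ne_zero hF0 hG0
  have h3 : j - m - m' = 0 := by
    by_contra h4
    apply h2
    have h5 := coeff_toL (F * G) 0
    rw [← h5, h1, coeffC, T_apply, Nat.cast_zero, if_neg h4, mul_zero]
  have h4 : F * G = Polynomial.C ε := by
    apply Polynomial.toLaurent_injective
    rw [h1, h3, T_zero, mul_one, Polynomial.toLaurent_C]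
  have hF1 : F ≠ 0 := fun h0 => hF0 (by rw [h0]; simp)
  have hG1 : G ≠ 0 := fun h0 => hG0 (by rw [h0]; simp)
  have h5 : F.natDegree + G.natDegree = 0 := by
    rw [← Polynomial.natDegree_mul hF1 hG1, h4, Polynomial.natDegree_C]
  have h6 := Polynomial.eq_C_of_natDegree_eq_zero (by omega : F.natDegree = 0)
  have h7 := Polynomial.eq_C_of_natDegree_eq_zero (by omega : G.natDegree = 0)
  have h8 : F.coeff 0 * G.coeff 0 = ε := by
    rw [← Polynomial.mul_coeff_zero, h4, Polynomial.coeff_C_zero]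
  have h9 : IsUnit (F.coeff 0) := by
    refine IsUnit.of_mul_eq_one (G.coeff 0 * ε) ?_
    rw [← mul_assoc, h8]
    rcases hε with h | h <;> rw [h] <;> norm_num
  refine ⟨m, F.coeff 0, Int.isUnit_iff.1 h9, ?_⟩
  rw [hF]
  conv_lhs => rw [h6]
  rw [Polynomial.toLaurent_C, mul_comm]

theorem IsU.of_dvd {f g : ℤ[T;T⁻¹]} (h : IsU g) (hd : f ∣ g) : IsU f := by
  obtain ⟨z, rfl⟩ := hd
  exact IsU.factor h

theorem general_case {r : ℕ} (S : Fin r → Outer4) (hS : ∀ i, IsTangle (S i)) (W : Outer4)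
    (c : List (Fin r)) (hc : ∀ i, 2 * W.crossings.length + 4 * Fintype.card W.P + 5 ≤ c.count i)
    (h : IsU (brH (puts W (c.map S)))) :
    (∃ q : Fin r → ℤ, ∀ i, JonesRow (q i) (S i)) ∨
      (brV W = dd * brH W ∧ IsU (brH W) ∧ ∀ i, IsU (brV (S i))) := by
  by_cases hy : yy W = 0
  · right
    have h1 : brV W = dd * brH W := by
      unfold yy at hy
      exact (sub_eq_zero.1 hy).symm
    obtain ⟨h2, h3⟩ := ring_formula (c.map S) (by
      intro T' hT'
      rw [List.mem_map] at hT'
      obtain ⟨i, _, rfl⟩ := hT'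
      exact hS i) W
    rw [hy, mul_zero] at h3
    have h4 : brV (puts W (c.map S)) = dd * brH (puts W (c.map S)) := by
      unfold yy at h3
      exact (sub_eq_zero.1 h3).symm
    have h5 : brH (puts W (c.map S)) = ((c.map S).map brV).prod * brH W := by
      apply mul_left_cancel₀ dd_ne
      rw [← h4, h2, h1]
      ring
    rw [prod_map S c (fun i => by have := hc i; omega)] at h5
    refine ⟨h1, IsU.of_dvd h ?_, fun i => IsU.of_dvd h ?_⟩
    · rw [h5]
      exact dvd_mul_left _ _
    · rw [h5]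
      refine dvd_mul_of_dvd_left ?_ _
      refine dvd_trans ?_ (Finset.dvd_prod_of_mem _ (Finset.mem_univ i))
      exact dvd_pow_self _ (by have := hc i; omega)
  · left
    have hp1 : 1 ≤ Fintype.card W.P := Fintype.card_pos_iff.2 ⟨W.corner false false⟩
    obtain ⟨cr, hcr⟩ : ∃ n : ℤ, n = W.crossings.length := ⟨_, rfl⟩
    obtain ⟨p, hp⟩ : ∃ n : ℤ, n = Fintype.card W.P := ⟨_, rfl⟩
    have hlen : ∀ v, (((W.close v).std).crossings.length : ℤ) ≤ cr := by
      intro v
      rw [hcr]
      unfold Outer4.close UDiagram.std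
      simp
    have hX : SIn (brV W) (-(cr + 2 * (p - 1))) (cr + 2 * (p - 1)) :=
      SIn_bracket _ (hlen true) (le_of_eq hp.symm) (by omega)
    have hH : SIn (brH W) (-(cr + 2 * (p - 1))) (cr + 2 * (p - 1)) :=
      SIn_bracket _ (hlen false) (le_of_eq hp.symm) (by omega)
    have hY : SIn (yy W) (-(cr + 2 * p)) (cr + 2 * p) := by
      unfold yy
      rw [sub_eq_add_neg]
      refine SIn.add ?_ ?_
      · have := (SIn_d).mul hH
        refine this.mono ?_ ?_ <;> linarith
      · exact hX.neg.mono (by linarith) (by linarith)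
    obtain ⟨ε, j, c', m', q, hε, hc', hα, hx, hrow, he⟩ := main_step W S hS c
      (2 * W.crossings.length + 4 * Fintype.card W.P + 5) (by omega) hc h hy _ _ _ _ hX hY (by
        push_cast
        rw [hcr, hp]
        linarith)
    exact ⟨q, hrow⟩

end Pool.Agent.R811.Abc
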