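import Pool.Agent.R811.Abc.Tensor

set_option autoImplicit false

namespace Pool.Agent.R811.Abc

open Finset LaurentPolynomial Pool.Agent.H891R2.Jones Pool.Agent.H891R2.MT Pool.Agent.H891R2.RF
open Pool.Agent.H891R2.RF.R1 (K Zc Zc_eq ind_and sum_ind_eq)

theorem K_put (A : ℂ) {N : ℕ} (W T : Outer4) (u : W.P → Fin N) (x : T.P → Fin N) :
    K A (put W T) (Sum.elim u x) = K A W u * K A T x *
      (ind (u (W.corner false true) = x (T.corner false true)) *
        ind (u (W.corner true true) = x (T.corner true true))) := by
  unfold K put
  dsimp only
  rw [List.map_append, List.prod_append, List.map_append, List.prod_append, List.map_append,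
    List.prod_append, List.map_map, List.map_map, List.map_map, List.map_map]
  have h1 : (arcW (Sum.elim u x) ∘ Prod.map Sum.inl Sum.inl : W.P × W.P → ℂ) = arcW u := by
    funext y; rfl
  have h2 : (arcW (Sum.elim u x) ∘ Prod.map Sum.inr Sum.inr : T.P × T.P → ℂ) = arcW x := by
    funext y; rfl
  rw [h1, h2]
  have h3 : ((fun y : (W.P ⊕ T.P) × (W.P ⊕ T.P) × (W.P ⊕ T.P) × (W.P ⊕ T.P) =>
      crossW A (Sum.elim u x) ⟨y.1, y.2.1, y.2.2.1, y.2.2.2, true, true⟩) ∘
      Prod.map Sum.inl (Prod.map Sum.inl (Prod.map Sum.inl Sum.inl)) : W.P × W.P × W.P × W.P → ℂ) =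
      (fun y => crossW A u ⟨y.1, y.2.1, y.2.2.1, y.2.2.2, true, true⟩) := by
    funext y; rfl
  have h4 : ((fun y : (W.P ⊕ T.P) × (W.P ⊕ T.P) × (W.P ⊕ T.P) × (W.P ⊕ T.P) =>
      crossW A (Sum.elim u x) ⟨y.1, y.2.1, y.2.2.1, y.2.2.2, true, true⟩) ∘
      Prod.map Sum.inr (Prod.map Sum.inr (Prod.map Sum.inr Sum.inr)) : T.P × T.P × T.P × T.P → ℂ) =
      (fun y => crossW A x ⟨y.1, y.2.1, y.2.2.1, y.2.2.2, true, true⟩) := by
    funext y; rfl
  rw [h3, h4]
  simp only [List.map_cons, List.map_nil, List.prod_cons, List.prod_nil, mul_one, arcW,
    Sum.elim_inl, Sum.elim_inr]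
  ring

theorem sum_put {N : ℕ} (W T : Outer4) (F : ((put W T).P → Fin N) → ℂ) :
    ∑ c : (put W T).P → Fin N, F c = ∑ u : W.P → Fin N, ∑ x : T.P → Fin N, F (Sum.elim u x) := by
  have h := Fintype.sum_equiv (Equiv.sumArrowEquivProdArrow W.P T.P (Fin N)).symm
    (fun z : (W.P → Fin N) × (T.P → Fin N) => F (Sum.elim z.1 z.2)) (fun c => F c) (by
      intro z
      rfl)
  rw [Fintype.sum_prod_type] at h
  exact h.symm

/-- one more tangle in the ring: coloured state sums -/
theorem Zc_put (W T : Outer4) (hT : IsTangle T) {A : ℂ} (hA : A ≠ 0) (N : ℕ) :
    Zc A N (put W T) false = alphaN A N T * Zc A N W false + betaN A N T * Zc A N W true ∧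
    Zc A N (put W T) true = (alphaN A N T + N * betaN A N T) * Zc A N W true := by
  constructor
  · rw [Zc_eq, Zc_eq, Zc_eq, sum_put, Finset.mul_sum, Finset.mul_sum, ← Finset.sum_add_distrib]
    refine Finset.sum_congr rfl fun u _ => ?_
    have h1 := tensor T hT hA (N := N) (fun a b c d =>
      ind (u (W.corner false true) = b) * ind (u (W.corner true true) = d) *
        (ind (u (W.corner false false) = a) * ind (u (W.corner true false) = c)))
    have h2 : ∀ x : T.P → Fin N, K A (put W T) (Sum.elim u x) *
        (if false = true then
          ind ((Sum.elim u x : (put W T).P → Fin N) ((put W T).corner false false) =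
            (Sum.elim u x : (put W T).P → Fin N) ((put W T).corner true false)) *
          ind ((Sum.elim u x : (put W T).P → Fin N) ((put W T).corner false true) =
            (Sum.elim u x : (put W T).P → Fin N) ((put W T).corner true true))
        else
          ind ((Sum.elim u x : (put W T).P → Fin N) ((put W T).corner false false) =
            (Sum.elim u x : (put W T).P → Fin N) ((put W T).corner false true)) *
          ind ((Sum.elim u x : (put W T).P → Fin N) ((put W T).corner true false) =
            (Sum.elim u x : (put W T).P → Fin N) ((put W T).corner true true))) =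
        K A W u * (K A T x * (ind (u (W.corner false true) = x (T.corner false true)) *
          ind (u (W.corner true true) = x (T.corner true true)) *
          (ind (u (W.corner false false) = x (T.corner false false)) *
            ind (u (W.corner true false) = x (T.corner true false))))) := by
      intro x
      rw [K_put]
      simp only [put, Bool.false_eq_true, if_false, if_true, Sum.elim_inl, Sum.elim_inr]
      ring
    rw [Finset.sum_congr rfl fun x _ => h2 x, ← Finset.mul_sum, h1]
    have h3 : ∑ p : Fin N, ∑ q : Fin N, (ind (u (W.corner false true) = p) *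
        ind (u (W.corner true true) = q) *
        (ind (u (W.corner false false) = p) * ind (u (W.corner true false) = q))) =
        ind (u (W.corner false false) = u (W.corner false true)) *
          ind (u (W.corner true false) = u (W.corner true true)) := by
      have : ∀ p q : Fin N, (ind (u (W.corner false true) = p) *
        ind (u (W.corner true true) = q) *
        (ind (u (W.corner false false) = p) * ind (u (W.corner true false) = q)) : ℂ) =
        ind (u (W.corner false true) = p) * (ind (u (W.corner true true) = q) *
        (ind (u (W.corner false false) = p) * ind (u (W.corner true false) = q))) := by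
        intro p q; ring
      simp only [this, ← Finset.mul_sum, sum_ind_eq]
    have h4 : ∑ p : Fin N, ∑ q : Fin N, (ind (u (W.corner false true) = q) *
        ind (u (W.corner true true) = q) *
        (ind (u (W.corner false false) = p) * ind (u (W.corner true false) = p))) =
        ind (u (W.corner false false) = u (W.corner true false)) *
          ind (u (W.corner false true) = u (W.corner true true)) := by
      have : ∀ p q : Fin N, (ind (u (W.corner false true) = q) *
        ind (u (W.corner true true) = q) *
        (ind (u (W.corner false false) = p) * ind (u (W.corner true false) = p)) : ℂ) =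
        ind (u (W.corner false false) = p) * (ind (u (W.corner false true) = q) *
        (ind (u (W.corner true false) = p) * ind (u (W.corner true true) = q))) := by
        intro p q; ring
      simp only [this, ← Finset.mul_sum, sum_ind_eq]
      rw [show (ind (u (W.corner true false) = u (W.corner false false)) : ℂ) =
        ind (u (W.corner false false) = u (W.corner true false)) from
        ind_congr ⟨fun h => h.symm, fun h => h.symm⟩,
        show (ind (u (W.corner true true) = u (W.corner false true)) : ℂ) =
        ind (u (W.corner false true) = u (W.corner true true)) from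
        ind_congr ⟨fun h => h.symm, fun h => h.symm⟩]
    rw [h3, h4]
    simp only [Bool.false_eq_true, if_false, if_true]
    ring
  · rw [Zc_eq, Zc_eq, sum_put, Finset.mul_sum]
    refine Finset.sum_congr rfl fun u _ => ?_
    have h1 := tensor T hT hA (N := N) (fun a b c d =>
      ind (u (W.corner false true) = b) * ind (u (W.corner true true) = d) *
        (ind (u (W.corner false false) = u (W.corner true false)) * ind (a = c)))
    have h2 : ∀ x : T.P → Fin N, K A (put W T) (Sum.elim u x) *
        (if true = true then
          ind ((Sum.elim u x : (put W T).P → Fin N) ((put W T).corner false false) =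
            (Sum.elim u x : (put W T).P → Fin N) ((put W T).corner true false)) *
          ind ((Sum.elim u x : (put W T).P → Fin N) ((put W T).corner false true) =
            (Sum.elim u x : (put W T).P → Fin N) ((put W T).corner true true))
        else
          ind ((Sum.elim u x : (put W T).P → Fin N) ((put W T).corner false false) =
            (Sum.elim u x : (put W T).P → Fin N) ((put W T).corner false true)) *
          ind ((Sum.elim u x : (put W T).P → Fin N) ((put W T).corner true false) =
            (Sum.elim u x : (put W T).P → Fin N) ((put W T).corner true true))) =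
        K A W u * (K A T x * (ind (u (W.corner false true) = x (T.corner false true)) *
          ind (u (W.corner true true) = x (T.corner true true)) *
          (ind (u (W.corner false false) = u (W.corner true false)) *
            ind (x (T.corner false false) = x (T.corner true false))))) := by
      intro x
      rw [K_put]
      simp only [put, Bool.false_eq_true, if_false, if_true, Sum.elim_inl, Sum.elim_inr]
      ring
    rw [Finset.sum_congr rfl fun x _ => h2 x, ← Finset.mul_sum, h1]
    have h3 : ∑ p : Fin N, ∑ q : Fin N, (ind (u (W.corner false true) = p) *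
        ind (u (W.corner true true) = q) *
        (ind (u (W.corner false false) = u (W.corner true false)) * ind (p = q))) =
        ind (u (W.corner false false) = u (W.corner true false)) *
          ind (u (W.corner false true) = u (W.corner true true)) := by
      have : ∀ p q : Fin N, (ind (u (W.corner false true) = p) *
        ind (u (W.corner true true) = q) *
        (ind (u (W.corner false false) = u (W.corner true false)) * ind (p = q)) : ℂ) =
        ind (u (W.corner false false) = u (W.corner true false)) *
        (ind (u (W.corner false true) = p) * (ind (u (W.corner true true) = q) *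
         ind (p = q))) := by
        intro p q; ring
      simp only [this, ← Finset.mul_sum, sum_ind_eq]
    have h4 : ∑ p : Fin N, ∑ q : Fin N, (ind (u (W.corner false true) = q) *
        ind (u (W.corner true true) = q) *
        (ind (u (W.corner false false) = u (W.corner true false)) * ind (p = p))) =
        (N : ℂ) * (ind (u (W.corner false false) = u (W.corner true false)) *
          ind (u (W.corner false true) = u (W.corner true true))) := by
      have : ∀ p q : Fin N, (ind (u (W.corner false true) = q) *
        ind (u (W.corner true true) = q) *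
        (ind (u (W.corner false false) = u (W.corner true false)) * ind (p = p)) : ℂ) =
        ind (u (W.corner false false) = u (W.corner true false)) *
        (ind (u (W.corner false true) = q) * ind (u (W.corner true true) = q)) := by
        intro p q
        rw [ind_pos (rfl : p = p)]; ring
      rw [Finset.sum_congr rfl fun p _ => Finset.sum_congr rfl fun q _ => this p q]
      simp only [← Finset.mul_sum, sum_ind_eq]
      rw [Finset.sum_const, Finset.card_univ, Fintype.card_fin, nsmul_eq_mul,
        show (ind (u (W.corner true true) = u (W.corner false true)) : ℂ) =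
        ind (u (W.corner false true) = u (W.corner true true)) from
        ind_congr ⟨fun h => h.symm, fun h => h.symm⟩]
      ring
    rw [h3, h4]
    simp only [if_true]
    ring

/-- the two closures of a tangle: coloured state sums -/
theorem Zc_self (T : Outer4) (hT : IsTangle T) {A : ℂ} (hA : A ≠ 0) (N : ℕ) :
    Zc A N T false = alphaN A N T * (N * N) + betaN A N T * N ∧
    Zc A N T true = alphaN A N T * N + betaN A N T * (N * N) := by
  have hN2 : ∑ _p : Fin N, ∑ _q : Fin N, (1 : ℂ) = N * N := by
    simp
  have hN1 : ∑ p : Fin N, ∑ q : Fin N, (ind (p = q) * ind (p = q) : ℂ) = N := by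
    have : ∀ p q : Fin N, (ind (p = q) * ind (p = q) : ℂ) = ind (p = q) * 1 := by
      intro p q
      by_cases h : p = q <;> simp [ind, h]
    simp only [this]
    have h5 : ∀ p : Fin N, ∑ q : Fin N, (ind (p = q) * (1 : ℂ)) = 1 := by
      intro p
      have := sum_ind_eq p (fun _ : Fin N => (1 : ℂ))
      simpa using this
    simp only [h5]
    simp
  constructor
  · rw [Zc_eq]
    have h1 := tensor T hT hA (N := N) (fun a b c d => ind (a = b) * ind (c = d))
    simp only [Bool.false_eq_true, if_false]
    rw [h1]
    congr 2
    rw [← hN2]
    refine Finset.sum_congr rfl fun p _ => Finset.sum_congr rfl fun q _ => ?_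
    simp [ind]
  · rw [Zc_eq]
    have h1 := tensor T hT hA (N := N) (fun a b c d => ind (a = c) * ind (b = d))
    simp only [if_true]
    rw [h1, hN1]
    congr 2
    rw [← hN2]
    refine Finset.sum_congr rfl fun p _ => Finset.sum_congr rfl fun q _ => ?_
    simp [ind]

theorem ev_dd (N : ℕ) (hN : 3 ≤ N) : ev N hN dd = (N : ℂ) := by
  unfold dd
  rw [map_sub, map_neg, ev_T, ev_T, Ar_d N hN, inv_pow]
  rfl

theorem ev_alpha (N : ℕ) (hN : 3 ≤ N) (W : Outer4) : ev N hN (alpha W) = alphaN (Ar N) N W := by
  classical
  unfold alpha alphaN
  rw [map_sum]
  refine Finset.sum_congr rfl fun s _ => ?_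
  split_ifs
  · rw [map_mul, map_pow, ev_T, ev_dd]
  · exact map_zero _

theorem ev_beta (N : ℕ) (hN : 3 ≤ N) (W : Outer4) : ev N hN (beta W) = betaN (Ar N) N W := by
  classical
  unfold beta betaN
  rw [map_sum]
  refine Finset.sum_congr rfl fun s _ => ?_
  split_ifs
  · rw [map_mul, map_pow, ev_T, ev_dd]
  · exact map_zero _

theorem ev_brH (N : ℕ) (hN : 3 ≤ N) (W : Outer4) : (N : ℂ) * ev N hN (brH W) = Zc (Ar N) N W false := by
  haveI : Nonempty W.P := ⟨W.corner false false⟩
  exact ev_bracket N hN (W.close false).std

theorem ev_brV (N : ℕ) (hN : 3 ≤ N) (W : Outer4) : (N : ℂ) * ev N hN (brV W) = Zc (Ar N) N W true := by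
  haveI : Nonempty W.P := ⟨W.corner false false⟩
  exact ev_bracket N hN (W.close true).std

theorem castN (N : ℕ) (hN : 3 ≤ N) : (N : ℂ) ≠ 0 := by
  exact_mod_cast (by omega : N ≠ 0)

theorem brH_put (W T : Outer4) (hT : IsTangle T) :
    brH (put W T) = alpha T * brH W + beta T * brV W := by
  refine T6.eq_of_ev _ _ (fun N hN => ?_)
  apply mul_left_cancel₀ (castN N hN)
  rw [ev_brH, (Zc_put W T hT (Ar_ne N hN) N).1, map_add, map_mul, map_mul, ev_alpha, ev_beta,
    ← ev_brH N hN, ← ev_brV N hN]
  ring

theorem brV_put (W T : Outer4) (hT : IsTangle T) :
    brV (put W T) = (alpha T + dd * beta T) * brV W := by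
  refine T6.eq_of_ev _ _ (fun N hN => ?_)
  apply mul_left_cancel₀ (castN N hN)
  rw [ev_brV, (Zc_put W T hT (Ar_ne N hN) N).2, map_mul, map_add, map_mul, ev_alpha, ev_beta,
    ev_dd, ← ev_brV N hN]
  ring

theorem brH_self (T : Outer4) (hT : IsTangle T) : brH T = dd * alpha T + beta T := by
  refine T6.eq_of_ev _ _ (fun N hN => ?_)
  apply mul_left_cancel₀ (castN N hN)
  rw [ev_brH, (Zc_self T hT (Ar_ne N hN) N).1, map_add, map_mul, ev_alpha, ev_beta, ev_dd]
  ring

theorem brV_self (T : Outer4) (hT : IsTangle T) : brV T = alpha T + dd * beta T := by
  refine T6.eq_of_ev _ _ (fun N hN => ?_)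
  apply mul_left_cancel₀ (castN N hN)
  rw [ev_brV, (Zc_self T hT (Ar_ne N hN) N).2, map_add, map_mul, ev_alpha, ev_beta, ev_dd]
  ring

/-- the second coordinate of an outside: `dd ⟨horizontal⟩ - ⟨vertical⟩` -/
noncomputable def yy (W : Outer4) : ℤ[T;T⁻¹] := dd * brH W - brV W

/-- the bracket of a ring of tangles -/
theorem ring_formula (l : List Outer4) (hl : ∀ T ∈ l, IsTangle T) (W : Outer4) :
    brV (puts W l) = (l.map brV).prod * brV W ∧
    yy (puts W l) = (l.map alpha).prod * yy W := by
  induction l generalizing W with
  | nil => simp [puts]
  | cons T l ih =>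
    have hT := hl T List.mem_cons_self
    obtain ⟨h1, h2⟩ := ih (fun T' h => hl T' (List.mem_cons_of_mem _ h)) (put W T)
    have h3 : puts W (T :: l) = puts (put W T) l := rfl
    rw [h3, h1, h2]
    constructor
    · rw [brV_put W T hT, List.map_cons, List.prod_cons, brV_self T hT]
      ring
    · unfold yy
      rw [brH_put W T hT, brV_put W T hT, List.map_cons, List.prod_cons]
      ring

end Pool.Agent.R811.Abc
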