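import Pool.Agent.R811.Abc.Poly
import Pool.Agent.R811.Abc.Rec
import Pool.Agent.H891R2.MT.T4b
import Pool.Agent.H891R2.SI.S6

set_option autoImplicit false

namespace Pool.Agent.R811.Abc

open Finset LaurentPolynomial Pool.Agent.H891R2.Jones Pool.Agent.H891R2.MT Pool.Agent.H891R2.RF
open Pool.Agent.H891R2.MT.T4b (SIn)
open Polynomial (toLaurent)

theorem coeff_toL (F : Polynomial ℤ) (j : ℕ) : (toLaurent F).coeff (j : ℤ) = F.coeff j := by
  rw [coeff_toLaurent]
  exact Finsupp.mapDomain_apply Nat.cast_injective _ _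

/-- normal form -/
theorem norm_form (f : ℤ[T;T⁻¹]) (hf : f ≠ 0) :
    ∃ (m : ℤ) (F : Polynomial ℤ), F.coeff 0 ≠ 0 ∧ f = T m * toLaurent F := by
  obtain ⟨n, f', h⟩ := exists_T_pow f
  have hf' : f' ≠ 0 := by
    rintro rfl
    apply hf
    have h1 : f * T n * T (-n) = 0 := by rw [← h]; simp
    rwa [mul_T_assoc, add_neg_cancel, T_zero, mul_one] at h1
  have h1 : Polynomial.X ^ f'.natTrailingDegree ∣ f' := by
    rw [Polynomial.X_pow_dvd_iff]
    intro d hd
    exact Polynomial.coeff_eq_zero_of_lt_natTrailingDegree hd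
  obtain ⟨F, hF⟩ := h1
  refine ⟨(f'.natTrailingDegree : ℤ) - n, F, ?_, ?_⟩
  · have h2 : f'.coeff f'.natTrailingDegree = F.coeff 0 := by
      have := Polynomial.coeff_X_pow_mul F f'.natTrailingDegree 0
      rw [zero_add, ← hF] at this
      exact this
    rw [← h2]
    exact fun h3 => hf' (Polynomial.trailingCoeff_eq_zero.1 h3)
  · have h2 : f = toLaurent f' * T (-n) := by
      rw [h, mul_T_assoc, add_neg_cancel, T_zero, mul_one]
    rw [h2]
    conv_lhs => rw [hF]
    rw [map_mul, Polynomial.toLaurent_X_pow, sub_eq_add_neg, T_add]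
    ring

theorem deg_le {f : ℤ[T;T⁻¹]} {m : ℤ} {F : Polynomial ℤ} (hF : F.coeff 0 ≠ 0)
    (h : f = T m * toLaurent F) {lo hi : ℤ} (hs : SIn f lo hi) : (F.natDegree : ℤ) ≤ hi - lo := by
  have hF0 : F ≠ 0 := fun h0 => hF (by rw [h0]; simp)
  have h1 := hs m (by
    have := Pool.Agent.H891R2.SI.S6.coeff_T_mul m (toLaurent F) 0
    rw [add_zero] at this
    rw [h, this]
    have h2 := coeff_toL F 0
    rw [Nat.cast_zero] at h2
    rw [h2]
    exact hF)
  have h2 := hs (m + F.natDegree) (by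
    rw [h, Pool.Agent.H891R2.SI.S6.coeff_T_mul, coeff_toL]
    exact fun h3 => hF0 (Polynomial.leadingCoeff_eq_zero.1 h3))
  omega

/-- all exponents have the parity of `n` -/
def Par (n : ℤ) (f : ℤ[T;T⁻¹]) : Prop := ∀ j, f.coeff j ≠ 0 → Even (j - n)

theorem Par.zero {n : ℤ} : Par n 0 := fun j hj => absurd rfl hj

theorem Par.add {n : ℤ} {f g : ℤ[T;T⁻¹]} (hf : Par n f) (hg : Par n g) : Par n (f + g) := by
  intro j hj
  by_cases h : f.coeff j = 0
  · apply hg j
    intro h'
    apply hj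
    rw [AddMonoidAlgebra.coeff_add, Finsupp.add_apply, h, h', add_zero]
  · exact hf j h

theorem Par.sum {ι : Type} (s : Finset ι) (f : ι → ℤ[T;T⁻¹]) {n : ℤ}
    (h : ∀ i ∈ s, Par n (f i)) : Par n (∑ i ∈ s, f i) := by
  classical
  induction s using Finset.induction_on with
  | empty => simpa using Par.zero
  | insert a s ha ih =>
    rw [Finset.sum_insert ha]
    exact (h a (Finset.mem_insert_self _ _)).add
      (ih (fun i hi => h i (Finset.mem_insert_of_mem hi)))

theorem Par.mul {f g : ℤ[T;T⁻¹]} {n n' : ℤ} (hf : Par n f) (hg : Par n' g) :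
    Par (n + n') (f * g) := by
  classical
  intro j hj
  have h1 : j ∈ (f * g).coeff.support := Finsupp.mem_support_iff.mpr hj
  have h2 := AddMonoidAlgebra.support_coeff_mul_subset f g h1
  rw [Finset.mem_add] at h2
  obtain ⟨a, ha, b, hb, rfl⟩ := h2
  have k1 := hf a (Finsupp.mem_support_iff.mp ha)
  have k2 := hg b (Finsupp.mem_support_iff.mp hb)
  have : a + b - (n + n') = (a - n) + (b - n') := by ring
  rw [this]
  exact k1.add k2

theorem Par.T (m : ℤ) {n : ℤ} (h : Even (m - n)) : Par n (T m) := by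
  intro j hj
  rw [T_apply] at hj
  by_cases h1 : m = j
  · subst h1; exact h
  · rw [if_neg h1] at hj; exact absurd rfl hj

theorem Par.neg {n : ℤ} {f : ℤ[T;T⁻¹]} (hf : Par n f) : Par n (-f) := by
  intro j hj
  apply hf j
  intro h
  apply hj
  rw [AddMonoidAlgebra.coeff_neg, Finsupp.neg_apply, h, neg_zero]

theorem Par.dd : Par 0 dd := by
  unfold Pool.Agent.H891R2.RF.dd
  rw [sub_eq_add_neg]
  exact ((Par.T 2 (by decide)).neg).add ((Par.T (-2) (by decide)).neg)

theorem Par.pow {f : ℤ[T;T⁻¹]} (hf : Par 0 f) (n : ℕ) : Par 0 (f ^ n) := by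
  induction n with
  | zero =>
    rw [pow_zero, ← T_zero]
    exact Par.T 0 (by decide)
  | succ n ih =>
    rw [pow_succ]
    have := ih.mul hf
    rwa [add_zero] at this

theorem weight_par {n : ℕ} (s : Fin n → Bool) : Even (Diagram.weight s - n) := by
  unfold Diagram.weight
  have h : (∑ i : Fin n, (if s i then (1 : ℤ) else -1)) - n =
      ∑ i : Fin n, ((if s i then (1 : ℤ) else -1) - 1) := by
    rw [Finset.sum_sub_distrib]
    simp
  rw [h]
  refine Finset.even_sum _ fun i _ => ?_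
  split_ifs <;> decide

theorem par_alpha (W : Outer4) : Par (opn W).crossings.length (alpha W) := by
  classical
  unfold alpha
  refine Par.sum _ _ fun s _ => ?_
  split_ifs
  · have h1 : Par ((opn W).crossings.length : ℤ) (T (Diagram.weight s)) := Par.T _ (weight_par s)
    have := h1.mul (Par.dd.pow ((opn W).loops s - 2))
    rwa [add_zero] at this
  · exact Par.zero

theorem par_beta (W : Outer4) : Par (opn W).crossings.length (beta W) := by
  classical
  unfold beta
  refine Par.sum _ _ fun s _ => ?_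
  split_ifs
  · have h1 : Par ((opn W).crossings.length : ℤ) (T (Diagram.weight s)) := Par.T _ (weight_par s)
    have := h1.mul (Par.dd.pow ((opn W).loops s - 2))
    rwa [add_zero] at this
  · exact Par.zero

theorem deg_even {f : ℤ[T;T⁻¹]} {m : ℤ} {F : Polynomial ℤ} (hF : F.coeff 0 ≠ 0)
    (h : f = T m * toLaurent F) {n : ℤ} (hs : Par n f) : Even F.natDegree := by
  have hF0 : F ≠ 0 := fun h0 => hF (by rw [h0]; simp)
  have h1 := hs m (by
    have := Pool.Agent.H891R2.SI.S6.coeff_T_mul m (toLaurent F) 0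
    rw [add_zero] at this
    rw [h, this]
    have h2 := coeff_toL F 0
    rw [Nat.cast_zero] at h2
    rw [h2]
    exact hF)
  have h2 := hs (m + F.natDegree) (by
    rw [h, Pool.Agent.H891R2.SI.S6.coeff_T_mul, coeff_toL]
    exact fun h3 => hF0 (Polynomial.leadingCoeff_eq_zero.1 h3))
  have h3 : ((F.natDegree : ℕ) : ℤ) = (m + F.natDegree - n) - (m - n) := by ring
  have h4 : Even ((F.natDegree : ℕ) : ℤ) := by
    rw [h3]
    exact h2.sub h1
  exact_mod_cast h4

/-- `dd = - A⁻² (A⁴ + 1)` -/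
theorem dd_eq : dd = -T (-2) * toLaurent (Polynomial.X ^ 4 + 1) := by
  unfold dd
  rw [map_add, Polynomial.toLaurent_X_pow, map_one, mul_add, mul_one, neg_mul, ← T_add]
  norm_num
  ring

theorem X4_ne' : (Polynomial.X ^ 4 + 1 : Polynomial ℤ) ≠ 0 := by
  intro h
  have := congrArg (Polynomial.eval 0) h
  simp at this

theorem T_ne (m : ℤ) : (T m : ℤ[T;T⁻¹]) ≠ 0 := (isUnit_T m).ne_zero

theorem dd_ne : dd ≠ 0 := by
  rw [dd_eq]
  refine mul_ne_zero (neg_ne_zero.2 (T_ne _)) ?_
  rw [Polynomial.toLaurent_ne_zero]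
  exact X4_ne'

/-- divisibility of the difference -/
theorem transfer {f g h : ℤ[T;T⁻¹]} (hfg : f = g + dd * h) {m m' : ℤ} {F G : Polynomial ℤ}
    (hF : f = T m * toLaurent F) (hG : g = T m' * toLaurent G) :
    ∃ (s t : ℕ) (B : Polynomial ℤ), Polynomial.X ^ s * F = Polynomial.X ^ t * G +
      (Polynomial.X ^ 4 + 1) * B := by
  obtain ⟨n, B', hB⟩ := exists_T_pow h
  have hh : h = toLaurent B' * T (-n) := by
    rw [hB, mul_T_assoc, add_neg_cancel, T_zero, mul_one]
  obtain ⟨N, hN1, hN2, hN3⟩ : ∃ N : ℤ, 0 ≤ m + N ∧ 0 ≤ m' + N ∧ 0 ≤ N - 2 - n :=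
    ⟨|m| + |m'| + n + 2, by
      have := neg_abs_le m
      have := abs_nonneg m'
      omega, by
      have := neg_abs_le m'
      have := abs_nonneg m
      omega, by
      have := abs_nonneg m
      have := abs_nonneg m'
      omega⟩
  obtain ⟨s, hs⟩ := Int.eq_ofNat_of_zero_le hN1
  obtain ⟨t, ht⟩ := Int.eq_ofNat_of_zero_le hN2
  obtain ⟨v, hv⟩ := Int.eq_ofNat_of_zero_le hN3
  refine ⟨s, t, -(Polynomial.X ^ v * B'), ?_⟩
  apply Polynomial.toLaurent_injective
  rw [map_add, map_mul, map_mul, map_mul, map_neg, map_mul, Polynomial.toLaurent_X_pow,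
    Polynomial.toLaurent_X_pow, Polynomial.toLaurent_X_pow]
  have h1 : T N * f = T N * g + T N * (dd * h) := by rw [hfg]; ring
  rw [hF, hG, dd_eq, hh] at h1
  have e1 : (T (s : ℤ) : ℤ[T;T⁻¹]) = T N * T m := by rw [← hs, ← T_add, add_comm]
  have e2 : (T (t : ℤ) : ℤ[T;T⁻¹]) = T N * T m' := by rw [← ht, ← T_add, add_comm]
  have e3 : (T (v : ℤ) : ℤ[T;T⁻¹]) = T N * T (-2) * T (-n) := by
    rw [← hv, ← T_add, ← T_add]; congr 1
  rw [e1, e2, e3]
  linear_combination h1

end Pool.Agent.R811.Abc
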