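import Pool.Agent.R811.Abc.Poly2
import Pool.Agent.R811.Abc.General

set_option autoImplicit false

/-!
The abc inequality for lists of pairs of Laurent polynomials.
-/

namespace Pool.Agent.R811.Abc

open Finset LaurentPolynomial Pool.Agent.H891R2.Jones Pool.Agent.H891R2.MT Pool.Agent.H891R2.RF
open Pool.Agent.H891R2.MT.T4b (SIn SIn_d)
open Polynomial (toLaurent)

open Classical in
/-- the difference of the largest and the smallest exponent -/
noncomputable def wd (f : ℤ[T;T⁻¹]) : ℕ :=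
  if h : f ≠ 0 then (norm_form f h).choose_spec.choose.natDegree else 0

theorem wd_spec {f : ℤ[T;T⁻¹]} (h : f ≠ 0) :
    ∃ (m : ℤ) (F : Polynomial ℤ), F.coeff 0 ≠ 0 ∧ f = T m * toLaurent F ∧ F.natDegree = wd f := by
  refine ⟨(norm_form f h).choose, (norm_form f h).choose_spec.choose,
    (norm_form f h).choose_spec.choose_spec.1, (norm_form f h).choose_spec.choose_spec.2, ?_⟩
  unfold wd
  rw [dif_pos h]

theorem wd_le {f : ℤ[T;T⁻¹]} (h : f ≠ 0) {lo hi : ℤ} (hs : SIn f lo hi) : (wd f : ℤ) ≤ hi - lo := by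
  obtain ⟨m, F, h1, h2, h3⟩ := wd_spec h
  rw [← h3]
  exact deg_le h1 h2 hs

theorem eq_of_wd {f : ℤ[T;T⁻¹]} (h : f ≠ 0) (h0 : wd f = 0) : ∃ c m : ℤ, f = C c * T m := by
  obtain ⟨m, F, h1, h2, h3⟩ := wd_spec h
  rw [h0] at h3
  refine ⟨F.coeff 0, m, ?_⟩
  have h4 := Polynomial.eq_C_of_natDegree_eq_zero h3
  conv_lhs => rw [h2, h4]
  rw [Polynomial.toLaurent_C, mul_comm]

variable {r : ℕ}

theorem prod_norm (k : Fin r → ℕ) (m : Fin r → ℤ) (F : Fin r → Polynomial ℤ) :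
    ∏ i, (T (m i) * toLaurent (F i) : ℤ[T;T⁻¹]) ^ k i =
    T (∑ i, k i * m i) * toLaurent (∏ i, F i ^ k i) := by
  rw [map_prod]
  have h1 : ∀ i, (T (m i) * toLaurent (F i) : ℤ[T;T⁻¹]) ^ k i =
      T (k i * m i) * toLaurent (F i ^ k i) := by
    intro i
    rw [mul_pow, T_pow, map_pow]
  rw [Finset.prod_congr rfl fun i _ => h1 i, Finset.prod_mul_distrib]
  congr 1
  have : ∀ s : Finset (Fin r), ∏ i ∈ s, (T (k i * m i) : ℤ[T;T⁻¹]) = T (∑ i ∈ s, k i * m i) := by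
    intro s
    induction s using Finset.induction_on with
    | empty => simp
    | insert a s ha ih => rw [Finset.prod_insert ha, Finset.sum_insert ha, ih, T_add]
  exact this _

/-- the Mason-Stothers inequality for Laurent polynomials -/
theorem laur_core2 (x α : Fin r → ℤ[T;T⁻¹]) (hx0 : ∀ i, x i ≠ 0) (hα0 : ∀ i, α i ≠ 0)
    (k : Fin r → ℕ) (X Y : ℤ[T;T⁻¹]) (hX : X ≠ 0) (hY : Y ≠ 0) (ε j : ℤ) (hε : ε ≠ 0)
    (h : (∏ i, x i ^ k i) * X + (∏ i, α i ^ k i) * Y = C ε * T j * dd) :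
    ∑ i, k i * wd (x i) ≤ ∑ i, wd (x i) + ∑ i, wd (α i) + wd Y + 4 ∧
    ∑ i, k i * wd (α i) ≤ ∑ i, wd (x i) + ∑ i, wd (α i) + wd X + 4 := by
  classical
  choose mx F hF0 hF hFd using fun i => wd_spec (hx0 i)
  choose ma G hG0 hG hGd using fun i => wd_spec (hα0 i)
  obtain ⟨mX, U, hU0, hU, hUd⟩ := wd_spec hX
  obtain ⟨mY, V, hV0, hV, hVd⟩ := wd_spec hY
  have hPx : ∏ i, x i ^ k i = T (∑ i, k i * mx i) * toLaurent (∏ i, F i ^ k i) := by
    rw [← prod_norm]
    exact Finset.prod_congr rfl fun i _ => by rw [hF i]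
  have hPa : ∏ i, α i ^ k i = T (∑ i, k i * ma i) * toLaurent (∏ i, G i ^ k i) := by
    rw [← prod_norm]
    exact Finset.prod_congr rfl fun i _ => by rw [hG i]
  obtain ⟨E1, hE1⟩ : ∃ E : ℤ, E = ∑ i, k i * mx i + mX := ⟨_, rfl⟩
  obtain ⟨E2, hE2⟩ : ∃ E : ℤ, E = ∑ i, k i * ma i + mY := ⟨_, rfl⟩
  obtain ⟨E3, hE3⟩ : ∃ E : ℤ, E = j - 2 := ⟨_, rfl⟩
  have heq : (T E1 : ℤ[T;T⁻¹]) * toLaurent ((∏ i, F i ^ k i) * U) +
      T E2 * toLaurent ((∏ i, G i ^ k i) * V) +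
      T E3 * toLaurent (Polynomial.C ε * (Polynomial.X ^ 4 + 1)) = 0 := by
    rw [hPx, hPa, hU, hV, dd_eq] at h
    rw [hE1, hE2, hE3, T_add, T_add, sub_eq_add_neg j 2, T_add, map_mul, map_mul, map_mul,
      Polynomial.toLaurent_C]
    linear_combination h
  obtain ⟨M, hM1, hM2, hM3, hM⟩ : ∃ M : ℤ, M ≤ E1 ∧ M ≤ E2 ∧ M ≤ E3 ∧
      (M = E1 ∨ M = E2 ∨ M = E3) := by
    refine ⟨min E1 (min E2 E3), min_le_left _ _, (min_le_right _ _).trans (min_le_left _ _),
      (min_le_right _ _).trans (min_le_right _ _), ?_⟩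
    rcases le_total E1 (min E2 E3) with h1 | h1
    · exact Or.inl (min_eq_left h1)
    · rw [min_eq_right h1]
      rcases le_total E2 E3 with h2 | h2
      · exact Or.inr (Or.inl (min_eq_left h2))
      · exact Or.inr (Or.inr (min_eq_right h2))
  obtain ⟨e1, he1⟩ := Int.eq_ofNat_of_zero_le (by omega : 0 ≤ E1 - M)
  obtain ⟨e2, he2⟩ := Int.eq_ofNat_of_zero_le (by omega : 0 ≤ E2 - M)
  obtain ⟨e3, he3⟩ := Int.eq_ofNat_of_zero_le (by omega : 0 ≤ E3 - M)
  have he : e1 = 0 ∨ e2 = 0 ∨ e3 = 0 := by omega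
  have hpoly : Polynomial.X ^ e1 * (∏ i, F i ^ k i) * U + Polynomial.X ^ e2 * (∏ i, G i ^ k i) * V +
      Polynomial.C ε * Polynomial.X ^ e3 * (Polynomial.X ^ 4 + 1) = 0 := by
    apply Polynomial.toLaurent_injective
    have e1' : (T (e1 : ℤ) : ℤ[T;T⁻¹]) = T (-M) * T E1 := by rw [← he1, ← T_add]; congr 1; ring
    have e2' : (T (e2 : ℤ) : ℤ[T;T⁻¹]) = T (-M) * T E2 := by rw [← he2, ← T_add]; congr 1; ring
    have e3' : (T (e3 : ℤ) : ℤ[T;T⁻¹]) = T (-M) * T E3 := by rw [← he3, ← T_add]; congr 1; ring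
    simp only [map_add, map_mul, map_zero, Polynomial.toLaurent_X_pow, Polynomial.toLaurent_C,
      map_one] at heq ⊢
    rw [e1', e2', e3']
    linear_combination (T (-M) : ℤ[T;T⁻¹]) * heq
  -- over the rational numbers
  let φ := Int.castRingHom ℚ
  have hφ : Function.Injective φ := Int.cast_injective
  have hpolyQ := congrArg (Polynomial.map φ) hpoly
  simp only [Polynomial.map_add, Polynomial.map_mul, Polynomial.map_pow, Polynomial.map_X,
    Polynomial.map_C, Polynomial.map_one, Polynomial.map_zero, Polynomial.map_prod] at hpolyQ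
  have hc0 : ∀ P : Polynomial ℤ, P.coeff 0 ≠ 0 → (P.map φ).coeff 0 ≠ 0 := by
    intro P hP
    rw [Polynomial.coeff_map]
    intro h0
    apply hP
    have : φ (P.coeff 0) = φ 0 := by rw [h0, map_zero]
    exact hφ this
  have main := poly_core2 (fun i => (F i).map φ) (fun i => (G i).map φ) k
    (fun i => hc0 _ (hF0 i)) (fun i => hc0 _ (hG0 i)) (U.map φ) (V.map φ) (hc0 _ hU0)
    (hc0 _ hV0) e1 e2 e3 he (φ ε) (by
      intro h0
      apply hε
      have : φ ε = φ 0 := by rw [h0, map_zero]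
      exact hφ this) hpolyQ
  simp only [Polynomial.natDegree_map_eq_of_injective hφ, hFd, hGd, hUd, hVd] at main
  exact main

theorem list_core {β : Type} [DecidableEq β] (f g : β → ℤ[T;T⁻¹]) (L : List β)
    (h0 : ∀ z ∈ L, f z ≠ 0 ∧ g z ≠ 0) (S : Finset β) (hS : ∀ z ∈ L, z ∈ S)
    (X Y : ℤ[T;T⁻¹]) (hX : X ≠ 0) (hY : Y ≠ 0) (ε j : ℤ) (hε : ε ≠ 0)
    (h : (L.map f).prod * X + (L.map g).prod * Y = C ε * T j * dd) :
    (L.map fun z => wd (f z) + wd (g z)).sum ≤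
      2 * ∑ z ∈ S, (wd (f z) + wd (g z)) + wd X + wd Y + 8 := by
  have hmem : ∀ i : Fin L.toFinset.card, (L.toFinset.equivFin.symm i).1 ∈ L := fun i =>
    List.mem_toFinset.1 (L.toFinset.equivFin.symm i).2
  have key : ∀ (g : β → ℤ[T;T⁻¹]),
      ∏ i : Fin L.toFinset.card, g (L.toFinset.equivFin.symm i).1 = ∏ z ∈ L.toFinset, g z := by
    intro g
    rw [← Finset.prod_coe_sort L.toFinset g]
    exact Equiv.prod_comp L.toFinset.equivFin.symm (fun z : L.toFinset => g z.1)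
  have keyS : ∀ (g : β → ℕ),
      ∑ i : Fin L.toFinset.card, g (L.toFinset.equivFin.symm i).1 = ∑ z ∈ L.toFinset, g z := by
    intro g
    rw [← Finset.sum_coe_sort L.toFinset g]
    exact Equiv.sum_comp L.toFinset.equivFin.symm (fun z : L.toFinset => g z.1)
  have hm := laur_core2 (fun i => f (L.toFinset.equivFin.symm i).1)
    (fun i => g (L.toFinset.equivFin.symm i).1) (fun i => (h0 _ (hmem i)).1)
    (fun i => (h0 _ (hmem i)).2) (fun i => L.count (L.toFinset.equivFin.symm i).1) X Y hX hY ε j hε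
    (by
      rw [key (fun z => f z ^ L.count z), key (fun z => g z ^ L.count z),
        ← Finset.prod_list_map_count, ← Finset.prod_list_map_count]
      exact h)
  obtain ⟨h1, h2⟩ := hm
  rw [keyS (fun z => L.count z * wd (f z)), keyS (fun z => wd (f z)), keyS (fun z => wd (g z))] at h1
  rw [keyS (fun z => L.count z * wd (g z)), keyS (fun z => wd (f z)), keyS (fun z => wd (g z))] at h2
  have h3 : (L.map fun z => wd (f z) + wd (g z)).sum = ∑ z ∈ L.toFinset, L.count z * wd (f z) +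
      ∑ z ∈ L.toFinset, L.count z * wd (g z) := by
    rw [Finset.sum_list_map_count, ← Finset.sum_add_distrib]
    refine Finset.sum_congr rfl fun z _ => ?_
    rw [smul_eq_mul, mul_add]
  have h4 : ∑ z ∈ L.toFinset, (wd (f z) + wd (g z)) =
      ∑ z ∈ L.toFinset, wd (f z) + ∑ z ∈ L.toFinset, wd (g z) := Finset.sum_add_distrib
  have h5 : ∑ z ∈ L.toFinset, (wd (f z) + wd (g z)) ≤ ∑ z ∈ S, (wd (f z) + wd (g z)) :=
    Finset.sum_le_sum_of_subset (fun z hz => hS z (List.mem_toFinset.1 hz))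
  rw [h3]
  omega

end Pool.Agent.R811.Abc
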