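import Pool.Agent.R811.Abc.Bdd

set_option autoImplicit false

/-!
Rings of tangles of bounded size.
-/

namespace Pool.Agent.R811.Abc

open Finset LaurentPolynomial Pool.Agent.H891R2.Jones Pool.Agent.H891R2.MT Pool.Agent.H891R2.RF
open Pool.Agent.H891R2.MT.T4b (SIn SIn_d)

theorem C_ne {e : ℤ} (he : e = 1 ∨ e = -1) : (C e : ℤ[T;T⁻¹]) ≠ 0 := by
  intro h0
  have := congrArg (fun f : ℤ[T;T⁻¹] => f.coeff 0) h0
  rw [show (C e : ℤ[T;T⁻¹]) = C e * T 0 by rw [T_zero, mul_one]] at this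
  simp only [coeffC, T_apply] at this
  norm_num at this
  omega

theorem CT_ne {e : ℤ} (he : e = 1 ∨ e = -1) (m : ℤ) : (C e * T m : ℤ[T;T⁻¹]) ≠ 0 :=
  mul_ne_zero (C_ne he) (T_ne _)

/-- the constants are `± 1` -/
theorem units2 {x α β : ℤ[T;T⁻¹]} (hx : x = α + dd * β) (A B : ℤ[T;T⁻¹]) (ε j : ℤ)
    (hε : ε = 1 ∨ ε = -1) (h : x * A + α * B = C ε * T j * dd)
    {c c' m m' : ℤ} (h1 : x = C c * T m) (h2 : α = C c' * T m') (_hα : α ≠ 0) :
    (c' = 1 ∨ c' = -1) ∧ ∃ q : ℤ, m' - m = 4 * q ∧ c = c' * (-1) ^ q.natAbs := by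
  have he : (c : ℂ) * zt ^ m = c' * zt ^ m' := by
    have := congrArg ez hx
    rw [h1, h2, map_add, map_mul, map_mul, map_mul, ez_dd, zero_mul, add_zero, ez_C, ez_C,
      ez_T, ez_T] at this
    exact this
  have habs : |c| = |c'| := by
    have h3 := congrArg (fun z : ℂ => ‖z‖) he
    have h4 : ∀ k : ℤ, ‖zt ^ k‖ = 1 := by
      intro k
      rw [norm_zpow, zt_prim.norm'_eq_one (by norm_num), one_zpow]
    simp only [norm_mul, h4, mul_one, Complex.norm_intCast] at h3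
    exact_mod_cast h3
  have hc' : c' = 1 ∨ c' = -1 := by
    by_contra hne
    have h3 : c'.natAbs ≠ 1 := by omega
    obtain ⟨p, hp, hpc'⟩ := Nat.exists_prime_and_dvd h3
    have hpc'' : (p : ℤ) ∣ c' := Int.natCast_dvd.2 hpc'
    have hpc : (p : ℤ) ∣ c := by
      rw [← dvd_abs, habs, dvd_abs]
      exact hpc''
    have d1 : C (p : ℤ) ∣ x := by
      obtain ⟨z, hz⟩ := hpc
      rw [h1, hz, map_mul, mul_assoc]
      exact dvd_mul_right _ _
    have d2 : C (p : ℤ) ∣ α := by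
      obtain ⟨z, hz⟩ := hpc''
      rw [h2, hz, map_mul, mul_assoc]
      exact dvd_mul_right _ _
    have d3 : C (p : ℤ) ∣ C ε * T j * dd := by
      rw [← h]
      exact dvd_add (dvd_mul_of_dvd_left d1 _) (dvd_mul_of_dvd_left d2 _)
    have d4 : C (p : ℤ) ∣ dd := by
      have e1 : dd = C ε * T (-j) * (C ε * T j * dd) := by
        have e2 : (C ε * C ε : ℤ[T;T⁻¹]) = 1 := by
          rw [← map_mul]
          rcases hε with h | h <;> rw [h] <;> simp
        have e3 : (T (-j) * T j : ℤ[T;T⁻¹]) = 1 := by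
          rw [← T_add, neg_add_cancel, T_zero]
        calc dd = (C ε * C ε) * (T (-j) * T j) * dd := by rw [e2, e3]; ring
          _ = _ := by ring
      rw [e1]
      exact dvd_mul_of_dvd_right d3 _
    obtain ⟨z, hz⟩ := d4
    have h5 := congrArg (fun f : ℤ[T;T⁻¹] => f.coeff 2) hz
    have h6 : dd.coeff 2 = -1 := by
      unfold dd
      rw [sub_eq_add_neg, AddMonoidAlgebra.coeff_add, Finsupp.add_apply,
        AddMonoidAlgebra.coeff_neg, AddMonoidAlgebra.coeff_neg, Finsupp.neg_apply,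
        Finsupp.neg_apply, T_apply, T_apply]
      norm_num
    change dd.coeff 2 = (C (p : ℤ) * z).coeff 2 at h5
    rw [h6, coeffC] at h5
    have h8 : (p : ℤ) ∣ 1 := ⟨-z.coeff 2, by linarith⟩
    have h9 : p ∣ 1 := by exact_mod_cast h8
    exact hp.one_lt.ne' (Nat.dvd_one.1 h9)
  refine ⟨hc', ?_⟩
  have hcc : c = c' ∨ c = -c' := abs_eq_abs.1 habs
  have hc'C : (c' : ℂ) ≠ 0 := by
    rcases hc' with h | h <;> rw [h] <;> norm_num
  have hz : zt ^ (m' - m) = 1 ∨ zt ^ (m' - m) = -1 := by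
    rw [zpow_sub₀ zt_ne]
    have h3 : zt ^ m ≠ 0 := zpow_ne_zero _ zt_ne
    rcases hcc with h4 | h4
    · left
      rw [h4] at he
      have := mul_left_cancel₀ hc'C he
      rw [← this, div_self h3]
    · right
      rw [h4] at he
      push_cast at he
      have : zt ^ m' = - zt ^ m := by
        apply mul_left_cancel₀ hc'C
        linear_combination -he
      rw [this, neg_div, div_self h3]
  obtain ⟨q, hq⟩ := zt_pow hz
  refine ⟨q, hq, ?_⟩
  have h3 : zt ^ m' = zt ^ m * (-1) ^ q := by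
    rw [← zt_4q, ← zpow_add₀ zt_ne]
    congr 1
    omega
  rw [h3] at he
  have h4 : zt ^ m ≠ 0 := zpow_ne_zero _ zt_ne
  have h5 : (c : ℂ) = c' * (-1) ^ q := by
    apply mul_right_cancel₀ h4
    rw [he]
    ring
  have h6 : ((-1 : ℂ)) ^ q = (-1) ^ q.natAbs := by
    rcases Int.natAbs_eq q with h7 | h7
    · conv_lhs => rw [h7]
      rw [zpow_natCast]
    · conv_lhs => rw [h7]
      rw [zpow_neg, zpow_natCast, ← inv_pow]
      norm_num
  rw [h6] at h5
  exact_mod_cast h5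

/-- the two blocks cannot be far apart -/
theorem blocks {Z1 Z2 : ℤ[T;T⁻¹]} (h1 : Z1 ≠ 0) (h2 : Z2 ≠ 0) {m Q M j e e' ε : ℤ}
    (hs1 : SIn Z1 (-m) m) (hs2 : SIn Z2 (-m) m) (he : e = 1 ∨ e = -1) (he' : e' = 1 ∨ e' = -1)
    (h : C e' * T (M - 4 * Q) * Z1 + C e * T M * Z2 = C ε * T j * dd) : |Q| ≤ m + 1 := by
  by_contra hne
  obtain ⟨i1, hi1⟩ := Pool.Agent.H891R2.SI.S6.exists_coeff h1
  obtain ⟨i2, hi2⟩ := Pool.Agent.H891R2.SI.S6.exists_coeff h2
  have hb1 := hs1 i1 hi1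
  have hb2 := hs2 i2 hi2
  have hl : ∀ (c n : ℤ) (f : ℤ[T;T⁻¹]) (i : ℤ), (C c * T n * f).coeff i = c * f.coeff (i - n) := by
    intro c n f i
    rw [mul_assoc, coeffC]
    have := Pool.Agent.H891R2.SI.S6.coeff_T_mul n f (i - n)
    rw [add_sub_cancel] at this
    rw [this]
  have hr : ∀ i, (C ε * T j * dd).coeff i ≠ 0 → i = j + 2 ∨ i = j - 2 := by
    intro i hi
    rw [hl] at hi
    unfold dd at hi
    rw [sub_eq_add_neg, coeffAdd, AddMonoidAlgebra.coeff_neg, AddMonoidAlgebra.coeff_neg,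
      Finsupp.neg_apply, Finsupp.neg_apply, T_apply, T_apply] at hi
    by_contra h3
    push Not at h3
    rw [if_neg (by omega), if_neg (by omega)] at hi
    simp at hi
  have hz1 : ∀ i, i < -m ∨ m < i → Z1.coeff i = 0 := by
    intro i hi
    by_contra h3
    have := hs1 i h3
    omega
  have hz2 : ∀ i, i < -m ∨ m < i → Z2.coeff i = 0 := by
    intro i hi
    by_contra h3
    have := hs2 i h3
    omega
  rw [not_le] at hne
  have hQ : Q < -(m + 1) ∨ m + 1 < Q := by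
    rcases lt_abs.1 hne with h3 | h3
    · right; exact h3
    · left; omega
  have k1 := hr (M - 4 * Q + i1) (by
    rw [← h, coeffAdd, hl, hl, hz2 (M - 4 * Q + i1 - M) (by omega), mul_zero, add_zero]
    have : M - 4 * Q + i1 - (M - 4 * Q) = i1 := by ring
    rw [this]
    exact mul_ne_zero (by omega) hi1)
  have k2 := hr (M + i2) (by
    rw [← h, coeffAdd, hl, hl, hz1 (M + i2 - (M - 4 * Q)) (by omega), mul_zero, zero_add]
    have : M + i2 - M = i2 := by ring
    rw [this]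
    exact mul_ne_zero (by omega) hi2)
  omega

theorem IsU.cancel {e m : ℤ} (he : e = 1 ∨ e = -1) {f : ℤ[T;T⁻¹]} (h : IsU (C e * T m * f)) :
    IsU f := IsU.of_dvd h (dvd_mul_left _ _)

/-- the exceptional cases -/
def Exc (W : Outer4) (l : List Outer4) : Prop :=
  (brV W = dd * brH W ∧ IsU (brH W) ∧ ∀ S ∈ l, IsU (brV S)) ∨
  (IsU (brV W) ∧ ∃ l₁ S₀ l₂, l = l₁ ++ S₀ :: l₂ ∧ JonesCut S₀ ∧ ∀ S ∈ l₁ ++ l₂, IsU (brV S))

theorem cut_of {S : Outer4} (hS : IsTangle S) (h0 : alpha S = 0) (hb : IsU (beta S)) :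
    JonesCut S := by
  obtain ⟨m, ε, hε, hm⟩ := hb
  refine ⟨m, ε, hε, fun W => ?_⟩
  have h5 : ((put W S).close false).std.bracket = brH (put W S) := rfl
  have h6 : (W.close true).std.bracket = brV W := rfl
  rw [h5, h6, brH_put W S hS, h0, hm, zero_mul, zero_add]

theorem exc_alpha (W : Outer4) (l : List Outer4) (hT : ∀ S ∈ l, IsTangle S)
    (h : IsU (brH (puts W l))) (h0 : ∃ S ∈ l, alpha S = 0) : Exc W l := by
  obtain ⟨S₀, hS₀, h0⟩ := h0
  obtain ⟨l₁, l₂, hl⟩ := List.append_of_mem hS₀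
  obtain ⟨h2, h3⟩ := ring_formula l hT W
  have h4 : (l.map alpha).prod = 0 := by
    rw [hl, List.map_append, List.prod_append, List.map_cons, List.prod_cons, h0]
    ring
  rw [h4, zero_mul] at h3
  have h5 : dd * brH (puts W l) = brV (puts W l) := sub_eq_zero.1 h3
  have hS : IsTangle S₀ := hT S₀ hS₀
  have h6 : brV S₀ = dd * beta S₀ := by
    rw [brV_self S₀ hS, h0, zero_add]
  have h7 : brH (puts W l) = beta S₀ * (((l₁ ++ l₂).map brV).prod * brV W) := by
    apply mul_left_cancel₀ dd_ne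
    rw [h5, h2, hl, List.map_append, List.prod_append, List.map_cons, List.prod_cons, h6,
      List.map_append, List.prod_append]
    ring
  rw [h7] at h
  right
  refine ⟨IsU.of_dvd h ?_, l₁, S₀, l₂, hl, cut_of hS h0 (IsU.factor h), ?_⟩
  · exact dvd_mul_of_dvd_right (dvd_mul_left _ _) _
  · intro S hS'
    refine IsU.of_dvd h (dvd_mul_of_dvd_right (dvd_mul_of_dvd_left ?_ _) _)
    exact List.dvd_prod (List.mem_map_of_mem hS')

theorem exc_yy (W : Outer4) (l : List Outer4) (hT : ∀ S ∈ l, IsTangle S)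
    (h : IsU (brH (puts W l))) (hy : yy W = 0) : Exc W l := by
  obtain ⟨h2, h3⟩ := ring_formula l hT W
  have h1 : brV W = dd * brH W := (sub_eq_zero.1 hy).symm
  rw [hy, mul_zero] at h3
  have h4 : dd * brH (puts W l) = brV (puts W l) := sub_eq_zero.1 h3
  have h5 : brH (puts W l) = (l.map brV).prod * brH W := by
    apply mul_left_cancel₀ dd_ne
    rw [h4, h2, h1]
    ring
  rw [h5] at h
  left
  refine ⟨h1, IsU.of_dvd h (dvd_mul_left _ _), fun S hS => IsU.of_dvd h ?_⟩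
  exact dvd_mul_of_dvd_left (List.dvd_prod (List.mem_map_of_mem hS)) _

/-- rings of tangles of bounded size -/
theorem small [∀ S : Outer4, Decidable (¬ IsRow S)] (s : ℕ) : ∃ N : ℕ, ∀ (W : Outer4) (l : List Outer4),
    size W ≤ s → (∀ S ∈ l, IsTangle S) → (∀ S ∈ l, IsRow S ∨ size S ≤ s) →
    IsU (brH (puts W l)) →
    ((l.countP (fun S => ¬ IsRow S) ≤ N ∧
      ∀ q : Outer4 → ℤ, (∀ S ∈ l, JonesRow (q S) S ∨ (¬ IsRow S ∧ q S = 0)) →
        |(l.map q).sum| ≤ N) ∨ Exc W l) := by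
  classical
  obtain ⟨Z, hZ⟩ : ∃ Z : Finset (ℤ[T;T⁻¹] × ℤ[T;T⁻¹]), ∀ S : Outer4, size S ≤ s →
      (brV S, alpha S) ∈ Z :=
    ⟨(fin_pairs s).toFinset, fun S hS => (fin_pairs s).mem_toFinset.2 ⟨S, hS, rfl⟩⟩
  obtain ⟨N1, hN1⟩ : ∃ N1 : ℕ, N1 = 2 * ∑ z ∈ Z, (wd z.1 + wd z.2) + 4 * s + 4 * s + 8 := ⟨_, rfl⟩
  refine ⟨N1 + 2 * s * (N1 + 1) + 1, fun W l hW hT hl h => ?_⟩
  by_cases hy : yy W = 0
  · exact Or.inr (exc_yy W l hT h hy)
  by_cases hα : ∃ S ∈ l, alpha S = 0
  · exact Or.inr (exc_alpha W l hT h hα)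
  push Not at hα
  left
  obtain ⟨ε, j, hε, he⟩ : ∃ ε j : ℤ, (ε = 1 ∨ ε = -1) ∧
      (l.map brV).prod * brV W + (l.map alpha).prod * yy W = C ε * T j * dd := by
    obtain ⟨j, ε, hε, hj⟩ := h
    refine ⟨ε, j, hε, ?_⟩
    obtain ⟨h1, h2⟩ := ring_formula l hT W
    rw [← h1, ← h2, ← hj]
    unfold yy
    ring
  have hX0 : brV W ≠ 0 := bracket_ne _
  -- everything for a given choice of the numbers of crossings of the rows
  have main : ∀ q : Outer4 → ℤ, (∀ S ∈ l, JonesRow (q S) S ∨ (¬ IsRow S ∧ q S = 0)) →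
      l.countP (fun S => ¬ IsRow S) ≤ N1 ∧ |(l.map q).sum| ≤ 2 * s * (N1 + 1) + 1 := by
    intro q hq
    obtain ⟨L, e, e', M, hee, hee', h1, h2, h3, h4⟩ := split_rows q l hT hq
    obtain ⟨Q, hQ⟩ : ∃ Q, Q = (l.map q).sum := ⟨_, rfl⟩
    rw [← hQ] at h3 ⊢
    have hLs : ∀ S ∈ L, size S ≤ s := fun S hS => (hl S (h1 S hS).1).resolve_left (h1 S hS).2
    have hLα : ∀ S ∈ L, alpha S ≠ 0 := fun S hS => hα S (h1 S hS).1
    have hLx : ∀ S ∈ L, brV S ≠ 0 := fun S _ => bracket_ne _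
    have heq : (L.map brV).prod * (C e' * T (M - 4 * Q) * brV W) +
        (L.map alpha).prod * (C e * T M * yy W) = C ε * T j * dd := by
      rw [← he, h3, h4]
      ring
    have hlen : L.length ≤ N1 := by
      have hc := list_core (β := ℤ[T;T⁻¹] × ℤ[T;T⁻¹]) Prod.fst Prod.snd
        (L.map fun S => (brV S, alpha S)) (by
          intro z hz
          obtain ⟨S, hS, rfl⟩ := List.mem_map.1 hz
          exact ⟨hLx S hS, hLα S hS⟩) Z (by
          intro z hz
          obtain ⟨S, hS, rfl⟩ := List.mem_map.1 hz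
          exact hZ S (hLs S hS)) _ _ (mul_ne_zero (CT_ne hee' _) hX0)
        (mul_ne_zero (CT_ne hee _) hy) ε j (by omega) (by
          rw [List.map_map, List.map_map]
          exact heq)
      have w1 : (wd (C e' * T (M - 4 * Q) * brV W) : ℤ) ≤ 4 * s := by
        have := wd_le (mul_ne_zero (CT_ne hee' (M - 4 * Q)) hX0)
          (((SIn.C e').mul (SIn.T (M - 4 * Q))).mul (SIn_brV hW))
        linarith
      have w2 : (wd (C e * T M * yy W) : ℤ) ≤ 4 * s := by
        have := wd_le (mul_ne_zero (CT_ne hee M) hy)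
          (((SIn.C e).mul (SIn.T M)).mul (SIn_yy hW))
        linarith
      rw [List.map_map] at hc
      have h5 : L.length ≤ (L.map ((fun z : ℤ[T;T⁻¹] × ℤ[T;T⁻¹] => wd z.1 + wd z.2) ∘
          fun S => (brV S, alpha S))).sum := by
        have h6 : ∀ n ∈ L.map ((fun z : ℤ[T;T⁻¹] × ℤ[T;T⁻¹] => wd z.1 + wd z.2) ∘
            fun S => (brV S, alpha S)), 1 ≤ n := by
          intro n hn
          obtain ⟨S, hS, rfl⟩ := List.mem_map.1 hn
          by_contra h7
          have h8 : wd (brV S) = 0 ∧ wd (alpha S) = 0 := by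
            simp only [Function.comp] at h7
            omega
          obtain ⟨c, m, hc1⟩ := eq_of_wd (hLx S hS) h8.1
          obtain ⟨c', m', hc2⟩ := eq_of_wd (hLα S hS) h8.2
          have hSl := (h1 S hS).1
          obtain ⟨A, hA⟩ := List.dvd_prod (List.mem_map_of_mem (f := brV) hSl)
          obtain ⟨B, hB⟩ := List.dvd_prod (List.mem_map_of_mem (f := alpha) hSl)
          obtain ⟨u1, q', u2, u3⟩ := units2 (brV_self S (hT S hSl)) (A * brV W) (B * yy W) ε j hε
            (by rw [← he, hA, hB]; ring) hc1 hc2 (hLα S hS)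
          exact (h1 S hS).2 ⟨q', row_of S (hT S hSl) hc1 hc2 u1 u2 u3⟩
        have h9 := List.card_nsmul_le_sum _ 1 h6
        simpa using h9
      omega
    refine ⟨by rw [← h2]; exact hlen, ?_⟩
    have s1 := SIn.list_prod (m := 2 * s) (L.map brV) (by
      intro f hf
      obtain ⟨S, hS, rfl⟩ := List.mem_map.1 hf
      exact SIn_brV (hLs S hS))
    have s2 := SIn.list_prod (m := 2 * s) (L.map alpha) (by
      intro f hf
      obtain ⟨S, hS, rfl⟩ := List.mem_map.1 hf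
      exact SIn_alpha (hLs S hS))
    rw [List.length_map] at s1 s2
    have hle : (L.length : ℤ) ≤ N1 := by exact_mod_cast hlen
    have hmul : (2 * s : ℤ) * L.length ≤ 2 * s * N1 :=
      mul_le_mul_of_nonneg_left hle (by positivity)
    have t1 : SIn ((L.map brV).prod * brV W) (-(2 * s * (N1 + 1))) (2 * s * (N1 + 1)) :=
      (s1.mul (SIn_brV hW)).mono (by linarith) (by linarith)
    have t2 : SIn ((L.map alpha).prod * yy W) (-(2 * s * (N1 + 1))) (2 * s * (N1 + 1)) :=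
      (s2.mul (SIn_yy hW)).mono (by linarith) (by linarith)
    refine blocks (Z1 := (L.map brV).prod * brV W) (Z2 := (L.map alpha).prod * yy W) ?_ ?_ t1 t2
      hee hee' (M := M) (j := j) (ε := ε) ?_
    · refine mul_ne_zero (List.prod_ne_zero ?_) hX0
      intro h0
      obtain ⟨S, hS, h0⟩ := List.mem_map.1 h0
      exact hLx S hS h0
    · refine mul_ne_zero (List.prod_ne_zero ?_) hy
      intro h0
      obtain ⟨S, hS, h0⟩ := List.mem_map.1 h0
      exact hLα S hS h0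
    · rw [← heq]
      ring
  constructor
  · have h1 : ∃ q : Outer4 → ℤ, ∀ S ∈ l, JonesRow (q S) S ∨ (¬ IsRow S ∧ q S = 0) := by
      refine ⟨fun S => if h : IsRow S then h.choose else 0, fun S _ => ?_⟩
      by_cases h : IsRow S
      · left
        simp only [dif_pos h]
        exact h.choose_spec
      · right
        exact ⟨h, dif_neg h⟩
    obtain ⟨q, hq⟩ := h1
    have := (main q hq).1
    omega
  · intro q hq
    have := (main q hq).2
    push_cast
    linarith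

end Pool.Agent.R811.Abc
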