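import Pool.Agent.R811.Abc.Poly3
import Pool.Agent.R811.Abc.Small

set_option autoImplicit false

/-!
The abc inequality for lists of pairs of Laurent polynomials, arbitrary right hand side.
-/

namespace Pool.Agent.R811.Abc

open Finset LaurentPolynomial Pool.Agent.H891R2.Jones Pool.Agent.H891R2.MT Pool.Agent.H891R2.RF
open Pool.Agent.H891R2.MT.T4b (SIn SIn_d)
open Polynomial (toLaurent)

variable {r : ℕ}

/-- the Mason-Stothers inequality for Laurent polynomials -/
theorem laur_core3 (x α : Fin r → ℤ[T;T⁻¹]) (hx0 : ∀ i, x i ≠ 0) (hα0 : ∀ i, α i ≠ 0)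
    (k : Fin r → ℕ) (X Y Z : ℤ[T;T⁻¹]) (hX : X ≠ 0) (hY : Y ≠ 0) (hZ : Z ≠ 0)
    (h : (∏ i, x i ^ k i) * X + (∏ i, α i ^ k i) * Y = Z) :
    ∑ i, k i * wd (x i) ≤ ∑ i, wd (x i) + ∑ i, wd (α i) + wd Y + wd Z ∧
    ∑ i, k i * wd (α i) ≤ ∑ i, wd (x i) + ∑ i, wd (α i) + wd X + wd Z := by
  classical
  choose mx F hF0 hF hFd using fun i => wd_spec (hx0 i)
  choose ma G hG0 hG hGd using fun i => wd_spec (hα0 i)
  obtain ⟨mX, U, hU0, hU, hUd⟩ := wd_spec hX
  obtain ⟨mY, V, hV0, hV, hVd⟩ := wd_spec hY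
  obtain ⟨mZ, R, hR0, hR, hRd⟩ := wd_spec hZ
  have hPx : ∏ i, x i ^ k i = T (∑ i, k i * mx i) * toLaurent (∏ i, F i ^ k i) := by
    rw [← prod_norm]
    exact Finset.prod_congr rfl fun i _ => by rw [hF i]
  have hPa : ∏ i, α i ^ k i = T (∑ i, k i * ma i) * toLaurent (∏ i, G i ^ k i) := by
    rw [← prod_norm]
    exact Finset.prod_congr rfl fun i _ => by rw [hG i]
  obtain ⟨E1, hE1⟩ : ∃ E : ℤ, E = ∑ i, k i * mx i + mX := ⟨_, rfl⟩
  obtain ⟨E2, hE2⟩ : ∃ E : ℤ, E = ∑ i, k i * ma i + mY := ⟨_, rfl⟩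
  have heq : (T E1 : ℤ[T;T⁻¹]) * toLaurent ((∏ i, F i ^ k i) * U) +
      T E2 * toLaurent ((∏ i, G i ^ k i) * V) + T mZ * toLaurent (-R) = 0 := by
    rw [hPx, hPa, hU, hV, hR] at h
    rw [hE1, hE2, T_add, T_add, map_mul, map_mul, map_neg]
    linear_combination h
  obtain ⟨M, hM1, hM2, hM3, hM⟩ : ∃ M : ℤ, M ≤ E1 ∧ M ≤ E2 ∧ M ≤ mZ ∧
      (M = E1 ∨ M = E2 ∨ M = mZ) := by
    refine ⟨min E1 (min E2 mZ), min_le_left _ _, (min_le_right _ _).trans (min_le_left _ _),
      (min_le_right _ _).trans (min_le_right _ _), ?_⟩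
    rcases le_total E1 (min E2 mZ) with h1 | h1
    · exact Or.inl (min_eq_left h1)
    · rw [min_eq_right h1]
      rcases le_total E2 mZ with h2 | h2
      · exact Or.inr (Or.inl (min_eq_left h2))
      · exact Or.inr (Or.inr (min_eq_right h2))
  obtain ⟨e1, he1⟩ := Int.eq_ofNat_of_zero_le (by omega : 0 ≤ E1 - M)
  obtain ⟨e2, he2⟩ := Int.eq_ofNat_of_zero_le (by omega : 0 ≤ E2 - M)
  obtain ⟨e3, he3⟩ := Int.eq_ofNat_of_zero_le (by omega : 0 ≤ mZ - M)
  have he : e1 = 0 ∨ e2 = 0 ∨ e3 = 0 := by omega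
  have hpoly : Polynomial.X ^ e1 * (∏ i, F i ^ k i) * U + Polynomial.X ^ e2 * (∏ i, G i ^ k i) * V +
      Polynomial.X ^ e3 * (-R) = 0 := by
    apply Polynomial.toLaurent_injective
    have e1' : (T (e1 : ℤ) : ℤ[T;T⁻¹]) = T (-M) * T E1 := by rw [← he1, ← T_add]; congr 1; ring
    have e2' : (T (e2 : ℤ) : ℤ[T;T⁻¹]) = T (-M) * T E2 := by rw [← he2, ← T_add]; congr 1; ring
    have e3' : (T (e3 : ℤ) : ℤ[T;T⁻¹]) = T (-M) * T mZ := by rw [← he3, ← T_add]; congr 1; ring
    simp only [map_add, map_mul, map_zero, Polynomial.toLaurent_X_pow, map_neg] at heq ⊢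
    rw [e1', e2', e3']
    linear_combination (T (-M) : ℤ[T;T⁻¹]) * heq
  -- over the rational numbers
  let φ := Int.castRingHom ℚ
  have hφ : Function.Injective φ := Int.cast_injective
  have hpolyQ := congrArg (Polynomial.map φ) hpoly
  simp only [Polynomial.map_add, Polynomial.map_mul, Polynomial.map_pow, Polynomial.map_X,
    Polynomial.map_zero, Polynomial.map_prod] at hpolyQ
  have hc0 : ∀ P : Polynomial ℤ, P.coeff 0 ≠ 0 → (P.map φ).coeff 0 ≠ 0 := by
    intro P hP
    rw [Polynomial.coeff_map]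
    intro h0
    apply hP
    have : φ (P.coeff 0) = φ 0 := by rw [h0, map_zero]
    exact hφ this
  have main := poly_core3 (fun i => (F i).map φ) (fun i => (G i).map φ) k
    (fun i => hc0 _ (hF0 i)) (fun i => hc0 _ (hG0 i)) (U.map φ) (V.map φ) ((-R).map φ) (hc0 _ hU0)
    (hc0 _ hV0) (hc0 _ (by rw [Polynomial.coeff_neg]; exact neg_ne_zero.2 hR0)) e1 e2 e3 he hpolyQ
  simp only [Polynomial.natDegree_map_eq_of_injective hφ, Polynomial.natDegree_neg, hFd, hGd, hUd,
    hVd, hRd] at main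
  exact main

theorem list_core3 {β : Type} [DecidableEq β] (f g : β → ℤ[T;T⁻¹]) (L : List β)
    (h0 : ∀ z ∈ L, f z ≠ 0 ∧ g z ≠ 0) (S : Finset β) (hS : ∀ z ∈ L, z ∈ S)
    (X Y Z : ℤ[T;T⁻¹]) (hX : X ≠ 0) (hY : Y ≠ 0) (hZ : Z ≠ 0)
    (h : (L.map f).prod * X + (L.map g).prod * Y = Z) :
    (L.map fun z => wd (f z) + wd (g z)).sum ≤
      2 * ∑ z ∈ S, (wd (f z) + wd (g z)) + wd X + wd Y + 2 * wd Z := by
  have hmem : ∀ i : Fin L.toFinset.card, (L.toFinset.equivFin.symm i).1 ∈ L := fun i =>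
    List.mem_toFinset.1 (L.toFinset.equivFin.symm i).2
  have key : ∀ (g : β → ℤ[T;T⁻¹]),
      ∏ i : Fin L.toFinset.card, g (L.toFinset.equivFin.symm i).1 = ∏ z ∈ L.toFinset, g z := by
    intro g
    rw [← Finset.prod_coe_sort L.toFinset g]
    exact Equiv.prod_comp L.toFinset.equivFin.symm (fun z : L.toFinset => g z.1)
  have keyS : ∀ (g : β → ℕ),
      ∑ i : Fin L.toFinset.card, g (L.toFinset.equivFin.symm i).1 = ∑ z ∈ L.toFinset, g z := by
    intro g
    rw [← Finset.sum_coe_sort L.toFinset g]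
    exact Equiv.sum_comp L.toFinset.equivFin.symm (fun z : L.toFinset => g z.1)
  have hm := laur_core3 (fun i => f (L.toFinset.equivFin.symm i).1)
    (fun i => g (L.toFinset.equivFin.symm i).1) (fun i => (h0 _ (hmem i)).1)
    (fun i => (h0 _ (hmem i)).2) (fun i => L.count (L.toFinset.equivFin.symm i).1) X Y Z hX hY hZ
    (by
      rw [key (fun z => f z ^ L.count z), key (fun z => g z ^ L.count z),
        ← Finset.prod_list_map_count, ← Finset.prod_list_map_count]
      exact h)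
  obtain ⟨h1, h2⟩ := hm
  rw [keyS (fun z => L.count z * wd (f z)), keyS (fun z => wd (f z)), keyS (fun z => wd (g z))] at h1
  rw [keyS (fun z => L.count z * wd (g z)), keyS (fun z => wd (f z)), keyS (fun z => wd (g z))] at h2
  have h3 : (L.map fun z => wd (f z) + wd (g z)).sum = ∑ z ∈ L.toFinset, L.count z * wd (f z) +
      ∑ z ∈ L.toFinset, L.count z * wd (g z) := by
    rw [Finset.sum_list_map_count, ← Finset.sum_add_distrib]
    refine Finset.sum_congr rfl fun z _ => ?_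
    rw [smul_eq_mul, mul_add]
  have h4 : ∑ z ∈ L.toFinset, (wd (f z) + wd (g z)) =
      ∑ z ∈ L.toFinset, wd (f z) + ∑ z ∈ L.toFinset, wd (g z) := Finset.sum_add_distrib
  have h5 : ∑ z ∈ L.toFinset, (wd (f z) + wd (g z)) ≤ ∑ z ∈ S, (wd (f z) + wd (g z)) :=
    Finset.sum_le_sum_of_subset (fun z hz => hS z (List.mem_toFinset.1 hz))
  rw [h3]
  omega

/-! ### widths of products -/

theorem wd_eq {f : ℤ[T;T⁻¹]} {m : ℤ} {F : Polynomial ℤ} (hF : F.coeff 0 ≠ 0)
    (h : f = T m * toLaurent F) : wd f = F.natDegree := by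
  have hf : f ≠ 0 := by
    rw [h]
    refine mul_ne_zero (T_ne _) ?_
    rw [Polynomial.toLaurent_ne_zero]
    exact fun h0 => hF (by rw [h0]; simp)
  obtain ⟨m', G, hG0, hG, hGd⟩ := wd_spec hf
  have h1 : SIn f m (m + F.natDegree) := by
    intro j hj
    rw [h] at hj
    have h2 := Pool.Agent.H891R2.SI.S6.coeff_T_mul m (toLaurent F) (j - m)
    rw [add_sub_cancel] at h2
    rw [h2] at hj
    have h3 : 0 ≤ j - m := by
      by_contra h3
      apply hj
      rw [coeff_toLaurent]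
      refine Finsupp.mapDomain_of_notMem_range _ _ ?_
      rintro ⟨n, hn⟩
      simp at hn
      omega
    obtain ⟨n, hn⟩ := Int.eq_ofNat_of_zero_le h3
    rw [hn, coeff_toL] at hj
    have h4 := Polynomial.le_natDegree_of_ne_zero hj
    omega
  have h2 := wd_le hf h1
  have h3 : SIn f m' (m' + G.natDegree) := by
    intro j hj
    rw [hG] at hj
    have h2 := Pool.Agent.H891R2.SI.S6.coeff_T_mul m' (toLaurent G) (j - m')
    rw [add_sub_cancel] at h2
    rw [h2] at hj
    have h3 : 0 ≤ j - m' := by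
      by_contra h3
      apply hj
      rw [coeff_toLaurent]
      refine Finsupp.mapDomain_of_notMem_range _ _ ?_
      rintro ⟨n, hn⟩
      simp at hn
      omega
    obtain ⟨n, hn⟩ := Int.eq_ofNat_of_zero_le h3
    rw [hn, coeff_toL] at hj
    have h4 := Polynomial.le_natDegree_of_ne_zero hj
    omega
  have h4 := deg_le hF h h3
  omega

theorem wd_mul {f g : ℤ[T;T⁻¹]} (hf : f ≠ 0) (hg : g ≠ 0) : wd (f * g) = wd f + wd g := by
  obtain ⟨m, F, hF0, hF, hFd⟩ := wd_spec hf
  obtain ⟨m', G, hG0, hG, hGd⟩ := wd_spec hg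
  have h1 : f * g = T (m + m') * toLaurent (F * G) := by
    rw [map_mul, T_add, hF, hG]; ring
  rw [wd_eq (by rw [Polynomial.mul_coeff_zero]; exact mul_ne_zero hF0 hG0) h1,
    Polynomial.natDegree_mul (fun h0 => hF0 (by rw [h0]; simp)) (fun h0 => hG0 (by rw [h0]; simp)),
    hFd, hGd]

theorem wd_CT {e : ℤ} (he : e ≠ 0) (m : ℤ) : wd (C e * T m : ℤ[T;T⁻¹]) = 0 := by
  rw [wd_eq (F := Polynomial.C e) (m := m) (by simpa using he)
    (by rw [Polynomial.toLaurent_C, mul_comm]), Polynomial.natDegree_C]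

theorem wd_dd : wd dd = 4 := by
  have h1 : dd = T (-2) * toLaurent (-(Polynomial.X ^ 4 + 1)) := by
    rw [dd_eq, map_neg]; ring
  rw [wd_eq (by simp) h1, Polynomial.natDegree_neg]
  exact Polynomial.natDegree_X_pow_add_C (n := 4) (r := (1 : ℤ))

theorem wd_list (L : List ℤ[T;T⁻¹]) (h : ∀ f ∈ L, f ≠ 0) : wd L.prod = (L.map wd).sum := by
  induction L with
  | nil =>
    have := wd_CT (e := 1) one_ne_zero 0
    simpa using this
  | cons f L ih =>
    rw [List.prod_cons, List.map_cons, List.sum_cons, wd_mul (h f List.mem_cons_self) ?_,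
      ih fun g hg => h g (List.mem_cons_of_mem _ hg)]
    exact List.prod_ne_zero fun h0 => h 0 (List.mem_cons_of_mem _ h0) rfl

/-! ### no integer divides a bracket -/

theorem ew_int (z : ℤ[T;T⁻¹]) : ∃ a b : ℤ, ew z = a + b * wt := by
  induction z using LaurentPolynomial.induction_on' with
  | add p q hp hq =>
    obtain ⟨a, b, h⟩ := hp
    obtain ⟨a', b', h'⟩ := hq
    refine ⟨a + a', b + b', ?_⟩
    rw [map_add, h, h']
    push_cast
    ring
  | C_mul_T n c =>
    have h3 : wt ^ (3 : ℤ) = 1 := by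
      have := wt_prim.pow_eq_one
      exact_mod_cast this
    obtain ⟨q, hq⟩ : ∃ q, n = 3 * q + n % 3 := ⟨n / 3, by omega⟩
    have h1 : wt ^ n = wt ^ (n % 3) := by
      conv_lhs => rw [hq]
      rw [zpow_add₀ wt_ne, zpow_mul, h3, one_zpow, one_mul]
    have h2 : ew (C c * T n) = c * wt ^ n := by
      rw [map_mul, ew_T]
      congr 1
      unfold ew
      rw [LaurentPolynomial.eval₂_C]
      simp
    rw [h2, h1]
    have h4 : n % 3 = 0 ∨ n % 3 = 1 ∨ n % 3 = 2 := by omega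
    rcases h4 with h4 | h4 | h4 <;> rw [h4]
    · exact ⟨c, 0, by simp⟩
    · exact ⟨0, c, by simp⟩
    · refine ⟨-c, -c, ?_⟩
      have h5 : wt ^ (2 : ℤ) = wt ^ 2 := by norm_cast
      rw [h5]
      push_cast
      linear_combination (c : ℂ) * wt_sum

theorem wt_not_int (a b : ℤ) (hb : b ≠ 0) : (a : ℂ) + b * wt ≠ 0 := by
  intro h
  have h1 : (b : ℂ) ^ 2 - a * b + a ^ 2 = 0 := by
    have h2 := wt_sum
    have h3 : (b : ℂ) * wt = -a := by linear_combination h
    have h4 : (b : ℂ) ^ 2 * (1 + wt + wt ^ 2) = 0 := by rw [h2, mul_zero]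
    have h5 : (b : ℂ) ^ 2 * (1 + wt + wt ^ 2) = b ^ 2 + b * (b * wt) + (b * wt) ^ 2 := by ring
    rw [h5, h3] at h4
    linear_combination h4
  have h2 : b ^ 2 - a * b + a ^ 2 = 0 := by exact_mod_cast h1
  have h3 : 0 < b ^ 2 := by positivity
  nlinarith [sq_nonneg (2 * a - b)]

theorem ew_bracket {P : Type} (D : Diagram P) : ew D.bracket = 1 ∨ ew D.bracket = -1 := by
  unfold Diagram.bracket
  rw [map_sum]
  have h2 : ∀ s : Fin D.crossings.length → Bool,
      ew (T (Diagram.weight s) * (-T 2 - T (-2)) ^ (D.loops s - 1)) =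
      ∏ i, wt ^ (if s i then 1 else -1 : ℤ) := by
    intro s
    rw [map_mul, map_pow, ew_d, one_pow, mul_one, ew_T, Diagram.weight, zpow_sum _ wt_ne]
  rw [Finset.sum_congr rfl fun s _ => h2 s]
  have h3 := Finset.prod_univ_sum (fun _ : Fin D.crossings.length => (Finset.univ : Finset Bool))
    (fun _ b => wt ^ (if b then 1 else -1 : ℤ))
  rw [Fintype.piFinset_univ] at h3
  rw [← h3]
  have h4 : ∑ b : Bool, wt ^ (if b then 1 else -1 : ℤ) = -1 := by
    rw [Fintype.sum_bool]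
    simp only [if_true, Bool.false_eq_true, if_false, zpow_one, zpow_neg, wt_inv]
    linear_combination wt_sum
  rw [Finset.prod_congr rfl fun i _ => h4, Finset.prod_const]
  exact neg_one_pow_eq_or ℂ _

theorem ew_dd : ew dd = 1 := ew_d

/-- a Laurent polynomial whose value at `A = ω` is a unit is not divisible by an integer -/
theorem not_C_dvd {f : ℤ[T;T⁻¹]} (h : IsU f ∨ ew f = 1 ∨ ew f = -1) {p : ℤ} (hp : 2 ≤ p)
    (hd : C p ∣ f) : False := by
  obtain ⟨z, hz⟩ := hd
  obtain ⟨a, b, hab⟩ := ew_int z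
  have hp0 : (p : ℂ) ≠ 0 := by
    have : p ≠ 0 := by omega
    exact_mod_cast this
  have hC : ew (C p) = p := by
    unfold ew
    rw [LaurentPolynomial.eval₂_C]
    simp
  rcases h with ⟨m, ε, hε, hm⟩ | h
  · have h1 := congrArg (fun g : ℤ[T;T⁻¹] => g.coeff m) hz
    rw [hm] at h1
    simp only [coeffC, T_apply, if_true, mul_one] at h1
    have h2 : p ∣ ε := ⟨_, h1⟩
    have h3 : p ∣ 1 := by
      rcases hε with h | h
      · rwa [h] at h2
      · rw [h] at h2
        exact (dvd_neg.1 h2)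
    have := Int.le_of_dvd one_pos h3
    omega
  · rw [hz, map_mul, hC, hab] at h
    have key : ∀ u : ℤ, (u = 1 ∨ u = -1) → (p : ℂ) * (a + b * wt) = u → False := by
      intro u hu h1
      by_cases hb : b = 0
      · rw [hb] at h1
        have h2 : p * a = u := by
          have : (p : ℂ) * a = u := by rw [← h1]; push_cast; ring
          exact_mod_cast this
        have h3 : p ∣ u := ⟨a, h2.symm⟩
        have h4 : p ∣ 1 := by
          rcases hu with h | h
          · rwa [h] at h3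
          · rw [h] at h3
            exact (dvd_neg.1 h3)
        have := Int.le_of_dvd one_pos h4
        omega
      · refine wt_not_int (p * a - u) (p * b) (mul_ne_zero (by omega) hb) ?_
        push_cast
        linear_combination h1
    rcases h with h | h
    · exact key 1 (Or.inl rfl) (by rw [h]; norm_num)
    · exact key (-1) (Or.inr rfl) (by rw [h]; norm_num)

end Pool.Agent.R811.Abc
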