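import Pool.Agent.R811.Abc.List3
import Pool.Agent.R811.VS.Detect

set_option autoImplicit false

/-!
Rings of tangles and a second diagram.
-/

namespace Pool.Agent.R811.Abc

open Finset LaurentPolynomial Pool.Agent.H891R2.Jones Pool.Agent.H891R2.MT Pool.Agent.H891R2.RF
open Pool.Agent.H891R2.MT.T4b (SIn SIn_d)

/-- `S` behaves like a multiple of two vertical strands: the bracket of every diagram which contains `S`
is a fixed multiple of the bracket of the diagram in which `S` is replaced by two vertical strands -/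
def CutTangle (S : Outer4) : Prop :=
  ∃ b : ℤ[T;T⁻¹], ∀ W : Outer4, ((put W S).close false).std.bracket =
    b * (W.close true).std.bracket

/-- the outside `W` behaves like a multiple of a vertical cut: the bracket of `W` with a tangle in its
box is a fixed multiple of the bracket of the vertical closure of the tangle -/
def CutOutside (W : Outer4) : Prop :=
  ∃ b : ℤ[T;T⁻¹], ∀ S : Outer4, IsTangle S → ((put W S).close false).std.bracket =
    b * (S.close true).std.bracket

theorem cutTangle_of {S : Outer4} (hS : IsTangle S) (h0 : alpha S = 0) : CutTangle S := by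
  refine ⟨beta S, fun W => ?_⟩
  have h5 : ((put W S).close false).std.bracket = brH (put W S) := rfl
  have h6 : (W.close true).std.bracket = brV W := rfl
  rw [h5, h6, brH_put W S hS, h0, zero_mul, zero_add]

theorem cutOutside_of {W : Outer4} (h0 : yy W = 0) : CutOutside W := by
  refine ⟨brH W, fun S hS => ?_⟩
  have h5 : ((put W S).close false).std.bracket = brH (put W S) := rfl
  have h6 : (S.close true).std.bracket = brV S := rfl
  have h1 : brV W = dd * brH W := (sub_eq_zero.1 h0).symm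
  rw [h5, h6, brH_put W S hS, brV_self S hS, h1]
  ring

/-- the constants are `± 1` -/
theorem units3 {x α β Z : ℤ[T;T⁻¹]} (hx : x = α + dd * β) (A B : ℤ[T;T⁻¹])
    (hZ : ∀ p : ℤ, 2 ≤ p → ¬ C p ∣ Z) (h : x * A + α * B = Z)
    {c c' m m' : ℤ} (h1 : x = C c * T m) (h2 : α = C c' * T m') :
    (c' = 1 ∨ c' = -1) ∧ ∃ q : ℤ, m' - m = 4 * q ∧ c = c' * (-1) ^ q.natAbs := by
  have he : (c : ℂ) * zt ^ m = c' * zt ^ m' := by
    have := congrArg ez hx
    rw [h1, h2, map_add, map_mul, map_mul, map_mul, ez_dd, zero_mul, add_zero, ez_C, ez_C,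
      ez_T, ez_T] at this
    exact this
  have habs : |c| = |c'| := by
    have h3 := congrArg (fun z : ℂ => ‖z‖) he
    have h4 : ∀ k : ℤ, ‖zt ^ k‖ = 1 := by
      intro k
      rw [norm_zpow, zt_prim.norm'_eq_one (by norm_num), one_zpow]
    simp only [norm_mul, h4, mul_one, Complex.norm_intCast] at h3
    exact_mod_cast h3
  have hc' : c' = 1 ∨ c' = -1 := by
    by_contra hne
    have h3 : c'.natAbs ≠ 1 := by omega
    obtain ⟨p, hp, hpc'⟩ := Nat.exists_prime_and_dvd h3
    have hpc'' : (p : ℤ) ∣ c' := Int.natCast_dvd.2 hpc'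
    have hpc : (p : ℤ) ∣ c := by
      rw [← dvd_abs, habs, dvd_abs]
      exact hpc''
    have d1 : C (p : ℤ) ∣ x := by
      obtain ⟨z, hz⟩ := hpc
      rw [h1, hz, map_mul, mul_assoc]
      exact dvd_mul_right _ _
    have d2 : C (p : ℤ) ∣ α := by
      obtain ⟨z, hz⟩ := hpc''
      rw [h2, hz, map_mul, mul_assoc]
      exact dvd_mul_right _ _
    refine hZ p (by exact_mod_cast hp.two_le) ?_
    rw [← h]
    exact dvd_add (dvd_mul_of_dvd_left d1 _) (dvd_mul_of_dvd_left d2 _)
  refine ⟨hc', ?_⟩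
  have hcc : c = c' ∨ c = -c' := abs_eq_abs.1 habs
  have hc'C : (c' : ℂ) ≠ 0 := by
    rcases hc' with h | h <;> rw [h] <;> norm_num
  have hz : zt ^ (m' - m) = 1 ∨ zt ^ (m' - m) = -1 := by
    rw [zpow_sub₀ zt_ne]
    have h3 : zt ^ m ≠ 0 := zpow_ne_zero _ zt_ne
    rcases hcc with h4 | h4
    · left
      rw [h4] at he
      have := mul_left_cancel₀ hc'C he
      rw [← this, div_self h3]
    · right
      rw [h4] at he
      push_cast at he
      have : zt ^ m' = - zt ^ m := by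
        apply mul_left_cancel₀ hc'C
        linear_combination -he
      rw [this, neg_div, div_self h3]
  obtain ⟨q, hq⟩ := zt_pow hz
  refine ⟨q, hq, ?_⟩
  have h3 : zt ^ m' = zt ^ m * (-1) ^ q := by
    rw [← zt_4q, ← zpow_add₀ zt_ne]
    congr 1
    omega
  rw [h3] at he
  have h4 : zt ^ m ≠ 0 := zpow_ne_zero _ zt_ne
  have h5 : (c : ℂ) = c' * (-1) ^ q := by
    apply mul_right_cancel₀ h4
    rw [he]
    ring
  have h6 : ((-1 : ℂ)) ^ q = (-1) ^ q.natAbs := by
    rcases Int.natAbs_eq q with h7 | h7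
    · conv_lhs => rw [h7]
      rw [zpow_natCast]
    · conv_lhs => rw [h7]
      rw [zpow_neg, zpow_natCast, ← inv_pow]
      norm_num
  rw [h6] at h5
  exact_mod_cast h5

/-- the two blocks cannot be far apart -/
theorem blocks3 {Z1 Z2 Z : ℤ[T;T⁻¹]} (h1 : Z1 ≠ 0) (h2 : Z2 ≠ 0) {m Q M e e' a w : ℤ}
    (hs1 : SIn Z1 (-m) m) (hs2 : SIn Z2 (-m) m) (hs : SIn Z a (a + w)) (hw : 0 ≤ w)
    (he : e = 1 ∨ e = -1) (he' : e' = 1 ∨ e' = -1)
    (h : C e' * T (M - 4 * Q) * Z1 + C e * T M * Z2 = Z) : |Q| ≤ m + w := by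
  by_contra hne
  obtain ⟨i1, hi1⟩ := Pool.Agent.H891R2.SI.S6.exists_coeff h1
  obtain ⟨i2, hi2⟩ := Pool.Agent.H891R2.SI.S6.exists_coeff h2
  have hb1 := hs1 i1 hi1
  have hb2 := hs2 i2 hi2
  have hl : ∀ (c n : ℤ) (f : ℤ[T;T⁻¹]) (i : ℤ), (C c * T n * f).coeff i = c * f.coeff (i - n) := by
    intro c n f i
    rw [mul_assoc, coeffC]
    have := Pool.Agent.H891R2.SI.S6.coeff_T_mul n f (i - n)
    rw [add_sub_cancel] at this
    rw [this]
  have hz1 : ∀ i, i < -m ∨ m < i → Z1.coeff i = 0 := by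
    intro i hi
    by_contra h3
    have := hs1 i h3
    omega
  have hz2 : ∀ i, i < -m ∨ m < i → Z2.coeff i = 0 := by
    intro i hi
    by_contra h3
    have := hs2 i h3
    omega
  rw [not_le] at hne
  have hQ : Q < -(m + w) ∨ m + w < Q := by
    rcases lt_abs.1 hne with h3 | h3
    · right; exact h3
    · left; omega
  have k1 := hs (M - 4 * Q + i1) (by
    rw [← h, coeffAdd, hl, hl, hz2 (M - 4 * Q + i1 - M) (by omega), mul_zero, add_zero]
    have : M - 4 * Q + i1 - (M - 4 * Q) = i1 := by ring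
    rw [this]
    rcases he' with he' | he' <;> rw [he'] <;> simpa using hi1)
  have k2 := hs (M + i2) (by
    rw [← h, coeffAdd, hl, hl, hz1 (M + i2 - (M - 4 * Q)) (by omega), mul_zero, zero_add]
    have : M + i2 - M = i2 := by ring
    rw [this]
    rcases he with he | he <;> rw [he] <;> simpa using hi2)
  omega

theorem countP_le {β : Type 1} (L : List β) (p : β → Prop) [DecidablePred p] (w : β → ℕ)
    (h : ∀ z ∈ L, p z → 1 ≤ w z) : L.countP (fun z => p z) ≤ (L.map w).sum := by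
  induction L with
  | nil => simp
  | cons z L ih =>
    have h1 := ih fun y hy => h y (List.mem_cons_of_mem _ hy)
    rw [List.map_cons, List.sum_cons]
    by_cases hp : p z
    · rw [List.countP_cons_of_pos (by simpa using hp)]
      have := h z List.mem_cons_self hp
      omega
    · rw [List.countP_cons_of_neg (by simpa using hp)]
      omega

/-- a factor of width `0` of a bracket is a unit -/
theorem isU_of_wd {f Z : ℤ[T;T⁻¹]} (hf : f ≠ 0) (h0 : wd f = 0) (hd : f ∣ Z)
    (hZ : ∀ p : ℤ, 2 ≤ p → ¬ C p ∣ Z) : IsU f := by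
  obtain ⟨c, m, hc⟩ := eq_of_wd hf h0
  refine ⟨m, c, ?_, hc⟩
  by_contra hne
  have hc0 : c ≠ 0 := by
    rintro rfl
    apply hf
    rw [hc, map_zero, zero_mul]
  have h2 : 2 ≤ |c| := by
    rcases abs_cases c with ⟨h1, h3⟩ | ⟨h1, h3⟩ <;> omega
  obtain ⟨z, hz⟩ : |c| ∣ c := (abs_dvd _ _).2 dvd_rfl
  have h3 : C |c| ∣ f := by
    refine ⟨C z * T m, ?_⟩
    rw [hc, ← mul_assoc, ← map_mul, ← hz]
  exact hZ |c| h2 (h3.trans hd)

/-- the right hand side: a bracket up to a unit -/
structure Rhs (s : ℕ) (Z : ℤ[T;T⁻¹]) : Prop where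
  ex : ∃ (ε j : ℤ) (g : ℤ[T;T⁻¹]), (ε = 1 ∨ ε = -1) ∧ (ew g = 1 ∨ ew g = -1) ∧
    SIn g (-(s : ℤ)) s ∧ Z = C ε * T j * g

theorem Rhs.prim {s : ℕ} {Z : ℤ[T;T⁻¹]} (h : Rhs s Z) (p : ℤ) (hp : 2 ≤ p) :
    ¬ C p ∣ Z ∧ ¬ C p ∣ dd * Z := by
  obtain ⟨ε, j, g, hε, hg, -, hZ⟩ := h.ex
  have key : ∀ f : ℤ[T;T⁻¹], (ew f = 1 ∨ ew f = -1) → ¬ C p ∣ C ε * T j * f := by
    intro f hf hd
    refine not_C_dvd (f := f) (Or.inr hf) hp ?_
    have h1 : f = C ε * T (-j) * (C ε * T j * f) := by
      have e2 : (C ε * C ε : ℤ[T;T⁻¹]) = 1 := by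
        rw [← map_mul]
        rcases hε with h | h <;> rw [h] <;> simp
      have e3 : (T (-j) * T j : ℤ[T;T⁻¹]) = 1 := by
        rw [← T_add, neg_add_cancel, T_zero]
      calc f = (C ε * C ε) * (T (-j) * T j) * f := by rw [e2, e3]; ring
        _ = _ := by ring
    rw [h1]
    exact dvd_mul_of_dvd_right hd _
  constructor
  · rw [hZ]
    exact key g hg
  · have : dd * Z = C ε * T j * (dd * g) := by rw [hZ]; ring
    rw [this]
    exact key _ (by rw [map_mul, ew_dd, one_mul]; exact hg)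

theorem Rhs.ne {s : ℕ} {Z : ℤ[T;T⁻¹]} (h : Rhs s Z) : Z ≠ 0 := by
  intro h0
  exact (h.prim 2 le_rfl).1 (by rw [h0]; exact dvd_zero _)

theorem Rhs.sIn {s : ℕ} {Z : ℤ[T;T⁻¹]} (h : Rhs s Z) : ∃ a : ℤ, SIn Z a (a + 2 * s) ∧
    SIn (dd * Z) (a - 2) (a - 2 + (2 * s + 4)) := by
  obtain ⟨ε, j, g, hε, hg, hs, hZ⟩ := h.ex
  have h1 : SIn Z (j - s) (j + s) := by
    rw [hZ]
    exact (((SIn.C ε).mul (SIn.T j)).mul hs).mono (by linarith) (by linarith)
  refine ⟨j - s, h1.mono le_rfl (by linarith), ?_⟩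
  exact ((SIn_d).mul h1).mono (by linarith) (by linarith)

theorem Rhs.wd_le {s : ℕ} {Z : ℤ[T;T⁻¹]} (h : Rhs s Z) : wd Z ≤ 2 * s := by
  obtain ⟨a, h1, -⟩ := h.sIn
  have := Abc.wd_le h.ne h1
  omega

/-- rings of tangles of bounded size and a bounded second diagram -/
theorem pair [∀ S : Outer4, Decidable (¬ IsRow S)] [∀ S : Outer4, Decidable (¬ IsU (brV S))] (s : ℕ) :
    ∃ N : ℕ, ∀ (W : Outer4) (l : List Outer4),
    size W ≤ s → (∀ S ∈ l, IsTangle S) → (∀ S ∈ l, IsRow S ∨ size S ≤ s) →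
    Rhs (2 * s) (brH (puts W l)) →
    ((l.countP (fun S => ¬ IsRow S) ≤ N ∧
      ∀ q : Outer4 → ℤ, (∀ S ∈ l, JonesRow (q S) S ∨ (¬ IsRow S ∧ q S = 0)) →
        |(l.map q).sum| ≤ N) ∨
    ((CutOutside W ∨ ∃ S ∈ l, CutTangle S) ∧ l.countP (fun S => ¬ IsU (brV S)) ≤ N)) := by
  classical
  obtain ⟨Z, hZ⟩ : ∃ Z : Finset (ℤ[T;T⁻¹] × ℤ[T;T⁻¹]), ∀ S : Outer4, size S ≤ s →
      (brV S, alpha S) ∈ Z :=
    ⟨(fin_pairs s).toFinset, fun S hS => (fin_pairs s).mem_toFinset.2 ⟨S, hS, rfl⟩⟩
  obtain ⟨N1, hN1⟩ : ∃ N1 : ℕ, N1 = 2 * ∑ z ∈ Z, (wd z.1 + wd z.2) + 4 * s + 4 * s +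
    2 * (4 + 4 * s) := ⟨_, rfl⟩
  refine ⟨N1 + 2 * s * (N1 + 1) + 4 * s + 4, fun W l hW hT hl h => ?_⟩
  have hDwd : wd (brH (puts W l)) ≤ 4 * s := by
    have := h.wd_le
    omega
  have hD0 : brH (puts W l) ≠ 0 := h.ne
  obtain ⟨hr1, hr2⟩ := ring_formula l hT W
  have hprod0 : ∀ L : List Outer4, (L.map brV).prod ≠ 0 := by
    intro L
    refine List.prod_ne_zero ?_
    intro h0
    obtain ⟨S, hS, h0⟩ := List.mem_map.1 h0
    exact bracket_ne _ h0
  by_cases hy : yy W = 0
  · right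
    refine ⟨Or.inl (cutOutside_of hy), ?_⟩
    have h1 : brV W = dd * brH W := (sub_eq_zero.1 hy).symm
    rw [hy, mul_zero] at hr2
    have h4 : dd * brH (puts W l) = brV (puts W l) := sub_eq_zero.1 hr2
    have h5 : brH (puts W l) = (l.map brV).prod * brH W := by
      apply mul_left_cancel₀ dd_ne
      rw [h4, hr1, h1]
      ring
    have h6 : wd (brH (puts W l)) = (l.map fun S => wd (brV S)).sum + wd (brH W) := by
      have hbH : brH W ≠ 0 := bracket_ne _
      rw [h5, wd_mul (hprod0 l) hbH, wd_list, List.map_map]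
      · rfl
      · intro f hf
        obtain ⟨S, _, rfl⟩ := List.mem_map.1 hf
        exact bracket_ne _
    have h7 := countP_le l (fun S => ¬ IsU (brV S)) (fun S => wd (brV S)) (by
      intro S hS hU
      by_contra h8
      refine hU (isU_of_wd (bracket_ne _) (by omega) ?_ (fun p hp => (h.prim p hp).1))
      rw [h5]
      exact dvd_mul_of_dvd_left (List.dvd_prod (List.mem_map_of_mem hS)) _)
    omega
  by_cases hα : ∃ S ∈ l, alpha S = 0
  · right
    obtain ⟨S₀, hS₀, h0⟩ := hα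
    refine ⟨Or.inr ⟨S₀, hS₀, cutTangle_of (hT S₀ hS₀) h0⟩, ?_⟩
    obtain ⟨l₁, l₂, hl'⟩ := List.append_of_mem hS₀
    have h4 : (l.map alpha).prod = 0 := by
      rw [hl', List.map_append, List.prod_append, List.map_cons, List.prod_cons, h0]
      ring
    rw [h4, zero_mul] at hr2
    have h5 : dd * brH (puts W l) = brV (puts W l) := sub_eq_zero.1 hr2
    have h6 : brV S₀ = dd * beta S₀ := by
      rw [brV_self S₀ (hT S₀ hS₀), h0, zero_add]
    have h7 : brH (puts W l) = ((l₁ ++ l₂).map brV).prod * (beta S₀ * brV W) := by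
      apply mul_left_cancel₀ dd_ne
      rw [h5, hr1, hl', List.map_append, List.prod_append, List.map_cons, List.prod_cons, h6,
        List.map_append, List.prod_append]
      ring
    have hb0 : beta S₀ * brV W ≠ 0 := by
      intro h8
      exact hD0 (by rw [h7, h8, mul_zero])
    have h8 : wd (brH (puts W l)) = ((l₁ ++ l₂).map fun S => wd (brV S)).sum +
        wd (beta S₀ * brV W) := by
      rw [h7, wd_mul (hprod0 _) hb0, wd_list, List.map_map]
      · rfl
      · intro f hf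
        obtain ⟨S, _, rfl⟩ := List.mem_map.1 hf
        exact bracket_ne _
    have h9 := countP_le (l₁ ++ l₂) (fun S => ¬ IsU (brV S)) (fun S => wd (brV S)) (by
      intro S hS hU
      by_contra h8
      refine hU (isU_of_wd (bracket_ne _) (by omega) ?_ (fun p hp => (h.prim p hp).1))
      rw [h7]
      exact dvd_mul_of_dvd_left (List.dvd_prod (List.mem_map_of_mem hS)) _)
    have h10 : l.countP (fun S => ¬ IsU (brV S)) ≤
        (l₁ ++ l₂).countP (fun S => ¬ IsU (brV S)) + 1 := by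
      rw [hl', List.countP_append, List.countP_append, List.countP_cons]
      split_ifs <;> omega
    omega
  push Not at hα
  left
  have he : (l.map brV).prod * brV W + (l.map alpha).prod * yy W = dd * brH (puts W l) := by
    rw [← hr1, ← hr2]
    unfold yy
    ring
  have hX0 : brV W ≠ 0 := bracket_ne _
  have hZ0 : dd * brH (puts W l) ≠ 0 := mul_ne_zero dd_ne hD0
  -- everything for a given choice of the numbers of crossings of the rows
  have main : ∀ q : Outer4 → ℤ, (∀ S ∈ l, JonesRow (q S) S ∨ (¬ IsRow S ∧ q S = 0)) →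
      l.countP (fun S => ¬ IsRow S) ≤ N1 ∧ |(l.map q).sum| ≤ 2 * s * (N1 + 1) + (4 * s + 4) := by
    intro q hq
    obtain ⟨L, e, e', M, hee, hee', h1, h2, h3, h4⟩ := split_rows q l hT hq
    obtain ⟨Q, hQ⟩ : ∃ Q, Q = (l.map q).sum := ⟨_, rfl⟩
    rw [← hQ] at h3 ⊢
    have hLs : ∀ S ∈ L, size S ≤ s := fun S hS => (hl S (h1 S hS).1).resolve_left (h1 S hS).2
    have hLα : ∀ S ∈ L, alpha S ≠ 0 := fun S hS => hα S (h1 S hS).1
    have hLx : ∀ S ∈ L, brV S ≠ 0 := fun S _ => bracket_ne _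
    have heq : (L.map brV).prod * (C e' * T (M - 4 * Q) * brV W) +
        (L.map alpha).prod * (C e * T M * yy W) = dd * brH (puts W l) := by
      rw [← he, h3, h4]
      ring
    have hlen : L.length ≤ N1 := by
      have hc := list_core3 (β := ℤ[T;T⁻¹] × ℤ[T;T⁻¹]) Prod.fst Prod.snd
        (L.map fun S => (brV S, alpha S)) (by
          intro z hz
          obtain ⟨S, hS, rfl⟩ := List.mem_map.1 hz
          exact ⟨hLx S hS, hLα S hS⟩) Z (by
          intro z hz
          obtain ⟨S, hS, rfl⟩ := List.mem_map.1 hz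
          exact hZ S (hLs S hS)) _ _ _ (mul_ne_zero (CT_ne hee' _) hX0)
        (mul_ne_zero (CT_ne hee _) hy) hZ0 (by
          rw [List.map_map, List.map_map]
          exact heq)
      have w1 : (wd (C e' * T (M - 4 * Q) * brV W) : ℤ) ≤ 4 * s := by
        have := wd_le (mul_ne_zero (CT_ne hee' (M - 4 * Q)) hX0)
          (((SIn.C e').mul (SIn.T (M - 4 * Q))).mul (SIn_brV hW))
        linarith
      have w2 : (wd (C e * T M * yy W) : ℤ) ≤ 4 * s := by
        have := wd_le (mul_ne_zero (CT_ne hee M) hy)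
          (((SIn.C e).mul (SIn.T M)).mul (SIn_yy hW))
        linarith
      have w3 : wd (dd * brH (puts W l)) ≤ 4 + 4 * s := by
        rw [wd_mul dd_ne hD0, wd_dd]
        omega
      rw [List.map_map] at hc
      have h5 : L.length ≤ (L.map ((fun z : ℤ[T;T⁻¹] × ℤ[T;T⁻¹] => wd z.1 + wd z.2) ∘
          fun S => (brV S, alpha S))).sum := by
        have h6 : ∀ n ∈ L.map ((fun z : ℤ[T;T⁻¹] × ℤ[T;T⁻¹] => wd z.1 + wd z.2) ∘
            fun S => (brV S, alpha S)), 1 ≤ n := by
          intro n hn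
          obtain ⟨S, hS, rfl⟩ := List.mem_map.1 hn
          by_contra h7
          have h8 : wd (brV S) = 0 ∧ wd (alpha S) = 0 := by
            simp only [Function.comp] at h7
            omega
          obtain ⟨c, m, hc1⟩ := eq_of_wd (hLx S hS) h8.1
          obtain ⟨c', m', hc2⟩ := eq_of_wd (hLα S hS) h8.2
          have hSl := (h1 S hS).1
          obtain ⟨A, hA⟩ := List.dvd_prod (List.mem_map_of_mem (f := brV) hSl)
          obtain ⟨B, hB⟩ := List.dvd_prod (List.mem_map_of_mem (f := alpha) hSl)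
          obtain ⟨u1, q', u2, u3⟩ := units3 (brV_self S (hT S hSl)) (A * brV W) (B * yy W)
            (fun p hp => (h.prim p hp).2) (by rw [← he, hA, hB]; ring) hc1 hc2
          exact (h1 S hS).2 ⟨q', row_of S (hT S hSl) hc1 hc2 u1 u2 u3⟩
        have h9 := List.card_nsmul_le_sum _ 1 h6
        simpa using h9
      omega
    refine ⟨by rw [← h2]; exact hlen, ?_⟩
    have s1 := SIn.list_prod (m := 2 * s) (L.map brV) (by
      intro f hf
      obtain ⟨S, hS, rfl⟩ := List.mem_map.1 hf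
      exact SIn_brV (hLs S hS))
    have s2 := SIn.list_prod (m := 2 * s) (L.map alpha) (by
      intro f hf
      obtain ⟨S, hS, rfl⟩ := List.mem_map.1 hf
      exact SIn_alpha (hLs S hS))
    rw [List.length_map] at s1 s2
    have hle : (L.length : ℤ) ≤ N1 := by exact_mod_cast hlen
    have hmul : (2 * s : ℤ) * L.length ≤ 2 * s * N1 :=
      mul_le_mul_of_nonneg_left hle (by positivity)
    have t1 : SIn ((L.map brV).prod * brV W) (-(2 * s * (N1 + 1))) (2 * s * (N1 + 1)) :=
      (s1.mul (SIn_brV hW)).mono (by linarith) (by linarith)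
    have t2 : SIn ((L.map alpha).prod * yy W) (-(2 * s * (N1 + 1))) (2 * s * (N1 + 1)) :=
      (s2.mul (SIn_yy hW)).mono (by linarith) (by linarith)
    obtain ⟨a, -, ha⟩ := h.sIn
    have t3 := blocks3 (Z1 := (L.map brV).prod * brV W) (Z2 := (L.map alpha).prod * yy W) ?_ ?_
      t1 t2 ha (by positivity) hee hee' (M := M) (Q := Q) ?_
    · push_cast at t3
      linarith
    · refine mul_ne_zero (List.prod_ne_zero ?_) hX0
      intro h0
      obtain ⟨S, hS, h0⟩ := List.mem_map.1 h0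
      exact hLx S hS h0
    · refine mul_ne_zero (List.prod_ne_zero ?_) hy
      intro h0
      obtain ⟨S, hS, h0⟩ := List.mem_map.1 h0
      exact hLα S hS h0
    · rw [← heq]
      ring
  constructor
  · have h1 : ∃ q : Outer4 → ℤ, ∀ S ∈ l, JonesRow (q S) S ∨ (¬ IsRow S ∧ q S = 0) := by
      refine ⟨fun S => if h : IsRow S then h.choose else 0, fun S _ => ?_⟩
      by_cases h : IsRow S
      · left
        simp only [dif_pos h]
        exact h.choose_spec
      · right
        exact ⟨h, dif_neg h⟩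
    obtain ⟨q, hq⟩ := h1
    have := (main q hq).1
    omega
  · intro q hq
    have := (main q hq).2
    push_cast
    linarith

/-- rings of repeated tangles and a second diagram -/
theorem rep_pair {r : ℕ} (S : Fin r → Outer4) (hS : ∀ i, IsTangle (S i)) (W : Outer4)
    (c : List (Fin r)) (s : ℕ)
    (hc : ∀ i, 4 * W.crossings.length + 8 * Fintype.card W.P + 4 * s + 8 ≤ c.count i)
    (h : Rhs s (brH (puts W (c.map S)))) :
    (∃ q : Fin r → ℤ, ∀ i, JonesRow (q i) (S i)) ∨ (CutOutside W ∧ ∀ i, IsU (brV (S i))) := by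
  have hl : ∀ S' ∈ c.map S, IsTangle S' := by
    intro S' hS'
    rw [List.mem_map] at hS'
    obtain ⟨i, _, rfl⟩ := hS'
    exact hS i
  obtain ⟨hr1, hr2⟩ := ring_formula (c.map S) hl W
  rw [prod_map S c (fun i => by have := hc i; omega)] at hr1 hr2
  have hD0 : brH (puts W (c.map S)) ≠ 0 := h.ne
  have hDwd := h.wd_le
  have hp1 : 1 ≤ Fintype.card W.P := Fintype.card_pos_iff.2 ⟨W.corner false false⟩
  have hpx : ∀ c' : Fin r → ℕ, ∏ i, brV (S i) ^ c' i ≠ 0 := fun c' =>
    Finset.prod_ne_zero_iff.2 fun i _ => pow_ne_zero _ (bracket_ne _)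
  have hwp : ∀ (f : ℤ[T;T⁻¹]) (n : ℕ), f ≠ 0 → wd (f ^ n) = n * wd f := by
    intro f n hf
    induction n with
    | zero =>
      have := wd_CT (e := 1) one_ne_zero 0
      simpa using this
    | succ n ih => rw [pow_succ, wd_mul (pow_ne_zero _ hf) hf, ih]; ring
  have hge : ∀ (i : Fin r) (f g : ℤ[T;T⁻¹]), f ≠ 0 → g ≠ 0 → f ∣ g → wd f ≤ wd g := by
    intro i f g hf hg ⟨z, hz⟩
    have hz0 : z ≠ 0 := by
      rintro rfl
      exact hg (by rw [hz, mul_zero])
    rw [hz, wd_mul hf hz0]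
    omega
  have hx0 : ∀ i, brV (S i) ≠ 0 := fun i => bracket_ne _
  by_cases hy : yy W = 0
  · right
    refine ⟨cutOutside_of hy, ?_⟩
    have h1 : brV W = dd * brH W := (sub_eq_zero.1 hy).symm
    rw [hy, mul_zero] at hr2
    have h4 : dd * brH (puts W (c.map S)) = brV (puts W (c.map S)) := sub_eq_zero.1 hr2
    have h5 : brH (puts W (c.map S)) = (∏ i, brV (S i) ^ c.count i) * brH W := by
      apply mul_left_cancel₀ dd_ne
      rw [h4, hr1, h1]
      ring
    intro i
    have hd : brV (S i) ^ c.count i ∣ brH (puts W (c.map S)) := by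
      rw [h5]
      exact dvd_mul_of_dvd_left (Finset.dvd_prod_of_mem _ (Finset.mem_univ i)) _
    have h6 := hge i _ _ (pow_ne_zero _ (hx0 i)) hD0 hd
    rw [hwp _ _ (hx0 i)] at h6
    have h7 := hc i
    have h8 : wd (brV (S i)) = 0 := by
      by_contra hne
      have h9 : 1 ≤ wd (brV (S i)) := Nat.one_le_iff_ne_zero.2 hne
      have h10 : c.count i * 1 ≤ c.count i * wd (brV (S i)) := Nat.mul_le_mul_left _ h9
      omega
    refine isU_of_wd (bracket_ne _) h8 (dvd_trans ?_ hd) (fun p hp => (h.prim p hp).1)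
    exact dvd_pow_self _ (by omega)
  have he : (∏ i, brV (S i) ^ c.count i) * brV W + (∏ i, alpha (S i) ^ c.count i) * yy W =
      dd * brH (puts W (c.map S)) := by
    rw [← hr1, ← hr2]
    unfold yy
    ring
  have hZ0 : dd * brH (puts W (c.map S)) ≠ 0 := mul_ne_zero dd_ne hD0
  have hwZ : wd (dd * brH (puts W (c.map S))) ≤ 4 + 2 * s := by
    rw [wd_mul dd_ne hD0, wd_dd]
    omega
  have hα0 : ∀ i, alpha (S i) ≠ 0 := by
    intro i h0
    have h1 : ∏ i, alpha (S i) ^ c.count i = 0 := by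
      refine Finset.prod_eq_zero (Finset.mem_univ i) ?_
      rw [h0, zero_pow]
      have := hc i
      omega
    rw [h1, zero_mul, add_zero] at he
    have h2 : brV (S i) = dd * beta (S i) := by
      rw [brV_self _ (hS i), h0, zero_add]
    have h3 : brV (S i) ^ c.count i ∣ dd * brH (puts W (c.map S)) := by
      rw [← he]
      exact dvd_mul_of_dvd_left (Finset.dvd_prod_of_mem _ (Finset.mem_univ i)) _
    have h4 := hge i _ _ (pow_ne_zero _ (hx0 i)) hZ0 h3
    rw [hwp _ _ (hx0 i)] at h4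
    have h5 : 4 ≤ wd (brV (S i)) := by
      have hb : beta (S i) ≠ 0 := by
        intro h6
        have : brV (S i) ≠ 0 := bracket_ne _
        exact this (by rw [h2, h6, mul_zero])
      rw [h2, wd_mul dd_ne hb, wd_dd]
      omega
    have h6 := hc i
    have h7 : c.count i * 4 ≤ c.count i * wd (brV (S i)) := Nat.mul_le_mul_left _ h5
    omega
  left
  have hX0 : brV W ≠ 0 := bracket_ne _
  have hm := laur_core3 (fun i => brV (S i)) (fun i => alpha (S i)) (fun i => bracket_ne _) hα0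
    (fun i => c.count i) (brV W) (yy W) _ hX0 hy hZ0 he
  obtain ⟨m1, m2⟩ := hm
  have hwX : (wd (brV W) : ℤ) ≤ 2 * (W.crossings.length + 2 * Fintype.card W.P) - 4 := by
    have h1 := SIn_bracket (W.close true).std (c := W.crossings.length) (p := Fintype.card W.P)
      (by rw [len_close]) le_rfl (by omega)
    have := wd_le hX0 h1
    omega
  have hwY : (wd (yy W) : ℤ) ≤ 2 * (W.crossings.length + 2 * Fintype.card W.P) := by
    have h1 := SIn_bracket (W.close true).std (c := W.crossings.length) (p := Fintype.card W.P)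
      (by rw [len_close]) le_rfl (by omega)
    have h2 := SIn_bracket (W.close false).std (c := W.crossings.length) (p := Fintype.card W.P)
      (by rw [len_close]) le_rfl (by omega)
    have h3 : SIn (yy W) (-(W.crossings.length + 2 * Fintype.card W.P))
        (W.crossings.length + 2 * Fintype.card W.P) := by
      unfold yy
      rw [sub_eq_add_neg]
      refine SIn.add ?_ ?_
      · have := (SIn_d).mul h2
        refine this.mono ?_ ?_ <;> linarith
      · refine SIn.neg (h1.mono ?_ ?_) <;> linarith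
    have := wd_le hy h3
    omega
  have hK : ∀ w : Fin r → ℕ,
      (4 * W.crossings.length + 8 * Fintype.card W.P + 4 * s + 8) * ∑ i, w i ≤
        ∑ i, c.count i * w i := by
    intro w
    rw [Finset.mul_sum]
    exact Finset.sum_le_sum fun i _ => Nat.mul_le_mul_right _ (hc i)
  have k1 := hK fun i => wd (brV (S i))
  have k2 := hK fun i => wd (alpha (S i))
  obtain ⟨S1, hS1⟩ : ∃ n, n = ∑ i, wd (brV (S i)) := ⟨_, rfl⟩
  obtain ⟨S2, hS2⟩ : ∃ n, n = ∑ i, wd (alpha (S i)) := ⟨_, rfl⟩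
  rw [← hS1] at m1 m2 k1
  rw [← hS2] at m1 m2 k2
  have hz : S1 + S2 = 0 := by
    by_contra hne
    obtain ⟨K, hK'⟩ : ∃ K, K = 4 * W.crossings.length + 8 * Fintype.card W.P + 4 * s + 8 := ⟨_, rfl⟩
    rw [← hK'] at k1 k2
    have h1 : K * (S1 + S2) ≤ 2 * (S1 + S2) + wd (brV W) + wd (yy W) +
        2 * wd (dd * brH (puts W (c.map S))) := by
      rw [mul_add]
      omega
    obtain ⟨K', hK''⟩ : ∃ K', K = 2 + K' := ⟨K - 2, by omega⟩
    rw [hK'', add_mul] at h1
    have h2 : K' * 1 ≤ K' * (S1 + S2) := Nat.mul_le_mul_left _ (by omega)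
    omega
  have hrow : ∀ i, ∃ q : ℤ, JonesRow q (S i) := by
    intro i
    have h1 : wd (brV (S i)) = 0 := by
      have : wd (brV (S i)) ≤ S1 := by
        rw [hS1]
        exact Finset.single_le_sum (f := fun i => wd (brV (S i))) (fun _ _ => Nat.zero_le _)
          (Finset.mem_univ i)
      omega
    have h2 : wd (alpha (S i)) = 0 := by
      have : wd (alpha (S i)) ≤ S2 := by
        rw [hS2]
        exact Finset.single_le_sum (f := fun i => wd (alpha (S i))) (fun _ _ => Nat.zero_le _)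
          (Finset.mem_univ i)
      omega
    obtain ⟨d, m, hc1⟩ := eq_of_wd (bracket_ne _) h1
    obtain ⟨d', m', hc2⟩ := eq_of_wd (hα0 i) h2
    have hpos : 1 ≤ c.count i := by have := hc i; omega
    obtain ⟨A, hA⟩ : brV (S i) ∣ ∏ i, brV (S i) ^ c.count i :=
      dvd_trans (dvd_pow_self _ (by omega)) (Finset.dvd_prod_of_mem _ (Finset.mem_univ i))
    obtain ⟨B, hB⟩ : alpha (S i) ∣ ∏ i, alpha (S i) ^ c.count i :=
      dvd_trans (dvd_pow_self _ (by omega)) (Finset.dvd_prod_of_mem _ (Finset.mem_univ i))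
    obtain ⟨u1, q', u2, u3⟩ := units3 (brV_self (S i) (hS i)) (A * brV W) (B * yy W)
      (fun p hp => (h.prim p hp).2) (by rw [← he, hA, hB]; ring) hc1 hc2
    exact ⟨q', row_of (S i) (hS i) hc1 hc2 u1 u2 u3⟩
  choose q hq using hrow
  exact ⟨q, hq⟩

/-! ### two diagrams with the same normalised bracket -/

theorem fPoly_eq {P : Type} (D : Diagram P) : ∃ ε : ℤ, (ε = 1 ∨ ε = -1) ∧
    D.fPoly = C ε * T (-3 * D.writhe) * D.bracket := by
  unfold Diagram.fPoly
  by_cases hw : Even D.writhe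
  · exact ⟨1, Or.inl rfl, by rw [if_pos hw, map_one]⟩
  · exact ⟨-1, Or.inr rfl, by rw [if_neg hw, map_neg, map_one]⟩

/-- if `f_D = ± A^m f_D'` then the bracket of `D` is a unit times the one of `D'` -/
theorem rhs_of {P P' : Type} [Fintype P] [DecidableEq P] [Nonempty P] [Fintype P'] [Nonempty P']
    (D : Diagram P) (U : UDiagram P) (h : Orients D U) (D' : Diagram P') (s : ℕ)
    (hs : D'.crossings.length + 2 * (Fintype.card P' - 1) ≤ s)
    (hf : ∃ u : ℤ[T;T⁻¹], IsU u ∧ D.fPoly = u * D'.fPoly) : Rhs s U.std.bracket := by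
  obtain ⟨u, ⟨m, ε, hε, hu⟩, hf⟩ := hf
  obtain ⟨ε1, hε1, h1⟩ := fPoly_eq D
  obtain ⟨ε2, hε2, h2⟩ := fPoly_eq D'
  have hp1 : 1 ≤ Fintype.card P' := Fintype.card_pos
  refine ⟨ε1 * ε * ε2, 3 * D.writhe + m + -3 * D'.writhe, D'.bracket, ?_, ew_bracket D', ?_, ?_⟩
  · rcases hε with h | h <;> rcases hε1 with h' | h' <;> rcases hε2 with h'' | h'' <;>
      rw [h, h', h''] <;> norm_num
  · have := SIn_bracket D' (c := D'.crossings.length) (p := Fintype.card P') le_rfl le_rfl (by omega)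
    exact this.mono (by omega) (by omega)
  · rw [← T6.bracket_orients D U h]
    have e2 : (C ε1 * C ε1 : ℤ[T;T⁻¹]) = 1 := by
      rw [← map_mul]
      rcases hε1 with h | h <;> rw [h] <;> simp
    have e3 : (T (3 * D.writhe) * T (-3 * D.writhe) : ℤ[T;T⁻¹]) = 1 := by
      rw [← T_add]
      have : 3 * D.writhe + -3 * D.writhe = 0 := by ring
      rw [this, T_zero]
    calc D.bracket = (C ε1 * C ε1) * (T (3 * D.writhe) * T (-3 * D.writhe)) * D.bracket := by
          rw [e2, e3]; ring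
      _ = C ε1 * T (3 * D.writhe) * (C ε1 * T (-3 * D.writhe) * D.bracket) := by ring
      _ = C ε1 * T (3 * D.writhe) * (C ε * T m * (C ε2 * T (-3 * D'.writhe) * D'.bracket)) := by
          rw [← h1, hf, hu, h2]
      _ = _ := by
          rw [T_add, T_add, map_mul, map_mul]
          ring

end Pool.Agent.R811.Abc
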