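import Pool.Agent.R811.Abc.Final

set_option autoImplicit false

namespace Pool.Agent.R811.Abc

open Finset LaurentPolynomial Pool.Agent.H891R2.Jones Pool.Agent.H891R2.MT Pool.Agent.H891R2.RF
open Pool.Agent.H891R2.MT.T4b (SIn SIn_d)
open Pool.Agent.H891R2.RF.R1 (K Zc Zc_eq ind_and sum_ind_eq sum4)

theorem K_plain (A : ℂ) {N : ℕ} (u : plain.P → Fin N) :
    K A plain u = ind (u (false, false) = u (false, true)) *
      ind (u (true, false) = u (true, true)) := by
  unfold K plain
  simp [arcW]

theorem ind_sq (p : Prop) : (ind p * ind p : ℂ) = ind p := by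
  by_cases hp : p <;> simp [ind, hp]

theorem ind_comm {S : Type} (a b : S) : (ind (a = b) : ℂ) = ind (b = a) :=
  ind_congr ⟨fun h => h.symm, fun h => h.symm⟩

theorem sum_ind_one {N : ℕ} (x : Fin N) : ∑ u : Fin N, (ind (x = u) : ℂ) = 1 := by
  have := sum_ind_eq x (fun _ : Fin N => (1 : ℂ))
  simpa using this

theorem Zc_plain (A : ℂ) (N : ℕ) : Zc A N plain false = N * N ∧ Zc A N plain true = N := by
  constructor
  · rw [Zc_eq]
    have h1 : ∀ u : plain.P → Fin N, K A plain u *
        (if false = true then ind (u (plain.corner false false) = u (plain.corner true false)) *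
          ind (u (plain.corner false true) = u (plain.corner true true))
        else ind (u (plain.corner false false) = u (plain.corner false true)) *
          ind (u (plain.corner true false) = u (plain.corner true true))) =
        ind (u (false, false) = u (false, true)) * ind (u (true, false) = u (true, true)) := by
      intro u
      rw [K_plain]
      simp only [plain, Bool.false_eq_true, if_false]
      rw [mul_mul_mul_comm, ind_sq, ind_sq]
    rw [Finset.sum_congr rfl fun u _ => h1 u]
    have h2 := sum4 (S := Fin N) (fun a b c d => ind (a = b) * ind (c = d))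
    refine h2.trans ?_
    simp only [← Finset.mul_sum, sum_ind_one, Finset.sum_const, Finset.card_univ,
      Fintype.card_fin, nsmul_eq_mul, mul_one]
  · rw [Zc_eq]
    have h1 : ∀ u : plain.P → Fin N, K A plain u *
        (if true = true then ind (u (plain.corner false false) = u (plain.corner true false)) *
          ind (u (plain.corner false true) = u (plain.corner true true))
        else ind (u (plain.corner false false) = u (plain.corner false true)) *
          ind (u (plain.corner true false) = u (plain.corner true true))) =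
        ind (u (false, false) = u (false, true)) * (ind (u (false, false) = u (true, false)) *
          (ind (u (true, false) = u (true, true)) *
            ind (u (false, true) = u (true, true)))) := by
      intro u
      rw [K_plain]
      simp only [plain, if_true]
      ring
    rw [Finset.sum_congr rfl fun u _ => h1 u]
    have h2 := sum4 (S := Fin N) (fun a b c d => ind (a = b) * (ind (a = c) * (ind (c = d) *
      ind (b = d))))
    refine h2.trans ?_
    simp only [← Finset.mul_sum, sum_ind_eq]
    simp [ind]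

theorem brH_plain : brH plain = dd := by
  refine T6.eq_of_ev _ _ (fun N hN => ?_)
  apply mul_left_cancel₀ (castN N hN)
  rw [ev_brH, (Zc_plain _ _).1, ev_dd]

theorem brV_plain : brV plain = 1 := by
  refine T6.eq_of_ev _ _ (fun N hN => ?_)
  apply mul_left_cancel₀ (castN N hN)
  rw [ev_brV, (Zc_plain _ _).2, map_one, mul_one]

theorem yy_plain : yy plain = T 4 + 1 + T (-4) := by
  unfold yy
  rw [brH_plain, brV_plain]
  unfold dd
  have h1 : (T 2 * T 2 : ℤ[T;T⁻¹]) = T 4 := by rw [← T_add]; norm_num
  have h2 : (T 2 * T (-2) : ℤ[T;T⁻¹]) = 1 := by rw [← T_add]; norm_num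
  have h3 : (T (-2) * T (-2) : ℤ[T;T⁻¹]) = T (-4) := by rw [← T_add]; norm_num
  linear_combination h1 + 2 * h2 + h3

theorem coeffC (c : ℤ) (f : ℤ[T;T⁻¹]) (j : ℤ) : (C c * f).coeff j = c * f.coeff j := by
  rw [← LaurentPolynomial.smul_eq_C_mul, AddMonoidAlgebra.coeff_smul, Finsupp.smul_apply,
    smul_eq_mul]

theorem coeffAdd (f g : ℤ[T;T⁻¹]) (j : ℤ) : (f + g).coeff j = f.coeff j + g.coeff j := by
  rw [AddMonoidAlgebra.coeff_add, Finsupp.add_apply]

theorem prod_T {r : ℕ} (n : Fin r → ℕ) (a m : Fin r → ℤ) :
    ∏ i, (C (a i) * T (m i) : ℤ[T;T⁻¹]) ^ n i = C (∏ i, a i ^ n i) * T (∑ i, n i * m i) := by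
  have h : ∀ s : Finset (Fin r), ∏ i ∈ s, (C (a i) * T (m i) : ℤ[T;T⁻¹]) ^ n i =
      C (∏ i ∈ s, a i ^ n i) * T (∑ i ∈ s, n i * m i) := by
    intro s
    induction s using Finset.induction_on with
    | empty => simp
    | insert b s hb ih =>
      rw [Finset.prod_insert hb, Finset.sum_insert hb, Finset.prod_insert hb, ih, T_add, map_mul,
        mul_pow, T_pow, map_pow]
      ring
  exact h _

/-- the total number of crossings is `± 1` -/
theorem total {e ε j M Q : ℤ} {Q' : ℕ} (he : e = 1 ∨ e = -1) (hQ : Q = 0 → Even Q')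
    (h : (C (e * (-1) ^ Q') * T (M - 4 * Q) : ℤ[T;T⁻¹]) + C e * T M * (T 4 + 1 + T (-4)) =
      C ε * T j * dd) : Q = 1 ∨ Q = -1 := by
  by_contra hne
  push Not at hne
  obtain ⟨hne1, hne2⟩ := hne
  have h0 : (C (e * (-1) ^ Q') * T (M - 4 * Q) : ℤ[T;T⁻¹]) +
      (C e * T (M + 4) + (C e * T M + C e * T (M - 4))) = C (-ε) * T (j + 2) + C (-ε) * T (j - 2) := by
    rw [T_add, sub_eq_add_neg M 4, T_add, T_add, sub_eq_add_neg j 2, T_add, map_neg]
    unfold dd at h
    linear_combination h
  have hc := fun i => congrArg (fun f : ℤ[T;T⁻¹] => f.coeff i) h0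
  simp only [coeffAdd, coeffC, T_apply] at hc
  have c1 := hc (M + 4)
  have c2 := hc M
  have c3 := hc (M - 4)
  rw [if_neg (by omega), if_pos rfl, if_neg (by omega), if_neg (by omega)] at c1
  rw [if_neg (by omega), if_neg (by omega), if_pos rfl] at c3
  by_cases hQ0 : Q = 0
  · have h5 := (hQ hQ0).neg_one_pow (α := ℤ)
    rw [h5, if_pos (by omega), if_neg (by omega), if_pos rfl, if_neg (by omega)] at c2
    split_ifs at c1 c2 c3 <;> omega
  · rw [if_neg (by omega), if_neg (by omega), if_pos rfl, if_neg (by omega)] at c2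
    split_ifs at c1 c2 c3 <;> omega

/-- rings of tangles without further parts -/
theorem plain_case {r : ℕ} (S : Fin r → Outer4) (hS : ∀ i, IsTangle (S i))
    (c : List (Fin r)) (hc : ∀ i, 11 ≤ c.count i) (h : IsU (brH (puts plain (c.map S)))) :
    ∃ q : Fin r → ℤ, (∀ i, JonesRow (q i) (S i)) ∧
      ((c.map q).sum = 1 ∨ (c.map q).sum = -1) := by
  have hX : SIn (brV plain) 0 0 := by
    rw [brV_plain]
    exact SIn.one
  have hY : SIn (yy plain) (-4) 4 := by
    rw [yy_plain]
    refine SIn.add (SIn.add ?_ ?_) ?_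
    · exact (SIn.T 4).mono (by norm_num) (by norm_num)
    · exact SIn.one.mono (by norm_num) (by norm_num)
    · exact (SIn.T (-4)).mono (by norm_num) (by norm_num)
  have hy : yy plain ≠ 0 := by
    intro h0
    have := congrArg (fun f : ℤ[T;T⁻¹] => f.coeff 4) (yy_plain.symm.trans h0)
    simp only [coeffAdd, T_apply] at this
    rw [← T_zero, T_apply] at this
    norm_num at this
  obtain ⟨ε, j, c', m', q, hε, hc', hα, hx, hrow, he⟩ := main_step plain S hS c 11 (by norm_num)
    hc h hy 0 0 (-4) 4 hX hY (by norm_num)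
  refine ⟨q, hrow, ?_⟩
  have hsum : (c.map q).sum = ∑ i, (c.count i : ℤ) * q i := by
    rw [Finset.sum_list_map_count]
    have : c.toFinset = Finset.univ := by
      ext i
      simp only [List.mem_toFinset, mem_univ, iff_true]
      exact List.count_pos_iff.1 (by have := hc i; omega)
    rw [this]
    exact Finset.sum_congr rfl fun i _ => by rw [nsmul_eq_mul]
  rw [hsum]
  have p1 : ∏ i, brV (S i) ^ c.count i =
      ∏ i, (C (c' i * (-1) ^ (q i).natAbs) * T (m' i - 4 * q i)) ^ c.count i :=
    Finset.prod_congr rfl fun i _ => by rw [hx i]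
  have p2 : ∏ i, alpha (S i) ^ c.count i = ∏ i, (C (c' i) * T (m' i)) ^ c.count i :=
    Finset.prod_congr rfl fun i _ => by rw [hα i]
  rw [brV_plain, mul_one, yy_plain, p1, p2, prod_T, prod_T] at he
  have e1 : ∏ i, (c' i * (-1) ^ (q i).natAbs) ^ c.count i =
      (∏ i, c' i ^ c.count i) * (-1) ^ (∑ i, (q i).natAbs * c.count i) := by
    rw [← Finset.prod_pow_eq_pow_sum, ← Finset.prod_mul_distrib]
    refine Finset.prod_congr rfl fun i _ => ?_
    rw [mul_pow, pow_mul]
  have e2 : ∑ i, (c.count i : ℤ) * (m' i - 4 * q i) =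
      ∑ i, (c.count i : ℤ) * m' i - 4 * ∑ i, (c.count i : ℤ) * q i := by
    rw [Finset.mul_sum, ← Finset.sum_sub_distrib]
    refine Finset.sum_congr rfl fun i _ => ?_
    ring
  rw [e1, e2] at he
  refine total ?_ ?_ he
  · have : ∀ s : Finset (Fin r), (∏ i ∈ s, c' i ^ c.count i = 1 ∨
        ∏ i ∈ s, c' i ^ c.count i = -1) := by
      intro s
      induction s using Finset.induction_on with
      | empty => left; simp
      | insert b s hb ih =>
        rw [Finset.prod_insert hb]
        have h1 : c' b ^ c.count b = 1 ∨ c' b ^ c.count b = -1 := by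
          rcases hc' b with h1 | h1
          · left; rw [h1, one_pow]
          · rw [h1]
            exact neg_one_pow_eq_or ℤ _
        rcases h1 with h1 | h1 <;> rcases ih with h2 | h2 <;> rw [h1, h2] <;> norm_num
    exact this _
  · intro h0
    have h1 : Even (((∑ i, (q i).natAbs * c.count i : ℕ) : ℤ) - ∑ i, (c.count i : ℤ) * q i) := by
      push_cast
      rw [← Finset.sum_sub_distrib]
      refine Finset.even_sum _ fun i _ => ?_
      have : |q i| * (c.count i : ℤ) - c.count i * q i = c.count i * (|q i| - q i) := by ring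
      rw [this]
      refine Even.mul_left ?_ _
      rcases abs_choice (q i) with h2 | h2 <;> rw [h2]
      · simp
      · exact ⟨-q i, by ring⟩
    rw [h0, sub_zero] at h1
    exact_mod_cast h1

end Pool.Agent.R811.Abc
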