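import Mathlib

set_option autoImplicit false

/-!
The Mason-Stothers theorem for the equation `P U + Q V = ± A^j (A^4 + 1)`, `P`, `Q` products of high
powers.
-/

namespace Pool.Agent.R811.Abc

open Polynomial UniqueFactorizationMonoid

theorem X_not_dvd {f : ℚ[X]} (h : f.coeff 0 ≠ 0) : ¬ X ∣ f := by
  rw [X_dvd_iff]
  exact h

theorem prime_dvd_X {p : ℚ[X]} (hp : Prime p) (h : p ∣ X) : X ∣ p :=
  ((prime_X.irreducible.dvd_irreducible_iff_associated hp.irreducible).2
    ((hp.irreducible.dvd_irreducible_iff_associated prime_X.irreducible).1 h).symm)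

theorem prime_X4 {p : ℚ[X]} (hp : Prime p) (h : p ∣ X ^ 4 + 1) : ¬ p ∣ X := by
  intro h1
  have h2 : p ∣ 1 := by
    have : (1 : ℚ[X]) = (X ^ 4 + 1) - X * X ^ 3 := by ring
    rw [this]
    exact dvd_sub h (dvd_mul_of_dvd_left h1 _)
  exact hp.not_isUnit (isUnit_of_dvd_one h2)

theorem sq_X4 {p : ℚ[X]} (hp : Prime p) (h : p * p ∣ X ^ 4 + 1) : False := by
  have h0 : p ∣ X ^ 4 + 1 := dvd_trans (dvd_mul_right p p) h
  obtain ⟨w, hw⟩ := h
  have h1 := congrArg derivative hw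
  have h2 : derivative (X ^ 4 + 1 : ℚ[X]) = C 4 * X ^ 3 := by
    rw [derivative_add, derivative_X_pow, derivative_one, add_zero]
    norm_num
  rw [h2, derivative_mul, derivative_mul] at h1
  have h3 : p ∣ C 4 * X ^ 3 := by
    rw [h1]
    refine dvd_add ?_ ?_
    · refine dvd_mul_of_dvd_left ?_ _
      exact dvd_add (dvd_mul_left _ _) (dvd_mul_right _ _)
    · exact dvd_mul_of_dvd_left (dvd_mul_right _ _) _
  rcases hp.dvd_or_dvd h3 with h4 | h4
  · exact hp.not_isUnit (isUnit_of_dvd_unit h4 (isUnit_C.2 (by norm_num)))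
  · exact prime_X4 hp h0 (hp.dvd_of_dvd_pow h4)

theorem natDegree_X4 : (X ^ 4 + 1 : ℚ[X]).natDegree = 4 := by
  have : (X ^ 4 + 1 : ℚ[X]) = X ^ 4 + C 1 := by simp
  rw [this, natDegree_X_pow_add_C]

theorem X4_ne : (X ^ 4 + 1 : ℚ[X]) ≠ 0 := by
  intro h
  have := natDegree_X4
  rw [h] at this
  simp at this

theorem poly_core {r : ℕ} (F G : Fin r → ℚ[X]) (k : Fin r → ℕ) (K : ℕ) (hK : 2 ≤ K)
    (hk : ∀ i, K ≤ k i) (hF0 : ∀ i, (F i).coeff 0 ≠ 0) (hG0 : ∀ i, (G i).coeff 0 ≠ 0)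
    (hFG : ∀ i (p : ℚ[X]), p ∣ X ^ 4 + 1 → (p ∣ F i ↔ p ∣ G i))
    (U V : ℚ[X]) (hU : U.coeff 0 ≠ 0) (hV : V.coeff 0 ≠ 0)
    (e1 e2 e3 : ℕ) (he : e1 = 0 ∨ e2 = 0 ∨ e3 = 0) (u : ℚ) (hu : u ≠ 0)
    (h : X ^ e1 * (∏ i, F i ^ k i) * U + X ^ e2 * (∏ i, G i ^ k i) * V +
      C u * X ^ e3 * (X ^ 4 + 1) = 0) :
    K * ∑ i, (F i).natDegree ≤ ∑ i, (F i).natDegree + ∑ i, (G i).natDegree + V.natDegree + 4 ∧
    K * ∑ i, (G i).natDegree ≤ ∑ i, (F i).natDegree + ∑ i, (G i).natDegree + U.natDegree + 4 := by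
  classical
  have hF : ∀ i, F i ≠ 0 := fun i h0 => hF0 i (by rw [h0]; simp)
  have hG : ∀ i, G i ≠ 0 := fun i h0 => hG0 i (by rw [h0]; simp)
  have hU0 : U ≠ 0 := fun h0 => hU (by rw [h0]; simp)
  have hV0 : V ≠ 0 := fun h0 => hV (by rw [h0]; simp)
  set P := ∏ i, F i ^ k i with hPdef
  set Q := ∏ i, G i ^ k i with hQdef
  have hP0 : P ≠ 0 := Finset.prod_ne_zero_iff.2 fun i _ => pow_ne_zero _ (hF i)
  have hQ0 : Q ≠ 0 := Finset.prod_ne_zero_iff.2 fun i _ => pow_ne_zero _ (hG i)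
  have hPc : P.coeff 0 ≠ 0 := by
    rw [hPdef, coeff_zero_eq_eval_zero, eval_prod]
    refine Finset.prod_ne_zero_iff.2 fun i _ => ?_
    rw [eval_pow, ← coeff_zero_eq_eval_zero]
    exact pow_ne_zero _ (hF0 i)
  have hQc : Q.coeff 0 ≠ 0 := by
    rw [hQdef, coeff_zero_eq_eval_zero, eval_prod]
    refine Finset.prod_ne_zero_iff.2 fun i _ => ?_
    rw [eval_pow, ← coeff_zero_eq_eval_zero]
    exact pow_ne_zero _ (hG0 i)
  have hPd : K * ∑ i, (F i).natDegree ≤ P.natDegree := by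
    rw [hPdef, natDegree_prod _ _ (fun i _ => pow_ne_zero _ (hF i)), Finset.mul_sum]
    refine Finset.sum_le_sum fun i _ => ?_
    rw [natDegree_pow]
    exact Nat.mul_le_mul_right _ (hk i)
  have hQd : K * ∑ i, (G i).natDegree ≤ Q.natDegree := by
    rw [hQdef, natDegree_prod _ _ (fun i _ => pow_ne_zero _ (hG i)), Finset.mul_sum]
    refine Finset.sum_le_sum fun i _ => ?_
    rw [natDegree_pow]
    exact Nat.mul_le_mul_right _ (hk i)
  -- the greatest common divisor of `U` and `V`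
  set g := EuclideanDomain.gcd U V with hg
  obtain ⟨U1, hU1⟩ := EuclideanDomain.gcd_dvd_left U V
  obtain ⟨V1, hV1⟩ := EuclideanDomain.gcd_dvd_right U V
  rw [← hg] at hU1 hV1
  have hg0 : g ≠ 0 := fun h0 => hU0 (by rw [hU1, h0, zero_mul])
  have hU10 : U1 ≠ 0 := fun h0 => hU0 (by rw [hU1, h0, mul_zero])
  have hV10 : V1 ≠ 0 := fun h0 => hV0 (by rw [hV1, h0, mul_zero])
  have hcop : IsCoprime U1 V1 := by
    have h1 := EuclideanDomain.gcd_eq_gcd_ab U V
    rw [← hg] at h1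
    refine ⟨EuclideanDomain.gcdA U V, EuclideanDomain.gcdB U V, ?_⟩
    apply mul_left_cancel₀ hg0
    calc g * (EuclideanDomain.gcdA U V * U1 + EuclideanDomain.gcdB U V * V1)
        = (g * U1) * EuclideanDomain.gcdA U V + (g * V1) * EuclideanDomain.gcdB U V := by ring
      _ = g * 1 := by rw [← hU1, ← hV1, ← h1, mul_one]
  have hXg : ¬ X ∣ g := by
    intro h1
    exact X_not_dvd hU (by rw [hU1]; exact dvd_mul_of_dvd_left h1 _)
  have hgX : IsCoprime g X := by
    rw [isCoprime_comm]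
    exact (prime_X.irreducible.coprime_iff_not_dvd).2 hXg
  have hgd : g ∣ X ^ 4 + 1 := by
    have h1 : g ∣ C u * X ^ e3 * (X ^ 4 + 1) := by
      have h2 : C u * X ^ e3 * (X ^ 4 + 1) = -(X ^ e1 * P * U + X ^ e2 * Q * V) := by
        linear_combination h
      rw [h2, dvd_neg]
      refine dvd_add ?_ ?_
      · rw [hU1]
        exact dvd_mul_of_dvd_right (dvd_mul_right _ _) _
      · rw [hV1]
        exact dvd_mul_of_dvd_right (dvd_mul_right _ _) _
    have h3 : IsCoprime g (C u * X ^ e3) := by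
      refine IsCoprime.mul_right ?_ (hgX.pow_right)
      exact ⟨0, C u⁻¹, by rw [zero_mul, zero_add, ← C_mul, inv_mul_cancel₀ hu, C_1]⟩
    exact h3.dvd_of_dvd_mul_left h1
  obtain ⟨w, hw⟩ := hgd
  have hw0 : w ≠ 0 := fun h0 => X4_ne (by rw [hw, h0, mul_zero])
  have hsum : X ^ e1 * P * U1 + X ^ e2 * Q * V1 + C u * X ^ e3 * w = 0 := by
    apply mul_left_cancel₀ hg0
    rw [mul_zero]
    calc g * (X ^ e1 * P * U1 + X ^ e2 * Q * V1 + C u * X ^ e3 * w)
        = X ^ e1 * P * (g * U1) + X ^ e2 * Q * (g * V1) + C u * X ^ e3 * (g * w) := by ring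
      _ = 0 := by rw [← hU1, ← hV1, ← hw]; exact h
  have hXP : ¬ X ∣ P := X_not_dvd hPc
  have hXQ : ¬ X ∣ Q := X_not_dvd hQc
  have hXU1 : ¬ X ∣ U1 := fun h1 => X_not_dvd hU (by rw [hU1]; exact dvd_mul_of_dvd_right h1 _)
  have hXV1 : ¬ X ∣ V1 := fun h1 => X_not_dvd hV (by rw [hV1]; exact dvd_mul_of_dvd_right h1 _)
  have hXw : ¬ X ∣ w := by
    intro h1
    have h2 : X ∣ (X ^ 4 + 1 : ℚ[X]) := by rw [hw]; exact dvd_mul_of_dvd_right h1 _
    exact X_not_dvd (f := X ^ 4 + 1) (by simp) h2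
  have ha0 : X ^ e1 * P * U1 ≠ 0 := mul_ne_zero (mul_ne_zero (pow_ne_zero _ X_ne_zero) hP0) hU10
  have hb0 : X ^ e2 * Q * V1 ≠ 0 := mul_ne_zero (mul_ne_zero (pow_ne_zero _ X_ne_zero) hQ0) hV10
  have hc0 : C u * X ^ e3 * w ≠ 0 :=
    mul_ne_zero (mul_ne_zero (C_ne_zero.2 hu) (pow_ne_zero _ X_ne_zero)) hw0
  have hXa : X ∣ X ^ e1 * P * U1 → 1 ≤ e1 := by
    intro h1
    by_contra h2
    have h3 : e1 = 0 := by omega
    rw [h3, pow_zero, one_mul] at h1
    rcases prime_X.dvd_or_dvd h1 with h4 | h4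
    · exact hXP h4
    · exact hXU1 h4
  have hXb : X ∣ X ^ e2 * Q * V1 → 1 ≤ e2 := by
    intro h1
    by_contra h2
    have h3 : e2 = 0 := by omega
    rw [h3, pow_zero, one_mul] at h1
    rcases prime_X.dvd_or_dvd h1 with h4 | h4
    · exact hXQ h4
    · exact hXV1 h4
  have hXc : X ∣ C u * X ^ e3 * w → 1 ≤ e3 := by
    intro h1
    by_contra h2
    have h3 : e3 = 0 := by omega
    rw [h3, pow_zero, mul_one] at h1
    rcases prime_X.dvd_or_dvd h1 with h4 | h4
    · exact prime_X.not_isUnit (isUnit_of_dvd_unit h4 (isUnit_C.2 (isUnit_iff_ne_zero.2 hu)))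
    · exact hXw h4
  have hab : IsCoprime (X ^ e1 * P * U1) (X ^ e2 * Q * V1) := by
    refine isCoprime_of_prime_dvd (fun h0 => ha0 h0.1) ?_
    intro p hp hpa hpb
    have hpc : p ∣ C u * X ^ e3 * w := by
      have h2 : C u * X ^ e3 * w = -(X ^ e1 * P * U1 + X ^ e2 * Q * V1) := by
        linear_combination hsum
      rw [h2, dvd_neg]
      exact dvd_add hpa hpb
    by_cases hpX : p ∣ X
    · have hX := prime_dvd_X hp hpX
      have h1 := hXa (dvd_trans hX hpa)
      have h2 := hXb (dvd_trans hX hpb)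
      have h3 := hXc (dvd_trans hX hpc)
      omega
    · have hpXn : ∀ n, ¬ p ∣ X ^ n := fun n h1 => hpX (hp.dvd_of_dvd_pow h1)
      have hpw : p ∣ w := by
        rcases hp.dvd_or_dvd hpc with h1 | h1
        · rcases hp.dvd_or_dvd h1 with h2 | h2
          · exact absurd (isUnit_of_dvd_unit h2 (isUnit_C.2 (isUnit_iff_ne_zero.2 hu)))
              hp.not_isUnit
          · exact absurd h2 (hpXn _)
        · exact h1
      have hp4 : p ∣ X ^ 4 + 1 := by rw [hw]; exact dvd_mul_of_dvd_right hpw _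
      have key : ∀ i, p ∣ F i → False := by
        intro i hi
        have hi' := (hFG i p hp4).1 hi
        have h1 : p * p ∣ P := by
          refine dvd_trans ?_ (Finset.dvd_prod_of_mem _ (Finset.mem_univ i))
          refine dvd_trans ?_ (pow_dvd_pow _ (le_trans hK (hk i)))
          rw [pow_two]
          exact mul_dvd_mul hi hi
        have h2 : p * p ∣ Q := by
          refine dvd_trans ?_ (Finset.dvd_prod_of_mem _ (Finset.mem_univ i))
          refine dvd_trans ?_ (pow_dvd_pow _ (le_trans hK (hk i)))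
          rw [pow_two]
          exact mul_dvd_mul hi' hi'
        have h3 : p * p ∣ C u * X ^ e3 * (X ^ 4 + 1) := by
          have h2' : C u * X ^ e3 * (X ^ 4 + 1) = -(X ^ e1 * P * U + X ^ e2 * Q * V) := by
            linear_combination h
          rw [h2', dvd_neg]
          refine dvd_add ?_ ?_
          · exact dvd_mul_of_dvd_left (dvd_mul_of_dvd_right h1 _) _
          · exact dvd_mul_of_dvd_left (dvd_mul_of_dvd_right h2 _) _
        have h4 : IsCoprime (p * p) (C u * X ^ e3) := by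
          have h5 : IsCoprime p X := (hp.irreducible.coprime_iff_not_dvd).2 hpX
          have h6 : IsCoprime p (C u * X ^ e3) := by
            refine IsCoprime.mul_right ?_ (h5.pow_right)
            exact ⟨0, C u⁻¹, by rw [zero_mul, zero_add, ← C_mul, inv_mul_cancel₀ hu, C_1]⟩
          exact h6.mul_left h6
        exact sq_X4 hp (h4.dvd_of_dvd_mul_left h3)
      have hpP : ¬ p ∣ P := by
        intro h1
        obtain ⟨i, _, hi⟩ := (hp.dvd_finsetProd_iff _).1 h1
        exact key i (hp.dvd_of_dvd_pow hi)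
      have hpQ : ¬ p ∣ Q := by
        intro h1
        obtain ⟨i, _, hi⟩ := (hp.dvd_finsetProd_iff _).1 h1
        exact key i ((hFG i p hp4).2 (hp.dvd_of_dvd_pow hi))
      have hpU : p ∣ U1 := by
        rcases hp.dvd_or_dvd hpa with h1 | h1
        · rcases hp.dvd_or_dvd h1 with h2 | h2
          · exact absurd h2 (hpXn _)
          · exact absurd h2 hpP
        · exact h1
      have hpV : p ∣ V1 := by
        rcases hp.dvd_or_dvd hpb with h1 | h1
        · rcases hp.dvd_or_dvd h1 with h2 | h2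
          · exact absurd h2 (hpXn _)
          · exact absurd h2 hpQ
        · exact h1
      exact hp.not_isUnit (hcop.isUnit_of_dvd' hpU hpV)
  have hdU : U.natDegree = g.natDegree + U1.natDegree := by
    rw [hU1, natDegree_mul hg0 hU10]
  have hdV : V.natDegree = g.natDegree + V1.natDegree := by
    rw [hV1, natDegree_mul hg0 hV10]
  have hdw : 4 = g.natDegree + w.natDegree := by
    rw [← natDegree_X4, hw, natDegree_mul hg0 hw0]
  have hda : (X ^ e1 * P * U1).natDegree = e1 + P.natDegree + U1.natDegree := by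
    rw [natDegree_mul (mul_ne_zero (pow_ne_zero _ X_ne_zero) hP0) hU10,
      natDegree_mul (pow_ne_zero _ X_ne_zero) hP0, natDegree_X_pow]
  have hdb : (X ^ e2 * Q * V1).natDegree = e2 + Q.natDegree + V1.natDegree := by
    rw [natDegree_mul (mul_ne_zero (pow_ne_zero _ X_ne_zero) hQ0) hV10,
      natDegree_mul (pow_ne_zero _ X_ne_zero) hQ0, natDegree_X_pow]
  rcases Polynomial.abc ha0 hb0 hc0 hab hsum with ⟨h1, h2, _⟩ | ⟨h1, h2, _⟩
  · -- the degree of the radical
    set R : ℚ[X] := (∏ i, F i) * U1 * ((∏ i, G i) * V1) * (w * X) with hR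
    have hPF : (∏ i, F i) ≠ 0 := Finset.prod_ne_zero_iff.2 fun i _ => hF i
    have hPG : (∏ i, G i) ≠ 0 := Finset.prod_ne_zero_iff.2 fun i _ => hG i
    have hR0 : R ≠ 0 := mul_ne_zero (mul_ne_zero (mul_ne_zero hPF hU10) (mul_ne_zero hPG hV10))
      (mul_ne_zero hw0 X_ne_zero)
    have hRd : R.natDegree = ∑ i, (F i).natDegree + U1.natDegree +
        (∑ i, (G i).natDegree + V1.natDegree) + (w.natDegree + 1) := by
      rw [hR, natDegree_mul (mul_ne_zero (mul_ne_zero hPF hU10) (mul_ne_zero hPG hV10))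
        (mul_ne_zero hw0 X_ne_zero), natDegree_mul (mul_ne_zero hPF hU10) (mul_ne_zero hPG hV10),
        natDegree_mul hPF hU10, natDegree_mul hPG hV10, natDegree_mul hw0 X_ne_zero,
        natDegree_prod _ _ (fun i _ => hF i), natDegree_prod _ _ (fun i _ => hG i), natDegree_X]
    have d1 : (∏ i, F i) ∣ R := by
      rw [hR]
      exact dvd_mul_of_dvd_left (dvd_mul_of_dvd_left (dvd_mul_right _ _) _) _
    have d2 : U1 ∣ R := by
      rw [hR]
      exact dvd_mul_of_dvd_left (dvd_mul_of_dvd_left (dvd_mul_left _ _) _) _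
    have d3 : (∏ i, G i) ∣ R := by
      rw [hR]
      exact dvd_mul_of_dvd_left (dvd_mul_of_dvd_right (dvd_mul_right _ _) _) _
    have d4 : V1 ∣ R := by
      rw [hR]
      exact dvd_mul_of_dvd_left (dvd_mul_of_dvd_right (dvd_mul_left _ _) _) _
    have d5 : w ∣ R := by
      rw [hR]
      exact dvd_mul_of_dvd_right (dvd_mul_right _ _) _
    have d6 : X ∣ R := by
      rw [hR]
      exact dvd_mul_of_dvd_right (dvd_mul_left _ _) _
    have d7 : P ∣ R ^ (∑ i, k i) := by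
      rw [hPdef, ← Finset.prod_pow_eq_pow_sum]
      refine Finset.prod_dvd_prod_of_dvd _ _ fun i _ => pow_dvd_pow_of_dvd ?_ _
      exact dvd_trans (Finset.dvd_prod_of_mem _ (Finset.mem_univ i)) d1
    have d8 : Q ∣ R ^ (∑ i, k i) := by
      rw [hQdef, ← Finset.prod_pow_eq_pow_sum]
      refine Finset.prod_dvd_prod_of_dvd _ _ fun i _ => pow_dvd_pow_of_dvd ?_ _
      exact dvd_trans (Finset.dvd_prod_of_mem _ (Finset.mem_univ i)) d3
    have hrad : radical ((X ^ e1 * P * U1) * (X ^ e2 * Q * V1) * (C u * X ^ e3 * w)) ∣ R := by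
      rw [← exists_dvd_pow_iff_radical_dvd (mul_ne_zero (mul_ne_zero ha0 hb0) hc0)]
      refine ⟨(e1 + (∑ i, k i) + 1) + (e2 + (∑ i, k i) + 1) + (0 + e3 + 1), ?_⟩
      simp only [pow_add, pow_one, pow_zero, one_mul]
      refine mul_dvd_mul (mul_dvd_mul ?_ ?_) ?_
      · exact mul_dvd_mul (mul_dvd_mul (pow_dvd_pow_of_dvd d6 _) d7) d2
      · exact mul_dvd_mul (mul_dvd_mul (pow_dvd_pow_of_dvd d6 _) d8) d4
      · refine mul_dvd_mul ?_ d5
        have : C u * X ^ e3 ∣ X ^ e3 := by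
          refine ⟨C u⁻¹, ?_⟩
          have h5 : (C u : ℚ[X]) * C u⁻¹ = 1 := by
            rw [← C_mul, mul_inv_cancel₀ hu, C_1]
          linear_combination (-X ^ e3 : ℚ[X]) * h5
        exact dvd_trans this (pow_dvd_pow_of_dvd d6 _)
    have hle := natDegree_le_of_dvd hrad hR0
    rw [hda] at h1
    rw [hdb] at h2
    omega
  · have h3 := Polynomial.derivative_eq_zero.1 h1
    have h4 := Polynomial.derivative_eq_zero.1 h2
    rw [hda] at h3
    rw [hdb] at h4
    omega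

end Pool.Agent.R811.Abc
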