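import Pool.Agent.R811.Abc.Poly

set_option autoImplicit false

/-!
The Mason-Stothers theorem for the equation `P U + Q V = X^j R`, `P`, `Q` products of
powers with arbitrary exponents, `R` arbitrary.
-/

namespace Pool.Agent.R811.Abc

open Polynomial UniqueFactorizationMonoid

theorem poly_core3 {r : ℕ} (F G : Fin r → ℚ[X]) (k : Fin r → ℕ)
    (hF0 : ∀ i, (F i).coeff 0 ≠ 0) (hG0 : ∀ i, (G i).coeff 0 ≠ 0)
    (U V R : ℚ[X]) (hU : U.coeff 0 ≠ 0) (hV : V.coeff 0 ≠ 0) (hR : R.coeff 0 ≠ 0)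
    (e1 e2 e3 : ℕ) (he : e1 = 0 ∨ e2 = 0 ∨ e3 = 0)
    (h : X ^ e1 * (∏ i, F i ^ k i) * U + X ^ e2 * (∏ i, G i ^ k i) * V + X ^ e3 * R = 0) :
    ∑ i, k i * (F i).natDegree ≤
      ∑ i, (F i).natDegree + ∑ i, (G i).natDegree + V.natDegree + R.natDegree ∧
    ∑ i, k i * (G i).natDegree ≤
      ∑ i, (F i).natDegree + ∑ i, (G i).natDegree + U.natDegree + R.natDegree := by
  classical
  have hF : ∀ i, F i ≠ 0 := fun i h0 => hF0 i (by rw [h0]; simp)
  have hG : ∀ i, G i ≠ 0 := fun i h0 => hG0 i (by rw [h0]; simp)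
  have hU0 : U ≠ 0 := fun h0 => hU (by rw [h0]; simp)
  have hV0 : V ≠ 0 := fun h0 => hV (by rw [h0]; simp)
  have hR0 : R ≠ 0 := fun h0 => hR (by rw [h0]; simp)
  set P := ∏ i, F i ^ k i with hPdef
  set Q := ∏ i, G i ^ k i with hQdef
  have hP0 : P ≠ 0 := Finset.prod_ne_zero_iff.2 fun i _ => pow_ne_zero _ (hF i)
  have hQ0 : Q ≠ 0 := Finset.prod_ne_zero_iff.2 fun i _ => pow_ne_zero _ (hG i)
  have hPc : P.coeff 0 ≠ 0 := by
    rw [hPdef, coeff_zero_eq_eval_zero, eval_prod]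
    refine Finset.prod_ne_zero_iff.2 fun i _ => ?_
    rw [eval_pow, ← coeff_zero_eq_eval_zero]
    exact pow_ne_zero _ (hF0 i)
  have hQc : Q.coeff 0 ≠ 0 := by
    rw [hQdef, coeff_zero_eq_eval_zero, eval_prod]
    refine Finset.prod_ne_zero_iff.2 fun i _ => ?_
    rw [eval_pow, ← coeff_zero_eq_eval_zero]
    exact pow_ne_zero _ (hG0 i)
  have hPd : P.natDegree = ∑ i, k i * (F i).natDegree := by
    rw [hPdef, natDegree_prod _ _ (fun i _ => pow_ne_zero _ (hF i))]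
    exact Finset.sum_congr rfl fun i _ => natDegree_pow _ _
  have hQd : Q.natDegree = ∑ i, k i * (G i).natDegree := by
    rw [hQdef, natDegree_prod _ _ (fun i _ => pow_ne_zero _ (hG i))]
    exact Finset.sum_congr rfl fun i _ => natDegree_pow _ _
  set a0 := P * U with ha0def
  set b0 := Q * V with hb0def
  have ha00 : a0 ≠ 0 := mul_ne_zero hP0 hU0
  have hb00 : b0 ≠ 0 := mul_ne_zero hQ0 hV0
  have hXa0 : ¬ X ∣ a0 := by
    apply X_not_dvd
    rw [ha0def, mul_coeff_zero]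
    exact mul_ne_zero hPc hU
  have hXb0 : ¬ X ∣ b0 := by
    apply X_not_dvd
    rw [hb0def, mul_coeff_zero]
    exact mul_ne_zero hQc hV
  -- the greatest common divisor
  set g := EuclideanDomain.gcd a0 b0 with hg
  obtain ⟨a1, ha1⟩ := EuclideanDomain.gcd_dvd_left a0 b0
  obtain ⟨b1, hb1⟩ := EuclideanDomain.gcd_dvd_right a0 b0
  rw [← hg] at ha1 hb1
  have hg0 : g ≠ 0 := fun h0 => ha00 (by rw [ha1, h0, zero_mul])
  have ha10 : a1 ≠ 0 := fun h0 => ha00 (by rw [ha1, h0, mul_zero])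
  have hb10 : b1 ≠ 0 := fun h0 => hb00 (by rw [hb1, h0, mul_zero])
  have hcop : IsCoprime a1 b1 := by
    have h1 := EuclideanDomain.gcd_eq_gcd_ab a0 b0
    rw [← hg] at h1
    refine ⟨EuclideanDomain.gcdA a0 b0, EuclideanDomain.gcdB a0 b0, ?_⟩
    apply mul_left_cancel₀ hg0
    calc g * (EuclideanDomain.gcdA a0 b0 * a1 + EuclideanDomain.gcdB a0 b0 * b1)
        = (g * a1) * EuclideanDomain.gcdA a0 b0 + (g * b1) * EuclideanDomain.gcdB a0 b0 := by ring
      _ = g * 1 := by rw [← ha1, ← hb1, ← h1, mul_one]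
  have hXg : ¬ X ∣ g := by
    intro h1
    exact hXa0 (by rw [ha1]; exact dvd_mul_of_dvd_left h1 _)
  have hgX : IsCoprime g X := by
    rw [isCoprime_comm]
    exact (prime_X.irreducible.coprime_iff_not_dvd).2 hXg
  have heq : X ^ e1 * a0 + X ^ e2 * b0 + X ^ e3 * R = 0 := by
    rw [ha0def, hb0def]
    linear_combination h
  have hgd : g ∣ R := by
    have h1 : g ∣ X ^ e3 * R := by
      have h2 : X ^ e3 * R = -(X ^ e1 * a0 + X ^ e2 * b0) := by
        linear_combination heq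
      rw [h2, dvd_neg]
      refine dvd_add ?_ ?_
      · rw [ha1]
        exact dvd_mul_of_dvd_right (dvd_mul_right _ _) _
      · rw [hb1]
        exact dvd_mul_of_dvd_right (dvd_mul_right _ _) _
    exact (hgX.pow_right (n := e3)).dvd_of_dvd_mul_left h1
  obtain ⟨w, hw⟩ := id hgd
  have hw0 : w ≠ 0 := fun h0 => hR0 (by rw [hw, h0, mul_zero])
  have hsum : X ^ e1 * a1 + X ^ e2 * b1 + X ^ e3 * w = 0 := by
    apply mul_left_cancel₀ hg0
    rw [mul_zero]
    calc g * (X ^ e1 * a1 + X ^ e2 * b1 + X ^ e3 * w)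
        = X ^ e1 * (g * a1) + X ^ e2 * (g * b1) + X ^ e3 * (g * w) := by ring
      _ = 0 := by rw [← ha1, ← hb1, ← hw]; exact heq
  have hXa1 : ¬ X ∣ a1 := fun h1 => hXa0 (by rw [ha1]; exact dvd_mul_of_dvd_right h1 _)
  have hXb1 : ¬ X ∣ b1 := fun h1 => hXb0 (by rw [hb1]; exact dvd_mul_of_dvd_right h1 _)
  have hXw : ¬ X ∣ w := by
    intro h1
    have h2 : X ∣ R := by rw [hw]; exact dvd_mul_of_dvd_right h1 _
    exact X_not_dvd hR h2
  have hA0 : X ^ e1 * a1 ≠ 0 := mul_ne_zero (pow_ne_zero _ X_ne_zero) ha10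
  have hB0 : X ^ e2 * b1 ≠ 0 := mul_ne_zero (pow_ne_zero _ X_ne_zero) hb10
  have hC0 : X ^ e3 * w ≠ 0 := mul_ne_zero (pow_ne_zero _ X_ne_zero) hw0
  have hXx : ∀ (e : ℕ) (z : ℚ[X]), ¬ X ∣ z → X ∣ X ^ e * z → 1 ≤ e := by
    intro e z hz h1
    by_contra h2
    have h3 : e = 0 := by omega
    rw [h3, pow_zero, one_mul] at h1
    exact hz h1
  have hab : IsCoprime (X ^ e1 * a1) (X ^ e2 * b1) := by
    refine isCoprime_of_prime_dvd (fun h0 => hA0 h0.1) ?_
    intro p hp hpa hpb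
    have hpc : p ∣ X ^ e3 * w := by
      have h2 : X ^ e3 * w = -(X ^ e1 * a1 + X ^ e2 * b1) := by
        linear_combination hsum
      rw [h2, dvd_neg]
      exact dvd_add hpa hpb
    by_cases hpX : p ∣ X
    · have hX := prime_dvd_X hp hpX
      have h1 := hXx _ _ hXa1 (dvd_trans hX hpa)
      have h2 := hXx _ _ hXb1 (dvd_trans hX hpb)
      have h3 := hXx _ _ hXw (dvd_trans hX hpc)
      omega
    · have hpXn : ∀ n, ¬ p ∣ X ^ n := fun n h1 => hpX (hp.dvd_of_dvd_pow h1)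
      have hpA : p ∣ a1 := (hp.dvd_or_dvd hpa).resolve_left (hpXn _)
      have hpB : p ∣ b1 := (hp.dvd_or_dvd hpb).resolve_left (hpXn _)
      exact hp.not_isUnit (hcop.isUnit_of_dvd' hpA hpB)
  have hda : e1 + (∑ i, k i * (F i).natDegree + U.natDegree) =
      (X ^ e1 * a1).natDegree + g.natDegree := by
    rw [natDegree_mul (pow_ne_zero _ X_ne_zero) ha10, natDegree_X_pow, ← hPd,
      ← natDegree_mul hP0 hU0, ← ha0def, add_assoc, ← natDegree_mul ha10 hg0]
    congr 2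
    rw [ha1]; ring
  have hdb : e2 + (∑ i, k i * (G i).natDegree + V.natDegree) =
      (X ^ e2 * b1).natDegree + g.natDegree := by
    rw [natDegree_mul (pow_ne_zero _ X_ne_zero) hb10, natDegree_X_pow, ← hQd,
      ← natDegree_mul hQ0 hV0, ← hb0def, add_assoc, ← natDegree_mul hb10 hg0]
    congr 2
    rw [hb1]; ring
  have hdR : R.natDegree = g.natDegree + w.natDegree := by
    rw [← natDegree_mul hg0 hw0, ← hw]
  have hPF : (∏ i, F i) ≠ 0 := Finset.prod_ne_zero_iff.2 fun i _ => hF i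
  have hPG : (∏ i, G i) ≠ 0 := Finset.prod_ne_zero_iff.2 fun i _ => hG i
  have hKpos : ∀ H : Fin r → ℚ[X], ∀ Z : ℚ[X],
      (∏ i, H i ^ k i) * Z ∣ ((∏ i, H i) * Z) ^ (∑ i, k i + 1) := by
    intro H Z
    rw [mul_pow]
    refine mul_dvd_mul ?_ ?_
    · rw [← Finset.prod_pow]
      refine Finset.prod_dvd_prod_of_dvd _ _ fun i _ => pow_dvd_pow _ ?_
      have : k i ≤ ∑ i, k i := Finset.single_le_sum (f := k) (fun _ _ => Nat.zero_le _)
        (Finset.mem_univ i)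
      omega
    · exact dvd_pow_self _ (by omega)
  rcases Polynomial.abc hA0 hB0 hC0 hab hsum with ⟨h1, h2, _⟩ | ⟨h1, h2, _⟩
  · set S : ℚ[X] := ((∏ i, F i) * U) * ((∏ i, G i) * V) * (w * X) with hS
    have hFU := mul_ne_zero hPF hU0
    have hGV := mul_ne_zero hPG hV0
    have hS0 : S ≠ 0 := mul_ne_zero (mul_ne_zero hFU hGV) (mul_ne_zero hw0 X_ne_zero)
    have hSd : S.natDegree = (∑ i, (F i).natDegree + U.natDegree) +
        (∑ i, (G i).natDegree + V.natDegree) + (w.natDegree + 1) := by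
      rw [hS, natDegree_mul (mul_ne_zero hFU hGV) (mul_ne_zero hw0 X_ne_zero),
        natDegree_mul hFU hGV, natDegree_mul hPF hU0, natDegree_mul hPG hV0,
        natDegree_mul hw0 X_ne_zero, natDegree_X, natDegree_prod _ _ (fun i _ => hF i),
        natDegree_prod _ _ (fun i _ => hG i)]
    have d1 : (∏ i, F i) * U ∣ S := by
      rw [hS]; exact dvd_mul_of_dvd_left (dvd_mul_right _ _) _
    have d2 : (∏ i, G i) * V ∣ S := by
      rw [hS]; exact dvd_mul_of_dvd_left (dvd_mul_left _ _) _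
    have d3 : w ∣ S := by
      rw [hS]; exact dvd_mul_of_dvd_right (dvd_mul_right _ _) _
    have d4 : X ∣ S := by
      rw [hS]; exact dvd_mul_of_dvd_right (dvd_mul_left _ _) _
    obtain ⟨m, hm⟩ : ∃ m, m = ∑ i, k i + 1 := ⟨_, rfl⟩
    have d5 : a1 ∣ S ^ m := by
      refine dvd_trans ?_ (pow_dvd_pow_of_dvd d1 m)
      rw [hm]
      refine dvd_trans ?_ (hKpos F U)
      rw [← hPdef, ← ha0def, ha1]
      exact dvd_mul_left _ _
    have d6 : b1 ∣ S ^ m := by
      refine dvd_trans ?_ (pow_dvd_pow_of_dvd d2 m)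
      rw [hm]
      refine dvd_trans ?_ (hKpos G V)
      rw [← hQdef, ← hb0def, hb1]
      exact dvd_mul_left _ _
    have hrad : radical ((X ^ e1 * a1) * (X ^ e2 * b1) * (X ^ e3 * w)) ∣ S := by
      rw [← exists_dvd_pow_iff_radical_dvd (mul_ne_zero (mul_ne_zero hA0 hB0) hC0)]
      refine ⟨(e1 + m) + (e2 + m) + (e3 + 1), ?_⟩
      rw [pow_add, pow_add, pow_add S e1, pow_add S e2, pow_add S e3, pow_one]
      refine mul_dvd_mul (mul_dvd_mul ?_ ?_) ?_
      · exact mul_dvd_mul (pow_dvd_pow_of_dvd d4 _) d5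
      · exact mul_dvd_mul (pow_dvd_pow_of_dvd d4 _) d6
      · exact mul_dvd_mul (pow_dvd_pow_of_dvd d4 _) d3
    have hle := natDegree_le_of_dvd hrad hS0
    omega
  · have h3 := Polynomial.derivative_eq_zero.1 h1
    have h4 := Polynomial.derivative_eq_zero.1 h2
    omega

end Pool.Agent.R811.Abc
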