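import Pool.Agent.R811.Abc.Defs
import Pool.Agent.H891R2.RF.R1
import Pool.Agent.H891R2.RF.R2

set_option autoImplicit false

namespace Pool.Agent.R811.Abc

open Finset LaurentPolynomial Pool.Agent.H891R2.Jones Pool.Agent.H891R2.MT Pool.Agent.H891R2.RF
open Pool.Agent.H891R2.RF.R1 (K Zc_eq ind_and)

/-- sum over all maps of a function of two values -/
theorem sum_two {Q : Type} [Fintype Q] [DecidableEq Q] {N : ℕ} (c₁ c₂ : Q) (h : c₁ ≠ c₂)
    (g : Fin N → Fin N → ℂ) :
    ∑ f : Q → Fin N, g (f c₁) (f c₂) = (N : ℂ) ^ (Fintype.card Q - 2) * ∑ p, ∑ q, g p q := by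
  classical
  have h1 : ∀ f : Q → Fin N, g (f c₁) (f c₂) =
      ∑ p, ∑ q, (if f c₁ = p ∧ f c₂ = q then g p q else 0) := by
    intro f
    rw [Finset.sum_eq_single (f c₁), Finset.sum_eq_single (f c₂)]
    · simp
    · intro b _ hb
      rw [if_neg]
      exact fun h => hb h.2.symm
    · intro h; exact absurd (mem_univ _) h
    · intro b _ hb
      refine Finset.sum_eq_zero fun q _ => ?_
      rw [if_neg]
      exact fun h => hb h.1.symm
    · intro h; exact absurd (mem_univ _) h
  simp only [h1]
  rw [Finset.sum_comm, Finset.mul_sum]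
  refine Finset.sum_congr rfl fun p _ => ?_
  rw [Finset.sum_comm, Finset.mul_sum]
  refine Finset.sum_congr rfl fun q _ => ?_
  rw [← Finset.sum_filter, Finset.sum_const, nsmul_eq_mul]
  congr 1
  -- number of maps with two prescribed values
  have h2 : (Finset.univ.filter (fun f : Q → Fin N => f c₁ = p ∧ f c₂ = q)) =
      Fintype.piFinset (fun x : Q => if x = c₁ then {p} else if x = c₂ then {q} else Finset.univ) := by
    ext f
    simp only [mem_filter, mem_univ, true_and, Fintype.mem_piFinset]
    constructor
    · rintro ⟨h3, h4⟩ x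
      by_cases hx : x = c₁
      · subst hx; simp [h3]
      · rw [if_neg hx]
        by_cases hx2 : x = c₂
        · subst hx2; simp [h4]
        · rw [if_neg hx2]; exact mem_univ _
    · intro h3
      have h4 := h3 c₁
      have h5 := h3 c₂
      rw [if_pos rfl, mem_singleton] at h4
      rw [if_neg (Ne.symm h), if_pos rfl, mem_singleton] at h5
      exact ⟨h4, h5⟩
  rw [h2, Fintype.card_piFinset]
  have h3 : ∀ x : Q, (if x = c₁ then ({p} : Finset (Fin N)) else if x = c₂ then {q} else
      Finset.univ).card = if x ∈ ({c₁, c₂} : Finset Q) then 1 else N := by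
    intro x
    by_cases hx : x = c₁
    · subst hx; simp
    · by_cases hx2 : x = c₂
      · subst hx2; simp [hx]
      · simp [hx, hx2]
  simp only [h3]
  rw [Finset.prod_ite]
  simp only [Finset.prod_const_one, one_mul, Finset.prod_const]
  have h4 : (Finset.univ.filter (fun x : Q => x ∉ ({c₁, c₂} : Finset Q))).card =
      Fintype.card Q - 2 := by
    have : (Finset.univ.filter (fun x : Q => x ∉ ({c₁, c₂} : Finset Q))) =
        ({c₁, c₂} : Finset Q)ᶜ := by
      ext x; simp
    rw [this, Finset.card_compl, Finset.card_pair h]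
  rw [h4]
  push_cast
  rfl

/-- the local weight of a tangle is a sum over its states -/
theorem K_states {A : ℂ} (hA : A ≠ 0) {N : ℕ} (W : Outer4) (u : W.P → Fin N) :
    K A W u = ∑ s : Fin (opn W).crossings.length → Bool, A ^ (Diagram.weight s) *
      ind (∀ p q, (opn W).Joined s p q → u p = u q) := by
  have h0 : K A W u = WW A (opn W).arcs (opn W).crossings u := by
    unfold K WW opn UDiagram.std
    dsimp only
    rw [List.map_map]
    rfl
  rw [h0]
  generalize opn W = D
  unfold WW
  rw [← Fin.prod_univ_fun_getElem D.crossings (crossW A u)]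
  have h2 : ∀ i ∈ (Finset.univ : Finset (Fin D.crossings.length)), 
      crossW A u D.crossings[i.1] = 
      ∑ b : Bool, (A ^ (if b then 1 else -1 : ℤ)) * 
        ind (if b then (u D.crossings[i.1].a = u D.crossings[i.1].b ∧ 
            u D.crossings[i.1].c = u D.crossings[i.1].d)
          else (u D.crossings[i.1].b = u D.crossings[i.1].c ∧ 
            u D.crossings[i.1].d = u D.crossings[i.1].a)) := by
    intro i _
    simp [crossW]
  rw [Finset.prod_congr rfl h2]
  rw [Finset.prod_univ_sum, Fintype.piFinset_univ, Finset.mul_sum]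
  refine Finset.sum_congr rfl fun s _ => ?_
  rw [Finset.prod_mul_distrib, ← zpow_sum _ hA, prod_ind, arcs_prod, mul_left_comm, ind_mul]
  unfold Diagram.weight
  congr 1
  refine ind_congr ?_
  constructor
  · rintro ⟨h3, h4⟩ p q (h5 | ⟨i, h5⟩)
    · exact h3 _ h5
    · have h6 := h4 i (Finset.mem_univ _)
      by_cases hs : s i
      · simp only [hs, if_true] at h5 h6
        rcases h5 with ⟨rfl, rfl⟩ | ⟨rfl, rfl⟩
        · exact h6.1
        · exact h6.2
      · simp only [hs] at h5 h6
        rcases h5 with ⟨rfl, rfl⟩ | ⟨rfl, rfl⟩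
        · exact h6.1
        · exact h6.2
  · intro h3
    refine ⟨fun x hx => h3 _ _ (Or.inl hx), fun i _ => ?_⟩
    by_cases hs : s i
    · simp only [hs, if_true]
      exact ⟨h3 _ _ (Or.inr ⟨i, by simp [hs]⟩), h3 _ _ (Or.inr ⟨i, by simp [hs]⟩)⟩
    · simp only [hs]
      exact ⟨h3 _ _ (Or.inr ⟨i, by simp [hs]⟩), h3 _ _ (Or.inr ⟨i, by simp [hs]⟩)⟩

/-- sum over the compatible colourings -/
theorem sum_compat {P : Type} [Fintype P] [DecidableEq P] {N : ℕ} (r : P → P → Prop)
    [Fintype (Quot r)] [DecidableEq (Quot r)] (g : (P → Fin N) → ℂ) :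
    ∑ u : P → Fin N, ind (∀ p q, r p q → u p = u q) * g u =
      ∑ f : Quot r → Fin N, g (fun p => f (Quot.mk r p)) := by
  classical
  have h1 : ∑ u : P → Fin N, ind (∀ p q, r p q → u p = u q) * g u =
      ∑ u ∈ Finset.univ.filter (fun u : P → Fin N => ∀ p q, r p q → u p = u q), g u := by
    rw [Finset.sum_filter]
    refine Finset.sum_congr rfl fun u _ => ?_
    unfold ind
    by_cases h : ∀ p q, r p q → u p = u q
    · rw [if_pos h, if_pos h, one_mul]
    · rw [if_neg h, if_neg h, zero_mul]
  rw [h1]
  symm
  refine Finset.sum_bij' (fun (f : Quot r → Fin N) _ => fun p => f (Quot.mk r p))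
    (fun u hu => Quot.lift u (by simpa using hu)) ?_ ?_ ?_ ?_ ?_
  · intro f _
    simp only [mem_filter, mem_univ, true_and]
    exact fun p q h => congrArg f (Quot.sound h)
  · intro u _
    exact mem_univ _
  · intro f _
    funext x
    induction x using Quot.ind
    rfl
  · intro u _
    rfl
  · intro f _
    rfl

open Classical in
/-- value of `alpha` -/
noncomputable def alphaN (A : ℂ) (N : ℕ) (W : Outer4) : ℂ :=
  ∑ s : Fin (opn W).crossings.length → Bool,
    if Hor W s then A ^ (Diagram.weight s) * (N : ℂ) ^ ((opn W).loops s - 2) else 0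

open Classical in
/-- value of `beta` -/
noncomputable def betaN (A : ℂ) (N : ℕ) (W : Outer4) : ℂ :=
  ∑ s : Fin (opn W).crossings.length → Bool,
    if Ver W s then A ^ (Diagram.weight s) * (N : ℂ) ^ ((opn W).loops s - 2) else 0

/-- the tensor of a tangle -/
theorem tensor (W : Outer4) (hW : IsTangle W) {A : ℂ} (hA : A ≠ 0) {N : ℕ}
    (G : Fin N → Fin N → Fin N → Fin N → ℂ) :
    ∑ u : W.P → Fin N, K A W u * G (u (W.corner false false)) (u (W.corner false true))
        (u (W.corner true false)) (u (W.corner true true)) =
      alphaN A N W * (∑ p, ∑ q, G p p q q) + betaN A N W * (∑ p, ∑ q, G p q p q) := by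
  classical
  simp only [K_states hA]
  simp only [Finset.sum_mul]
  rw [Finset.sum_comm]
  unfold alphaN betaN
  rw [Finset.sum_mul, Finset.sum_mul, ← Finset.sum_add_distrib]
  refine Finset.sum_congr rfl fun s _ => ?_
  have h1 : ∀ u : W.P → Fin N, A ^ (Diagram.weight s) *
      ind (∀ p q, (opn W).Joined s p q → u p = u q) * G (u (W.corner false false))
        (u (W.corner false true)) (u (W.corner true false)) (u (W.corner true true)) =
      A ^ (Diagram.weight s) * (ind (∀ p q, (opn W).Joined s p q → u p = u q) *
        G (u (W.corner false false)) (u (W.corner false true)) (u (W.corner true false))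
          (u (W.corner true true))) := fun u => mul_assoc _ _ _
  simp only [h1]
  let _ : Fintype (Quot ((opn W).Joined s)) := Fintype.ofFinite _
  rw [← Finset.mul_sum, sum_compat ((opn W).Joined s) (fun u => G (u (W.corner false false))
    (u (W.corner false true)) (u (W.corner true false)) (u (W.corner true true)))]
  have hl : (opn W).loops s = Fintype.card (Quot ((opn W).Joined s)) := by
    unfold Diagram.loops
    exact Nat.card_eq_fintype_card
  rcases hW s with h | h
  · have hv : ¬ Ver W s := fun h' => h.2.2 h'.1
    rw [if_pos h, if_neg hv]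
    have h2 := sum_two (N := N) _ _ h.2.2 (fun p q => G p p q q)
    have h3 : ∀ f : Quot ((opn W).Joined s) → Fin N,
        G (f (Quot.mk _ (W.corner false false))) (f (Quot.mk _ (W.corner false true)))
          (f (Quot.mk _ (W.corner true false))) (f (Quot.mk _ (W.corner true true))) =
        G (f (comp W s false false)) (f (comp W s false false)) (f (comp W s true false))
          (f (comp W s true false)) := by
      intro f
      change G (f (comp W s false false)) (f (comp W s false true)) (f (comp W s true false))
          (f (comp W s true true)) = _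
      rw [← h.1, ← h.2.1]
    simp only [h3]
    rw [h2, hl]
    ring
  · have hv : ¬ Hor W s := fun h' => h'.2.2 h.1
    rw [if_pos h, if_neg hv]
    have h2 := sum_two (N := N) _ _ h.2.2 (fun p q => G p q p q)
    have h3 : ∀ f : Quot ((opn W).Joined s) → Fin N,
        G (f (Quot.mk _ (W.corner false false))) (f (Quot.mk _ (W.corner false true)))
          (f (Quot.mk _ (W.corner true false))) (f (Quot.mk _ (W.corner true true))) =
        G (f (comp W s false false)) (f (comp W s false true)) (f (comp W s false false))
          (f (comp W s false true)) := by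
      intro f
      change G (f (comp W s false false)) (f (comp W s false true)) (f (comp W s true false))
          (f (comp W s true true)) = _
      rw [← h.1, ← h.2.1]
    simp only [h3]
    rw [h2, hl]
    ring

end Pool.Agent.R811.Abc
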